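import Pool.Agent.PnU.Defs2
import Pool.Agent.PnT.Pairs
import Pool.Agent.PnT.Roots

/-!
# U10: the correlation hypothesis for arbitrary sets of indices
-/

set_option autoImplicit false

open Finset Filter

namespace Pool.Agent.PnU

open Pool.Agent.PnPoly Pool.Agent.PnMaynard Pool.Agent.PnMaynard2
open Pool.Agent.PnLG (Py)
open Pool.Agent.PnT.Prs

namespace CorrAux

theorem card_class_le (q r c : ℕ) :
    ((((range r).filter (fun x => x ≡ c [MOD q])).card : ℕ) : ℝ) ≤ (r:ℝ) / q + 1 := by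
  have h1 := Pool.Agent.PnT.RT.card_class q r ((range r).filter (fun x => x ≡ c [MOD q]))
    (Finset.filter_subset _ _) (fun i hi j hj => by
      have h2 := (Finset.mem_filter.mp hi).2
      have h3 := (Finset.mem_filter.mp hj).2
      exact h2.trans h3.symm)
  have h4 : ((r / q : ℕ) : ℝ) ≤ (r:ℝ) / q := Nat.cast_div_le
  have h5 : ((((range r).filter (fun x => x ≡ c [MOD q])).card : ℕ) : ℝ) ≤ ((r / q : ℕ) : ℝ) + 1 := by
    exact_mod_cast h1
  linarith

theorem count_le {Δ n0 z0 d C0 : ℕ} {R : ℕ → ℕ} (hR : Dir Δ n0 z0 d C0 R) (v : ℕ) (T : Finset ℕ)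
    (hT : ∀ p ∈ T, p.Prime ∧ z0 < p) (r : ℕ) :
    ((((range r).filter (fun i => n0 ≤ i ∧ ∀ p ∈ T, R i ≡ v [MOD p])).card : ℕ) : ℝ) ≤
      (d:ℝ) ^ T.card * ((r:ℝ) / (∏ p ∈ T, (p:ℝ)) + 1) := by
  classical
  have hex : ∀ l : ℕ, (l.Prime ∧ z0 < l) → ∃ S : Finset ℕ, S.card ≤ d ∧
      ∀ n, n0 ≤ n → R n ≡ v [MOD l] → ∃ s ∈ S, n ≡ s [MOD l] := fun l h => hR.pre l h.1 h.2 v
  choose! A hA1 hA2 using hex
  have hpos : 0 < ∏ l ∈ T, l := Finset.prod_pos fun p hp => (hT p hp).1.pos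
  have h1 := sum_classes (X := range r) (u := fun _ => (1:ℝ)) (fun _ => zero_le_one) (d := d)
    (b := (r:ℝ) / ((∏ l ∈ T, l : ℕ) : ℝ) + 1) (by positivity) A T (fun l hl => (hT l hl).1)
    (fun l hl => hA1 l (hT l hl)) 1 (fun l hl h => (hT l hl).1.one_lt.ne' (Nat.dvd_one.mp h))
    (fun c => by
      rw [one_mul, Finset.sum_const, nsmul_eq_mul, mul_one]
      exact card_class_le _ r c) 0
  rw [Finset.sum_const, nsmul_eq_mul, mul_one] at h1
  push_cast at h1
  refine le_trans ?_ h1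
  have h2 : (range r).filter (fun i => n0 ≤ i ∧ ∀ p ∈ T, R i ≡ v [MOD p]) ⊆
      (range r).filter (fun x => x ≡ 0 [MOD 1] ∧ ∀ l ∈ T, ∃ s ∈ A l, x ≡ s [MOD l]) := by
    intro i hi
    rw [Finset.mem_filter] at hi ⊢
    exact ⟨hi.1, Nat.modEq_one, fun l hl => hA2 l (hT l hl) i hi.2.1 (hi.2.2 l hl)⟩
  exact_mod_cast Finset.card_le_card h2

theorem card_big {N C0 D : ℕ} (hN : 2 ≤ N) (hD : 1 ≤ D) (hDN : D ≤ N ^ C0) :
    (D.primeFactors.filter (fun l => N < l)).card ≤ C0 := by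
  have h1 : ∏ l ∈ D.primeFactors.filter (fun l => N < l), l ∣ D :=
    (Finset.prod_dvd_prod_of_subset _ _ (fun l => l) (Finset.filter_subset _ _)).trans
      (Nat.prod_primeFactors_dvd D)
  have h2 := Nat.le_of_dvd (by omega) h1
  have h3 : N ^ (D.primeFactors.filter (fun l => N < l)).card ≤
      ∏ l ∈ D.primeFactors.filter (fun l => N < l), l :=
    Finset.pow_card_le_prod _ _ _ fun l hl => (Finset.mem_filter.mp hl).2.le
  exact (Nat.pow_le_pow_iff_right (by omega)).mp (h3.trans (h2.trans hDN))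

theorem pratio_eq {l : ℕ} (hl : l.Prime) : (l:ℝ) / ((l:ℝ) - 1) = (1 - 1 / (l:ℝ))⁻¹ := by
  have h2 : (2:ℝ) ≤ l := by exact_mod_cast hl.two_le
  have a : (l:ℝ) ≠ 0 := by linarith
  have b : (l:ℝ) - 1 ≠ 0 := by linarith
  have c : 1 - 1 / (l:ℝ) = (l - 1) / l := by field_simp
  rw [c, inv_div]

theorem one_le_pratio {l : ℕ} (hl : l.Prime) : 1 ≤ (l:ℝ) / ((l:ℝ) - 1) := by
  have h2 : (2:ℝ) ≤ l := by exact_mod_cast hl.two_le
  rw [le_div_iff₀ (by linarith)]
  linarith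

/-- splitting of the product -/
theorem prod_split {N C0 D g y : ℕ} (hN : 2 ≤ N) (hD : 1 ≤ D) (hDN : D ≤ N ^ C0)
    (hg : ∀ p : ℕ, p.Prime → p ≤ y → p ∣ g) (F : Finset ℕ)
    (hF : ∀ p, p.Prime → y < p → p ≤ N → p ∣ D → p ∈ F) (hFp : ∀ p ∈ F, p.Prime) :
    ∏ l ∈ D.primeFactors.filter (fun l => ¬ l ∣ g), ((l:ℝ) / ((l:ℝ) - 1)) ≤
      (∏ p ∈ F, (1 - 1 / (p:ℝ))⁻¹) * (1 + 1 / (N:ℝ)) ^ C0 := by
  have hNR : (2:ℝ) ≤ N := by exact_mod_cast hN
  rw [← Finset.prod_filter_mul_prod_filter_not (D.primeFactors.filter (fun l => ¬ l ∣ g))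
    (fun l => l ≤ N)]
  have hpr : ∀ l ∈ D.primeFactors.filter (fun l => ¬ l ∣ g), l.Prime := fun l hl =>
    Nat.prime_of_mem_primeFactors (Finset.mem_filter.mp hl).1
  have hF1 : ∀ p ∈ F, 1 ≤ (1 - 1 / (p:ℝ))⁻¹ := fun p hp => by
    rw [← pratio_eq (hFp p hp)]; exact one_le_pratio (hFp p hp)
  refine mul_le_mul ?_ ?_ ?_ ?_
  · have h1 : ∏ l ∈ (D.primeFactors.filter (fun l => ¬ l ∣ g)).filter (fun l => l ≤ N),
        ((l:ℝ) / ((l:ℝ) - 1)) =
        ∏ l ∈ (D.primeFactors.filter (fun l => ¬ l ∣ g)).filter (fun l => l ≤ N),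
        (1 - 1 / (l:ℝ))⁻¹ :=
      Finset.prod_congr rfl fun l hl => pratio_eq (hpr l (Finset.mem_filter.mp hl).1)
    rw [h1]
    refine Finset.prod_le_prod_of_subset_of_one_le ?_ ?_ ?_
    · intro l hl
      rw [Finset.mem_filter, Finset.mem_filter, Nat.mem_primeFactors] at hl
      obtain ⟨⟨⟨h2, h3, _⟩, h4⟩, h5⟩ := hl
      refine hF l h2 ?_ h5 h3
      by_contra h6
      exact h4 (hg l h2 (by omega))
    · intro l hl
      have := pratio_eq (hpr l (Finset.mem_filter.mp hl).1)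
      rw [← this]
      linarith [one_le_pratio (hpr l (Finset.mem_filter.mp hl).1)]
    · intro l hl _
      exact hF1 l hl
  · have h1 : ∏ l ∈ (D.primeFactors.filter (fun l => ¬ l ∣ g)).filter (fun l => ¬ l ≤ N),
        ((l:ℝ) / ((l:ℝ) - 1)) ≤
        ∏ _l ∈ (D.primeFactors.filter (fun l => ¬ l ∣ g)).filter (fun l => ¬ l ≤ N),
        (1 + 1 / (N:ℝ)) := by
      refine Finset.prod_le_prod (fun l hl => ?_) (fun l hl => ?_)
      · linarith [one_le_pratio (hpr l (Finset.mem_filter.mp hl).1)]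
      · have h2 : N < l := by have := (Finset.mem_filter.mp hl).2; omega
        have h3 : (N:ℝ) ≤ (l:ℝ) - 1 := by
          have : (N:ℝ) + 1 ≤ l := by exact_mod_cast h2
          linarith
        have h4 : (0:ℝ) < (l:ℝ) - 1 := by linarith
        have h5 : (l:ℝ) / ((l:ℝ) - 1) = 1 + 1 / ((l:ℝ) - 1) := by
          field_simp; ring
        rw [h5]
        have := one_div_le_one_div_of_le (by linarith : (0:ℝ) < N) h3
        linarith
    refine h1.trans ?_
    rw [Finset.prod_const]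
    refine pow_le_pow_right₀ (by have : (0:ℝ) ≤ 1 / N := by positivity
                                 linarith) ?_
    refine le_trans (Finset.card_le_card ?_) (card_big hN hD hDN)
    intro l hl
    rw [Finset.mem_filter, Finset.mem_filter] at hl
    rw [Finset.mem_filter]
    exact ⟨hl.1.1, by omega⟩
  · exact Finset.prod_nonneg fun l hl => by
      linarith [one_le_pratio (hpr l (Finset.mem_filter.mp hl).1)]
  · exact Finset.prod_nonneg fun p hp => by linarith [hF1 p hp]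

end CorrAux

open CorrAux

open Classical in
/-- U10 -/
theorem corr_u {Δ n0 z0 d C0 : ℕ} {R : ℕ → ℕ} (hR : Dir Δ n0 z0 d C0 R) : CorrU n0 R := by
  obtain ⟨C, hC, hlow⟩ := Pool.Agent.HLT.th_lower
  refine ⟨8 * d + 3, by positivity, max (max z0 d) 2, fun y hy => ?_⟩
  have hyz : z0 ≤ y := le_trans (le_trans (le_max_left _ _) (le_max_left _ _)) hy
  have hyd : d ≤ y := le_trans (le_trans (le_max_right _ _) (le_max_left _ _)) hy
  have hy2 : 2 ≤ y := le_trans (le_max_right _ _) hy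
  have hyR : (2:ℝ) ≤ y := by exact_mod_cast hy2
  have hev1 : ∀ᶠ N : ℕ in atTop, (1 + 1 / (N:ℝ)) ^ C0 ≤ 1 + 1 / (y:ℝ) := by
    have h1 : Tendsto (fun N : ℕ => (1 + 1 / (N:ℝ)) ^ C0) atTop (nhds ((1 + 0) ^ C0)) :=
      (tendsto_const_nhds.add tendsto_one_div_atTop_nhds_zero_nat).pow C0
    rw [add_zero, one_pow] at h1
    have h2 : (1:ℝ) < 1 + 1 / (y:ℝ) := by
      have : (0:ℝ) < 1 / (y:ℝ) := by positivity
      linarith
    exact h1.eventually_le_const h2
  have hev2 : ∀ᶠ N : ℕ in atTop, (C * Real.log N) ^ d ≤ 1 / (y:ℝ) * N := by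
    have h1 := ((Real.isLittleO_pow_log_id_atTop (n := d)).comp_tendsto
      (tendsto_natCast_atTop_atTop (R := ℝ))).bound
      (show (0:ℝ) < 1 / (C ^ d * y) by positivity)
    filter_upwards [h1] with r h2
    simp only [Function.comp, id, Real.norm_eq_abs, Nat.abs_cast] at h2
    have h4 := (le_abs_self _).trans h2
    rw [mul_pow]
    calc C ^ d * Real.log r ^ d ≤ C ^ d * (1 / (C ^ d * y) * r) :=
          mul_le_mul_of_nonneg_left h4 (by positivity)
      _ = 1 / (y:ℝ) * r := by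
          field_simp
  filter_upwards [hev1, hev2, eventually_ge_atTop 2] with N h1 h2 hN2 S hS hSn g hg
  have hNR : (2:ℝ) ≤ N := by exact_mod_cast hN2
  have hSr : S ⊆ range (N + 1) := fun n hn => by
    have := Finset.mem_Icc.mp (hS hn)
    exact Finset.mem_range.mpr (by omega)
  have hScard : (S.card : ℝ) ≤ N := by
    have := Finset.card_le_card hS
    rw [Nat.card_Icc] at this
    exact_mod_cast (by omega : S.card ≤ N)
  set P := Py N \ Py y with hP
  have hinner : ∀ m ∈ S, ∑ n ∈ S, (if m = n then (0 : ℝ) else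
      ∏ l ∈ (dd (R m) (R n)).primeFactors.filter (fun l => ¬ l ∣ g), ((l:ℝ) / ((l:ℝ) - 1))) ≤
      (1 + 1 / (y:ℝ)) * (S.card + (4 * d + 1) / y * N) := by
    intro m hm
    set f : ℕ → ℤ := fun n => if n0 ≤ n then (R n : ℤ) - R m else 1 with hf
    have hstep : ∀ n ∈ S, (if m = n then (0 : ℝ) else
        ∏ l ∈ (dd (R m) (R n)).primeFactors.filter (fun l => ¬ l ∣ g), ((l:ℝ) / ((l:ℝ) - 1))) ≤
        (1 + 1 / (y:ℝ)) * ∏ p ∈ P.filter (fun p : ℕ => (p:ℤ) ∣ f n), (1 - 1 / (p:ℝ))⁻¹ := by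
      intro n hn
      have hPp : ∀ p ∈ P.filter (fun p : ℕ => (p:ℤ) ∣ f n), p.Prime := fun p hp =>
        (mem_diff.mp (Finset.mem_filter.mp hp).1).1
      have hnn : 0 ≤ ∏ p ∈ P.filter (fun p : ℕ => (p:ℤ) ∣ f n), (1 - 1 / (p:ℝ))⁻¹ :=
        Finset.prod_nonneg fun p hp => by
          rw [← pratio_eq (hPp p hp)]; linarith [one_le_pratio (hPp p hp)]
      split_ifs with hmn
      · positivity
      have hRne : R m ≠ R n := fun h => hmn (hR.inj (hSn m hm) (hSn n hn) h)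
      have hle : ∀ k ∈ S, R k ≤ N ^ C0 := fun k hk => (hR.le k (hSn k hk)).trans
        (Nat.pow_le_pow_left (Finset.mem_Icc.mp (hS hk)).2 C0)
      have h3 := prod_split hN2 (dd_pos hRne) (dd_le (hle m hm) (hle n hn)) hg
        (P.filter (fun p : ℕ => (p:ℤ) ∣ f n)) (fun p hp hyp hpN hpd => by
          rw [Finset.mem_filter]
          refine ⟨mem_diff.mpr ⟨hp, hyp, hpN⟩, ?_⟩
          rw [hf]
          simp only [if_pos (hSn n hn)]
          exact Nat.modEq_iff_dvd.mp (dvd_dd.mp hpd)) hPp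
      refine h3.trans ?_
      rw [mul_comm]
      exact mul_le_mul_of_nonneg_right h1 hnn
    refine (Finset.sum_le_sum hstep).trans ?_
    rw [← Finset.mul_sum]
    refine mul_le_mul_of_nonneg_left ?_ (by positivity)
    have h3 := core P (fun p hp => (mem_diff.mp hp).1) S (N + 1) hSr f d (fun T hT hTn => by
      have h4 := count_le hR (R m) T (fun p hp => ⟨(mem_diff.mp (hT hp)).1,
        lt_of_le_of_lt hyz (mem_diff.mp (hT hp)).2.1⟩) (N + 1)
      push_cast at h4 ⊢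
      refine le_trans ?_ h4
      have h5 : (range (N + 1)).filter (fun i => ∀ p ∈ T, (p:ℤ) ∣ f i) ⊆
          (range (N + 1)).filter (fun i => n0 ≤ i ∧ ∀ p ∈ T, R i ≡ R m [MOD p]) := by
        intro i hi
        rw [Finset.mem_filter] at hi ⊢
        obtain ⟨p0, hp0⟩ := hTn
        have h6 : n0 ≤ i := by
          by_contra h7
          have h8 := hi.2 p0 hp0
          rw [hf] at h8
          simp only [if_neg h7] at h8
          have h9 : p0.Prime := (mem_diff.mp (hT hp0)).1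
          have h10 : p0 ∣ 1 := by exact_mod_cast h8
          exact h9.one_lt.ne' (Nat.dvd_one.mp h10)
        refine ⟨hi.1, h6, fun p hp => ?_⟩
        have h8 := hi.2 p hp
        rw [hf] at h8
        simp only [if_pos h6] at h8
        exact (Nat.modEq_iff_dvd.mpr h8).symm
      exact_mod_cast Finset.card_le_card h5)
    refine h3.trans ?_
    have h4 := prod_small y N d hyd (by omega)
    have h5 : (((N + 1 : ℕ) : ℝ)) * (∏ p ∈ Py N \ Py y, (1 + (d:ℝ) / ((p:ℝ) * ((p:ℝ) - 1))) - 1) ≤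
        4 * d / y * N := by
      refine (mul_le_mul_of_nonneg_left h4 (Nat.cast_nonneg _)).trans ?_
      push_cast
      have h6 : (N:ℝ) + 1 ≤ 2 * N := by linarith
      calc ((N:ℝ) + 1) * (2 * d / y) ≤ 2 * N * (2 * d / y) :=
            mul_le_mul_of_nonneg_right h6 (by positivity)
        _ = 4 * d / y * N := by ring
    have h6 : ∏ p ∈ Py N \ Py y, (1 + (d:ℝ) / ((p:ℝ) - 1)) ≤ 1 / (y:ℝ) * N := by
      refine (prod_big y N d).trans (le_trans ?_ h2)
      refine pow_le_pow_left₀ (inv_nonneg.mpr (Pool.Agent.PnT.Prs.tw_pos y N).le) ?_ d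
      rw [Pool.Agent.PnT.Prs.tw_eq_th]
      exact hlow y N hN2
    have h7 : (4 * (d:ℝ) + 1) / y * N = 4 * d / y * N + 1 / y * N := by ring
    rw [h7]
    linarith
  calc _ ≤ ∑ m ∈ S, (1 + 1 / (y:ℝ)) * (S.card + (4 * d + 1) / y * N) := Finset.sum_le_sum hinner
    _ = S.card * ((1 + 1 / (y:ℝ)) * (S.card + (4 * d + 1) / y * N)) := by
      rw [Finset.sum_const, nsmul_eq_mul]
    _ ≤ (S.card : ℝ) ^ 2 + (8 * d + 3) / y * (N:ℝ) ^ 2 := by
      have hs0 : (0:ℝ) ≤ S.card := Nat.cast_nonneg _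
      have hd0 : (0:ℝ) ≤ d := Nat.cast_nonneg _
      have hyi : (0:ℝ) < 1 / (y:ℝ) := by positivity
      have hyi2 : 1 / (y:ℝ) ≤ 1 := by rw [div_le_one (by linarith)]; linarith
      set s : ℝ := (S.card : ℝ) with hs
      set u : ℝ := 1 / (y:ℝ) with hu
      have e1 : (4 * (d:ℝ) + 1) / y * N = (4 * d + 1) * u * N := by rw [hu]; ring
      have e2 : (8 * (d:ℝ) + 3) / y * (N:ℝ) ^ 2 = (8 * d + 3) * u * (N:ℝ) ^ 2 := by rw [hu]; ring
      rw [e1, e2]
      have e3 : s * ((1 + u) * (s + (4 * d + 1) * u * N)) =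
          s ^ 2 + u * s ^ 2 + (1 + u) * ((4 * d + 1) * u * (s * N)) := by ring
      rw [e3]
      have h8 : s ^ 2 ≤ (N:ℝ) ^ 2 := pow_le_pow_left₀ hs0 hScard 2
      have h9 : s * N ≤ (N:ℝ) ^ 2 := by
        rw [sq]; exact mul_le_mul_of_nonneg_right hScard (by linarith)
      have h10 : u * s ^ 2 ≤ u * (N:ℝ) ^ 2 := mul_le_mul_of_nonneg_left h8 hyi.le
      have h11 : (1 + u) * ((4 * d + 1) * u * (s * N)) ≤ 2 * ((4 * d + 1) * u * (N:ℝ) ^ 2) :=
        mul_le_mul (by linarith) (mul_le_mul_of_nonneg_left h9 (by positivity))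
          (by positivity) (by norm_num)
      linarith

end Pool.Agent.PnU
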