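import Pool.Agent.PnU.Defs
import Pool.Agent.PnMaynard2.Uniform

/-!
# Integer-valued polynomials of degree `≤ d` have the periodicity property with `D` any multiple
of `d!`
-/

open Finset Filter Polynomial

namespace Pool.Agent.PnU

open Pool.Agent.PnPoly Pool.Agent.PnMaynard Pool.Agent.PnMaynard2
open Pool.Agent.PnLG (qv IntVal)

lemma qv_eq {Q : Polynomial ℚ} {Z : ℤ → ℤ} (hZ : ∀ m : ℤ, Q.eval (m : ℚ) = (Z m : ℚ)) (n : ℕ) :
    qv Q n = Z n := by
  unfold qv
  have h := hZ (n : ℤ)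
  rw [Int.cast_natCast] at h
  rw [h, Int.floor_intCast]

/-- periodicity, uniformly in the polynomial -/
theorem per_poly {Q : Polynomial ℚ} (hQ : IntVal Q) {d D : ℕ} (hd : Q.natDegree ≤ d) (hD : 1 ≤ D)
    (hdD : d.factorial ∣ D) : Per D (qv Q) := by
  choose Z hZ using hQ
  obtain ⟨c, hc, -⟩ := exists_newton Q Z hZ hd
  have hmul : ∀ T n m : ℕ, n ≡ m [MOD T] →
      (d.factorial : ℤ) * Z n ≡ (d.factorial : ℤ) * Z m [ZMOD T] := by
    intro T n m hmod
    rw [hc, hc, mul_sum, mul_sum]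
    have h1 : ∀ k ∈ range (d + 1), (d.factorial : ℤ) * ((n.choose k : ℤ) * c k) ≡
        (d.factorial : ℤ) * ((m.choose k : ℤ) * c k) [ZMOD T] := by
      intro k hk
      rw [mem_range] at hk
      have h2 := choose_modEq (d := d) (j := k) (by omega) hmod
      rw [← Int.natCast_modEq_iff] at h2
      push_cast at h2
      have h3 := h2.mul_right (c k)
      rwa [mul_assoc, mul_assoc] at h3
    classical
    have h2 : ∀ s : Finset ℕ, s ⊆ range (d + 1) →
        ∑ k ∈ s, (d.factorial : ℤ) * ((n.choose k : ℤ) * c k) ≡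
          ∑ k ∈ s, (d.factorial : ℤ) * ((m.choose k : ℤ) * c k) [ZMOD T] := by
      intro s
      induction s using Finset.induction_on with
      | empty => intro _; rfl
      | insert k s hk ih =>
        intro hs
        rw [sum_insert hk, sum_insert hk]
        exact (h1 k (hs (mem_insert_self _ _))).add (ih ((subset_insert _ _).trans hs))
    exact h2 _ (Subset.refl _)
  intro p hp m m' hmod
  rw [qv_eq hZ, qv_eq hZ]
  have h1 := hmul _ _ _ hmod
  have h2 : ((p ^ (D.factorization p + 1) : ℕ) : ℤ) ∣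
      (d.factorial : ℤ) * Z m - (d.factorial : ℤ) * Z m' := (Int.modEq_iff_dvd.mp h1.symm)
  rw [← mul_sub] at h2
  obtain ⟨e, he⟩ := hdD
  have h3 : ((p ^ (D.factorization p + 1) : ℕ) : ℤ) ∣ (D : ℤ) * (Z m - Z m') := by
    have h4 : (D : ℤ) * (Z m - Z m') = (e : ℤ) * ((d.factorial : ℤ) * (Z m - Z m')) := by
      rw [he]; push_cast; ring
    rw [h4]
    exact Dvd.dvd.mul_left h2 _
  by_contra hcon
  have h4 : ¬ (p ^ (D.factorization p + 1)) ∣ D := Nat.pow_succ_factorization_not_dvd (by omega) hp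
  have h5 : IsCoprime ((p : ℤ)) (Z m - Z m') :=
    (Nat.prime_iff_prime_int.mp hp).coprime_iff_not_dvd.mpr hcon
  have h6 : IsCoprime (((p ^ (D.factorization p + 1) : ℕ) : ℤ)) (Z m - Z m') := by
    push_cast
    exact h5.pow_left
  have h7 : ((p ^ (D.factorization p + 1) : ℕ) : ℤ) ∣ (D : ℤ) := h6.dvd_of_dvd_mul_right h3
  exact h4 (by exact_mod_cast h7)

end Pool.Agent.PnU
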