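import Pool.Agent.PnU.Defs2
import Pool.Agent.PnU.PerPoly

/-!
# U12: the theorem for polynomials from `MainU`
-/

open Finset Filter Topology Polynomial

namespace Pool.Agent.PnU

open Pool.Agent.PnPoly Pool.Agent.PnMaynard Pool.Agent.PnMaynard2
open Pool.Agent.PnLG (qv IntVal)

theorem all_pairs (hMain : ∀ (R : Polynomial ℚ) (D : ℕ), IntVal R → 1 ≤ R.natDegree → 1 ≤ D →
      Per D (qv R) → MainU R D)
    (hCorr : ∀ (Δ n0 z0 d C0 : ℕ) (R : ℕ → ℕ), Dir Δ n0 z0 d C0 R → CorrU n0 R)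
    (d n1 : ℕ) (R : Polynomial ℚ)
    (hR : ∀ m : ℤ, ∃ k : ℤ, R.eval (m : ℚ) = (k : ℚ)) (hlcR : 0 < R.leadingCoeff)
    (hdeg : 1 ≤ R.natDegree) (ε : ℝ) (hε : 0 < ε) :
    ∃ c K0 : ℝ, 0 < c ∧ 0 < K0 ∧ ∀ A D : ℝ, ∃ H0 : ℕ, ∀ H : ℕ, H0 ≤ H → ∀ Q : Polynomial ℚ,
      (∀ m : ℤ, ∃ k : ℤ, Q.eval (m : ℚ) = (k : ℚ)) → Q.natDegree ≤ d →
      (∀ n : ℕ, n1 ≤ n → 0 ≤ Q.eval (n : ℚ)) →
      (∀ k : ℕ, k ≤ d → |((Q.eval (k : ℚ) : ℚ) : ℝ)| ≤ H * Real.log H ^ D) →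
      ∀ N : ℕ, K0 * Real.log H ≤ N → (N : ℝ) ≤ Real.log H ^ A →
      (1 - ε) * (H:ℝ) ^ 2 ≤ (({v : ℕ × ℕ | (1 ≤ v.1 ∧ v.1 ≤ H) ∧ (1 ≤ v.2 ∧ v.2 ≤ H) ∧
        Admissible (Q + (Polynomial.C (v.1 : ℚ) * R + Polynomial.C (v.2 : ℚ))) ∧
        ManyPrimes (Q + (Polynomial.C (v.1 : ℚ) * R + Polynomial.C (v.2 : ℚ)))
          N ⌈c * (N / Real.log H)⌉₊}.ncard : ℕ) : ℝ) := by
  classical
  have hRI : IntVal R := hR
  choose Y hY using hR
  have hYn : ∀ n : ℕ, R.eval (n : ℚ) = ((Y (n : ℤ) : ℤ) : ℚ) := by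
    intro n
    have := hY (n : ℤ)
    simpa using this
  have hqY : ∀ n : ℕ, qv R n = Y n := fun n => qv_eq hY n
  obtain ⟨ΔR, n3, z0, e, C0, hΔR, hdir⟩ := exists_dir R Y hY hlcR hdeg
  set n0 := max n1 n3 with hn0
  have hdir' : Dir (1 * ΔR) n0 z0 e C0 (fun n => (Y n).toNat) := hdir.mono' (le_max_right _ _)
  have hdir2 : Dir (1 * ΔR) n0 z0 e C0 (fun n => (qv R n).toNat) := by
    have h : (fun n => (qv R n).toNat) = (fun n : ℕ => (Y n).toNat) := by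
      funext n; rw [hqY]
    rw [h]; exact hdir'
  have hYpos : ∀ n : ℕ, n0 ≤ n → 0 ≤ Y n := by
    intro n hn
    have := hdir'.pos n hn
    omega
  set DD := d.factorial * R.natDegree.factorial with hDD
  have hDD1 : 1 ≤ DD := Nat.mul_pos d.factorial_pos (Nat.factorial_pos _)
  have hPerR : Per DD (qv R) := per_poly hRI le_rfl hDD1 (Dvd.intro_left _ rfl)
  obtain ⟨c, K0, hc, hK0, hA⟩ := hMain R DD hRI hdeg hDD1 hPerR n0 C0 hdir2.mono hdir2.pos hdir2.le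
    (hCorr _ _ _ _ _ _ hdir2) ε hε
  refine ⟨c, K0, hc, hK0, fun A D => ?_⟩
  obtain ⟨A2, hA2⟩ := exists_nat_ge A
  rw [← eventually_atTop]
  filter_upwards [hA A (⌈D⌉₊ + A2 * d + 1), tendsto_log_nat.eventually_ge_atTop
    (((d:ℝ) + 1) * 2 ^ d + 1)] with H hH hLbig Q hQ hQd hQpos hQB N hN1 hN2
  have hQI : IntVal Q := hQ
  choose Z hZ using hQ
  have hZn : ∀ n : ℕ, Q.eval (n : ℚ) = ((Z (n : ℤ) : ℤ) : ℚ) := by
    intro n
    have := hZ (n : ℤ)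
    simpa using this
  have hqZ : ∀ n : ℕ, qv Q n = Z n := fun n => qv_eq hZ n
  have hZpos : ∀ n : ℕ, n0 ≤ n → 0 ≤ Z n := by
    intro n hn
    have h1 := hQpos n ((le_max_left _ _).trans hn)
    rw [hZn] at h1
    exact_mod_cast h1
  set L := Real.log H with hL
  have hd0 : (0:ℝ) < ((d:ℝ) + 1) * 2 ^ d := by positivity
  have hL1 : 1 ≤ L := by linarith
  have hL0 : 0 < L := by linarith
  have hZB : ∀ k : ℕ, k ≤ d → |((Z k : ℤ) : ℝ)| ≤ H * L ^ D := by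
    intro k hk
    have h1 := hQB k hk
    rw [hZn] at h1
    simpa using h1
  have hPerQ : Per DD (qv Q) := per_poly hQI hQd hDD1 (Dvd.intro _ rfl)
  have hmain := hH (qv Q) hPerQ (fun n hn => by rw [hqZ]; exact hZpos n hn) (by
    intro n hn
    have hn' : (n : ℝ) ≤ L ^ A2 := by
      refine hn.trans ?_
      rw [← Real.rpow_natCast]
      exact Real.rpow_le_rpow_of_exponent_le hL1 hA2
    have h1 := growth_uniform hZ hQd hZB (y := L ^ A2) (one_le_pow₀ hL1) n hn'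
    rw [hqZ]
    refine (le_abs_self _).trans (h1.trans ?_)
    have h3 : L ^ D ≤ L ^ ⌈D⌉₊ := by
      rw [← Real.rpow_natCast]
      exact Real.rpow_le_rpow_of_exponent_le hL1 (Nat.le_ceil D)
    calc ((d:ℝ) + 1) * 2 ^ d * (H * L ^ D) * (L ^ A2) ^ d
        ≤ L * (H * L ^ ⌈D⌉₊) * (L ^ A2) ^ d := by
          have h4 : ((d:ℝ) + 1) * 2 ^ d ≤ L := by linarith
          gcongr
      _ = H * L ^ (⌈D⌉₊ + A2 * d + 1) := by
          rw [pow_add, pow_add, ← pow_mul, pow_one]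
          ring) N hN1 hN2
  set bad := ((Ioc 0 H ×ˢ Ioc 0 H).filter (fun v : ℕ × ℕ => (((Icc 1 N).filter (fun n => n0 ≤ n ∧
    (pr n + 2 * ((qv Q n).toNat + v.1 * (qv R n).toNat + v.2)).Prime)).card : ℝ) <
      c * (N / L))) with hbad
  set good := (Ioc 0 H ×ˢ Ioc 0 H) \ bad with hgood
  have hcard : (good.card : ℝ) ≥ (1 - ε) * (H:ℝ) ^ 2 := by
    have h1 : good.card + bad.card = (Ioc 0 H ×ˢ Ioc 0 H).card :=
      card_sdiff_add_card_eq_card (filter_subset _ _)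
    have h2 : ((Ioc 0 H ×ˢ Ioc 0 H).card : ℝ) = (H:ℝ) ^ 2 := by
      rw [card_product, Nat.card_Ioc]; simp only [Nat.sub_zero]; push_cast; ring
    have h3 : (good.card : ℝ) + bad.card = (H:ℝ) ^ 2 := by rw [← h2]; exact_mod_cast h1
    linarith
  have hlcQ : 0 ≤ Q.leadingCoeff := by
    by_contra hneg
    push Not at hneg
    by_cases hdQ : 0 < (-Q).degree
    · have h1 := Polynomial.tendsto_atTop_of_leadingCoeff_nonneg (-Q) hdQ
        (by rw [leadingCoeff_neg]; linarith)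
      have h2 : Tendsto (fun n : ℕ => (-Q).eval (n : ℚ)) atTop atTop :=
        h1.comp tendsto_natCast_atTop_atTop
      obtain ⟨n, hn1, hn2⟩ := ((h2.eventually_gt_atTop 0).and (eventually_ge_atTop n1)).exists
      have h3 := hQpos n hn2
      rw [eval_neg] at hn1
      linarith
    · have h1 : -Q = Polynomial.C ((-Q).coeff 0) :=
        Polynomial.eq_C_of_degree_le_zero (not_lt.mp hdQ)
      have h2 : Q = Polynomial.C (Q.coeff 0) := by
        have h3 := congrArg Neg.neg h1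
        rw [neg_neg, coeff_neg, C_neg, neg_neg] at h3
        exact h3
      have h3 := hQpos n1 le_rfl
      rw [h2, eval_C] at h3
      rw [h2, leadingCoeff_C] at hneg
      linarith
  refine hcard.trans ?_
  rw [← Set.ncard_coe_finset]
  have hle := Set.ncard_le_ncard (s := ((good : Finset _) : Set (ℕ × ℕ)))
    (t := {v : ℕ × ℕ | (1 ≤ v.1 ∧ v.1 ≤ H) ∧ (1 ≤ v.2 ∧ v.2 ≤ H) ∧
        Admissible (Q + (Polynomial.C (v.1 : ℚ) * R + Polynomial.C (v.2 : ℚ))) ∧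
        ManyPrimes (Q + (Polynomial.C (v.1 : ℚ) * R + Polynomial.C (v.2 : ℚ)))
          N ⌈c * (N / L)⌉₊}) ?_ ?_
  · exact_mod_cast hle
  · intro v hv
    rw [mem_coe, hgood, Finset.mem_sdiff, mem_product, mem_Ioc, mem_Ioc] at hv
    obtain ⟨⟨ha, hb⟩, hnb⟩ := hv
    refine ⟨⟨ha.1, ha.2⟩, ⟨hb.1, hb.2⟩, dir_admissible (fun m => ⟨Z m, hZ m⟩)
      (fun m => ⟨Y m, hY m⟩) hlcQ hlcR hdeg ha.1, ?_⟩
    have hnb' : c * (N / L) ≤ (((Icc 1 N).filter (fun n => n0 ≤ n ∧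
        (pr n + 2 * ((qv Q n).toNat + v.1 * (qv R n).toNat + v.2)).Prime)).card : ℝ) := by
      rw [hbad, mem_filter, mem_product, mem_Ioc, mem_Ioc] at hnb
      push Not at hnb
      exact hnb ⟨ha, hb⟩
    refine manyPrimes_of' (Nat.cast_nonneg N) (Nat.ceil_le.2 hnb') ?_
    intro n hn
    rw [mem_filter, mem_Icc] at hn
    refine ⟨hn.1.1, by rw [Nat.floor_natCast]; exact hn.1.2, _, hn.2.2, ?_⟩
    have h1 : (((qv Q n).toNat : ℕ) : ℚ) = Q.eval (n : ℚ) := by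
      rw [hZn n, hqZ]
      have : (((Z n).toNat : ℕ) : ℤ) = Z n := Int.toNat_of_nonneg (hZpos n hn.2.1)
      exact_mod_cast congrArg (fun z : ℤ => (z : ℚ)) this
    have h2 : (((qv R n).toNat : ℕ) : ℚ) = R.eval (n : ℚ) := by
      rw [hYn n, hqY]
      have : (((Y n).toNat : ℕ) : ℤ) = Y n := Int.toNat_of_nonneg (hYpos n hn.2.1)
      exact_mod_cast congrArg (fun z : ℤ => (z : ℚ)) this
    push_cast
    rw [h1, h2]
    simp only [eval_add, eval_mul, eval_C]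
    unfold pr
    ring
  · refine Set.Finite.subset (Finset.finite_toSet (Icc 1 H ×ˢ Icc 1 H)) fun v hv => ?_
    rw [mem_coe, mem_product, mem_Icc, mem_Icc]
    exact ⟨hv.1, hv.2.1⟩

end Pool.Agent.PnU
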