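import Pool.Agent.PnU.Defs2
import Pool.Agent.PnMaynard2.Seq
import Pool.Agent.PnT.Base
import Pool.Agent.PnPoly.NC.Param

/-!
# U11: almost all pairs, uniformly in `q`
-/

open Finset Filter Topology

namespace Pool.Agent.PnU

open Pool.Agent.PnPoly Pool.Agent.PnMaynard Pool.Agent.PnMaynard2
open Pool.Agent.PnLG (qv Ly Py)
open Pool.Agent.PnT (tw)
open Pool.Agent.PnPoly.NC (np)

namespace UMain

lemma Ly_eq (y : ℕ) (m : ℤ) [Decidable (∀ p ∈ Py y, ¬ (p : ℤ) ∣ m)] :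
    Ly y m = if ∀ p ∈ Py y, ¬ (p : ℤ) ∣ m then (tw 0 y)⁻¹ else 0 := by
  classical
  unfold Ly
  by_cases h : ∀ p ∈ Py y, ¬ (p : ℤ) ∣ m
  · rw [if_pos h]
    have h0 : Py y \ Py 0 = Py y := by
      ext p
      rw [PnT.SZ.mem_diff, PnT.SZ.mem_Py]
      constructor
      · rintro ⟨a, -, c⟩; exact ⟨a, c⟩
      · rintro ⟨a, c⟩; exact ⟨a, a.pos, c⟩
    unfold tw
    rw [h0, ← prod_inv_distrib]
    exact prod_congr rfl fun p hp => by rw [if_neg (h p hp)]
  · rw [if_neg h]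
    push Not at h
    obtain ⟨p, hp, hpm⟩ := h
    exact prod_eq_zero hp (if_pos hpm)

lemma sum_Ly (f : ℕ → ℤ) (y N : ℕ) :
    ∑ n ∈ range N, Ly y (sf f n) = (copf f y N : ℝ) * (tw 0 y)⁻¹ := by
  classical
  unfold copf
  rw [sum_congr rfl fun n _ => Ly_eq y (sf f n), ← sum_filter, sum_const, nsmul_eq_mul]

/-- the indices of the class -/
noncomputable def SS (Q R : ℕ → ℕ) (n2 N g α β : ℕ) : Finset ℕ := (Icc 1 N).filter
  (fun n => n2 ≤ n ∧ (pr n + 2 * (Q n + β + α * R n)).Coprime g)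

lemma copf_le {q : ℕ → ℤ} {R : Polynomial ℚ} {n2 : ℕ} (hq : ∀ n, n2 ≤ n → 0 ≤ q n)
    (hR : ∀ n, n2 ≤ n → 1 ≤ (qv R n).toNat) (y N α β : ℕ) :
    (copf (fab q R α β) y N : ℝ) ≤
      ((SS (fun n => (q n).toNat) (fun n => (qv R n).toNat) n2 N (PnT.PP y) α β).card : ℝ) + n2 := by
  classical
  set S := SS (fun n => (q n).toNat) (fun n => (qv R n).toNat) n2 N (PnT.PP y) α β with hS
  have h1 : ((range N).filter (fun n => ∀ p ∈ Py y, ¬ (p : ℤ) ∣ sf (fab q R α β) n)).image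
      (fun n => n + 1) ⊆ S ∪ range n2 := by
    intro m hm
    rw [mem_image] at hm
    obtain ⟨n, hn, rfl⟩ := hm
    rw [mem_filter, mem_range] at hn
    rw [mem_union, mem_range]
    by_cases h : n + 1 < n2
    · exact Or.inr h
    left
    rw [hS]
    unfold SS
    rw [mem_filter, mem_Icc]
    refine ⟨⟨by omega, by omega⟩, by omega, ?_⟩
    have hc : ((pr (n + 1) + 2 * ((q (n + 1)).toNat + β + α * (qv R (n + 1)).toNat) : ℕ) : ℤ) =
        sf (fab q R α β) n := by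
      unfold sf fab np pr
      have e1 : (((q (n + 1)).toNat : ℕ) : ℤ) = q (n + 1) := Int.toNat_of_nonneg (hq _ (by omega))
      have e2 : (((qv R (n + 1)).toNat : ℕ) : ℤ) = qv R (n + 1) := by
        refine Int.toNat_of_nonneg ?_
        have := hR (n + 1) (by omega)
        omega
      rw [Nat.add_sub_cancel]
      push_cast
      rw [e1, e2]
      ring
    unfold PnT.PP
    refine Nat.Coprime.prod_right fun p hp => ?_
    have hpp : p.Prime := (PnT.SZ.mem_Py.mp hp).1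
    rw [Nat.coprime_comm, Nat.Prime.coprime_iff_not_dvd hpp]
    intro hd
    refine hn.2 p hp ?_
    rw [← hc]
    exact_mod_cast hd
  have h2 := card_le_card h1
  rw [card_image_of_injective _ (fun a b h => by simpa using h)] at h2
  have h3 : copf (fab q R α β) y N ≤ S.card + n2 := by
    unfold copf
    refine le_trans (le_of_eq ?_) (h2.trans ((card_union_le _ _).trans ?_))
    · rfl
    · rw [card_range]
  exact_mod_cast h3

/-- choice of the modulus -/
lemma exists_y1 {C c ε : ℝ} (hC : 0 < C) (hc : 0 < c) (hε : 0 < ε) (Y : ℕ) :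
    ∃ y1 : ℕ, Y ≤ y1 ∧ 2 ≤ y1 ∧ C / y1 ≤ ε * (c * tw 0 y1 / 2) ^ 2 := by
  obtain ⟨C2, hC2, hth⟩ := Pool.Agent.HLT.th_lower
  have e1 : Tendsto (fun H : ℕ => Real.log H ^ 2 / (H : ℝ)) atTop (𝓝 0) := log_sq_div_tendsto
  have hpos : 0 < ε * (c / (2 * C2)) ^ 2 / C := by
    have : 0 < C2 := by linarith
    positivity
  obtain ⟨y1, h1, h2, h3⟩ := ((e1.eventually_le_const hpos).and
    ((eventually_ge_atTop Y).and (eventually_ge_atTop 2))).exists
  refine ⟨y1, h2, h3, ?_⟩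
  have hy0 : (0:ℝ) < y1 := by exact_mod_cast (by omega : 0 < y1)
  have hl : 0 < Real.log y1 := Real.log_pos (by exact_mod_cast (by omega : 1 < y1))
  have htw : (C2 * Real.log y1)⁻¹ ≤ tw 0 y1 := by
    rw [PnT.SZ.tw_eq_th]
    have h4 := hth 0 y1 h3
    have h5 := Pool.Agent.HLT.th_pos 0 y1
    rw [inv_le_comm₀ (by positivity) h5]
    exact h4
  have hC20 : 0 < C2 := by linarith
  have h6 : (c * (C2 * Real.log y1)⁻¹ / 2) ^ 2 ≤ (c * tw 0 y1 / 2) ^ 2 := by
    gcongr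
  refine le_trans ?_ (mul_le_mul_of_nonneg_left h6 hε.le)
  rw [div_le_div_iff₀ hy0 hC] at h1
  have h7 : ε * (c * (C2 * Real.log y1)⁻¹ / 2) ^ 2 = ε * (c / (2 * C2)) ^ 2 / Real.log y1 ^ 2 := by
    field_simp
  rw [h7, div_le_div_iff₀ hy0 (by positivity)]
  linarith

/-- size of the `n`-th prime -/
lemma pr_sq : ∀ᶠ N : ℕ in atTop, ∀ n ≤ N, pr n ≤ N ^ 2 := by
  have e1 : Tendsto (fun x : ℝ => Real.log x / x) atTop (𝓝 0) := by
    have := Real.isLittleO_log_id_atTop.tendsto_div_nhds_zero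
    simpa using this
  have e2 := (e1.comp (tendsto_natCast_atTop_atTop (R := ℝ))).eventually_le_const
    (show (0:ℝ) < 1 / 9 by norm_num)
  filter_upwards [Pool.Agent.PnPoly.NC.np_le, e2, eventually_ge_atTop 1] with N h1 h2 h3
  intro n hn
  have hN : (0:ℝ) < N := by exact_mod_cast h3
  simp only [Function.comp_apply] at h2
  rw [div_le_iff₀ hN] at h2
  have h4 : (np N : ℝ) ≤ (N:ℝ) ^ 2 := by
    refine h1.trans ?_
    nlinarith
  have h5 : pr n ≤ np N := by
    unfold pr np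
    exact Nat.nth_monotone Nat.infinite_setOfPred_prime (by omega)
  have h6 : np N ≤ N ^ 2 := by exact_mod_cast h4
  exact h5.trans h6

end UMain

/-- **U11**: almost all pairs, uniformly in `q` -/
theorem main_u {R : Polynomial ℚ} {D : ℕ} (hCB : ClassBad) (hAM : AllModU R D) : MainU R D := by
  classical
  intro n2 C0 hmono hpos hle hcorr ε hε
  obtain ⟨y, c, hc, hy⟩ := hAM (ε / 8) (by positivity)
  obtain ⟨C, hC, y0, hy0⟩ := hcorr
  obtain ⟨y1, hyy1, hy12, hy1C⟩ := UMain.exists_y1 hC hc (show 0 < ε / 16 by positivity) (max y y0)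
  set g := PnT.PP y1 with hg
  have hg0 : 1 ≤ g := PnT.SZ.PP_pos y1
  have hgr : (1:ℝ) ≤ g := by exact_mod_cast hg0
  have hgp : ∀ p : ℕ, p.Prime → p ≤ y1 → p ∣ g := fun p hp hpy =>
    PnT.SZ.dvd_PP (PnT.SZ.mem_Py.mpr ⟨hp, hpy⟩)
  have hg2 : 2 ∣ g := hgp 2 Nat.prime_two hy12
  have htw : 0 < tw 0 y1 := PnT.SZ.tw_pos 0 y1
  set ρ : ℝ := c * tw 0 y1 / 2 with hρ
  have hρ0 : 0 < ρ := by positivity
  set K0 : ℝ := 128 * (g:ℝ) ^ 2 * (g + 1) / (ρ * ε) with hK0
  have hK0p : 0 < K0 := by positivity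
  refine ⟨ρ / 5, K0, by positivity, hK0p, fun A D0 => ?_⟩
  obtain ⟨N1, hN1⟩ := eventually_atTop.1 ((hy y1 ((le_max_left _ _).trans hyy1)).and
    ((hy0 y1 ((le_max_right _ _).trans hyy1)).and UMain.pr_sq))
  set sn := ⌈A⌉₊ with hsn
  set b := sn * C0 with hb
  set D1 := D0 + b + 2 * sn + 4 with hD1
  have e1 : ∀ᶠ H : ℕ in atTop, Real.log H ^ (2 * b + 2) / Real.sqrt H ≤ 1 :=
    (log_pow_div_tendsto (2 * b + 2)).eventually_le_const (by norm_num)
  have e2 : ∀ᶠ H : ℕ in atTop, Real.log (Real.log H) / Real.log H ≤ 1 / (D1 + 1) :=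
    log_log_div_tendsto.eventually_le_const (by positivity)
  filter_upwards [e1, e2, sw_uniform D1 (2 * b + 3),
    tendsto_log_nat.eventually_ge_atTop (9 + 4 * g + 32 * (g:ℝ) ^ 2 * (16 * g + 8) / ε),
    tendsto_log_nat.eventually_ge_atTop ((n2 / ρ + N1 + 1) / K0),
    eventually_ge_atTop 2, tendsto_natCast_atTop_atTop.eventually_ge_atTop (16 * (g:ℝ) / ε)]
    with H h1 h2 hsw hLbig hLN hH2 hHbig
  intro q hPer hq0 hQ N hNK hNA
  set L := Real.log H with hLdef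
  have hpos1 : 0 ≤ 32 * (g:ℝ) ^ 2 * (16 * g + 8) / ε := by positivity
  have hL9 : 9 + 4 * (g:ℝ) ≤ L := by linarith
  have hL1 : 1 ≤ L := by linarith
  have hL0 : 0 < L := by linarith
  have hH0 : (0:ℝ) < H := by exact_mod_cast (by omega : 0 < H)
  have hH1 : (1:ℝ) ≤ H := by exact_mod_cast (by omega : 1 ≤ H)
  have hsq1 : 1 ≤ Real.sqrt H := by
    rw [show (1:ℝ) = Real.sqrt 1 by simp]; exact Real.sqrt_le_sqrt hH1
  have hNn : (n2:ℝ) / ρ + N1 + 1 ≤ N := by
    rw [div_le_iff₀ hK0p] at hLN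
    linarith
  have hn2ρ : (0:ℝ) ≤ n2 / ρ := by positivity
  have hN1r : (0:ℝ) ≤ N1 := Nat.cast_nonneg N1
  have hNN1 : N1 ≤ N := by
    have : (N1:ℝ) ≤ N := by linarith
    exact_mod_cast this
  have hNpos : 1 ≤ N := by
    have : (1:ℝ) ≤ N := by linarith
    exact_mod_cast this
  have hNr0 : (0:ℝ) < N := by exact_mod_cast hNpos
  have hρN : (n2:ℝ) ≤ ρ * N := by
    have h3 : (n2:ℝ) / ρ ≤ N := by linarith
    rw [div_le_iff₀ hρ0] at h3
    linarith
  obtain ⟨hbad, hcor, hprsq⟩ := hN1 N hNN1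
  have hNsn : (N:ℝ) ≤ L ^ sn := by
    refine hNA.trans ?_
    rw [← Real.rpow_natCast]
    exact Real.rpow_le_rpow_of_exponent_le hL1 (Nat.le_ceil A)
  set Qn : ℕ → ℕ := fun n => (q n).toNat with hQn
  set Rn : ℕ → ℕ := fun n => (qv R n).toNat with hRn
  set N' := N ^ C0 with hN'
  have hN'b : (N':ℝ) ≤ L ^ b := by
    rw [hN', hb, pow_mul]
    push_cast
    exact pow_le_pow_left₀ (by positivity) hNsn C0
  have hHL : L ^ (2 * b + 2) ≤ H := by
    rw [div_le_one (by linarith)] at h1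
    refine h1.trans ?_
    have h3 : Real.sqrt H * Real.sqrt H = H := Real.mul_self_sqrt hH0.le
    have h6 := mul_le_mul_of_nonneg_right hsq1 (Real.sqrt_nonneg H)
    linarith only [h3, h6]
  set X := XB D1 H with hX
  have hXH : H ≤ X := le_XB hL1
  have hXle : (X:ℝ) ≤ H * L ^ D1 := XB_le D1 H
  have hX0 : (0:ℝ) < X := lt_of_lt_of_le hH0 (by exact_mod_cast hXH)
  have hlX : Real.log X ≤ 2 * L := by
    have h3 : Real.log X ≤ Real.log (H * L ^ D1) := Real.log_le_log hX0 hXle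
    rw [Real.log_mul hH0.ne' (by positivity), Real.log_pow] at h3
    have h6 : (D1:ℝ) * Real.log L ≤ L := by
      rw [div_le_div_iff₀ hL0 (by positivity)] at h2
      rcases le_total 0 (Real.log L) with h5 | h5
      · linarith only [h2, h5]
      · have : (D1:ℝ) * Real.log L ≤ 0 := mul_nonpos_of_nonneg_of_nonpos (Nat.cast_nonneg _) h5
        linarith
    linarith
  have hlX0 : 0 ≤ Real.log X := Real.log_natCast_nonneg X
  set K := H / g - 1 with hK
  have hgK : g * K ≤ H := (Nat.mul_le_mul_left g (Nat.sub_le _ _)).trans (Nat.mul_div_le H g)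
  have hgKr : (g:ℝ) * K ≤ H := by exact_mod_cast hgK
  have hKH : (K:ℝ) ≤ H := (le_mul_of_one_le_left (Nat.cast_nonneg K) hgr).trans hgKr
  set E := (H:ℝ) / L ^ (2 * b + 3) with hE
  have hE0 : 0 ≤ E := by positivity
  have hSW : SWH X (2 * g * N') E := by
    intro x hx r hr hrY a ha
    refine hsw x ?_ r hr ?_ a ha
    · exact le_trans (by exact_mod_cast hx) hXle
    · have h3 : (r:ℝ) ≤ 2 * g * N' := by exact_mod_cast hrY
      refine h3.trans ?_
      calc 2 * (g:ℝ) * N' ≤ 2 * g * L ^ b := by gcongr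
        _ ≤ L * L ^ b := by gcongr; linarith
        _ = L ^ (b + 1) := by ring
        _ ≤ L ^ D1 := pow_le_pow_right₀ hL1 (by omega)
  set Θ : ℝ := 2 / (ρ * K0) with hΘ
  have hΘ0 : 0 ≤ Θ := by positivity
  set P : ℕ → ℕ → Prop := fun a b => (((Icc 1 N).filter (fun n => n2 ≤ n ∧
    (pr n + 2 * (Qn n + a * Rn n + b)).Prime)).card : ℝ) < ρ / 5 * (N / L) with hP
  -- each class
  have hclass : ∀ α ∈ range g, ∀ β ∈ range g,
      ¬ (∑ n ∈ range N, Ly y1 (sf (fab q R α β) n) < c * N) →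
      (((Ioc 0 K ×ˢ Ioc 0 K).filter (fun t => P (α + g * t.2) (β + g * t.1))).card : ℝ) ≤
        4 * (K:ℝ) ^ 2 * (ε / 16) +
          4 * (2 * (g + 1) * Θ * (H:ℝ) ^ 2 + (16 * g + 8) * ((H:ℝ) ^ 2 / L)) := by
    intro α hα β hβ hgood
    rw [mem_range] at hα hβ
    set S := UMain.SS Qn Rn n2 N g α β with hS
    have hSc : ρ * N ≤ S.card := by
      push Not at hgood
      rw [UMain.sum_Ly] at hgood
      have h3 := UMain.copf_le (R := R) hq0 hpos y1 N α β
      have h4 : c * N * tw 0 y1 ≤ (copf (fab q R α β) y1 N : ℝ) := by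
        rwa [← div_eq_mul_inv, le_div_iff₀ htw] at hgood
      have h5 : c * N * tw 0 y1 = 2 * (ρ * N) := by rw [hρ]; ring
      have h6 : (copf (fab q R α β) y1 N : ℝ) ≤ (S.card : ℝ) + n2 := h3
      linarith
    have hSpos : (0:ℝ) < S.card := lt_of_lt_of_le (by positivity) hSc
    have hSne : S.Nonempty := by
      rw [← card_pos]
      exact_mod_cast hSpos
    have hSmem : ∀ n ∈ S, n2 ≤ n ∧ 1 ≤ n ∧ n ≤ N ∧ (pr n + 2 * (Qn n + β + α * Rn n)).Coprime g := by
      intro n hn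
      rw [hS] at hn
      unfold UMain.SS at hn
      rw [mem_filter, mem_Icc] at hn
      exact ⟨hn.2.1, hn.1.1, hn.1.2, hn.2.2⟩
    have hcorS : ∑ m ∈ S, ∑ n ∈ S, (if m = n then (0 : ℝ) else
        ∏ l ∈ (dd (Rn m) (Rn n)).primeFactors.filter (fun l => ¬ l ∣ g), ((l:ℝ) / ((l:ℝ) - 1))) ≤
        (1 + ε / 16) * (S.card : ℝ) ^ 2 := by
      have h3 := hcor S (fun n hn => mem_Icc.mpr ⟨(hSmem n hn).2.1, (hSmem n hn).2.2.1⟩)
        (fun n hn => (hSmem n hn).1) g hgp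
      refine h3.trans ?_
      have h4 : C / y1 * (N:ℝ) ^ 2 ≤ ε / 16 * (S.card : ℝ) ^ 2 := by
        calc C / y1 * (N:ℝ) ^ 2 ≤ ε / 16 * ρ ^ 2 * (N:ℝ) ^ 2 := by gcongr
          _ = ε / 16 * (ρ * N) ^ 2 := by ring
          _ ≤ _ := by gcongr
      linarith
    have hXX : ∀ n ∈ S, pr n + 2 * (Qn n + β + α * Rn n) + 2 * g * (K + K * Rn n) ≤ X := by
      intro n hnS
      obtain ⟨hnn2, hn1, hnN, -⟩ := hSmem n hnS
      rw [hX]
      unfold XB
      refine Nat.le_floor ?_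
      have hnNr : (n:ℝ) ≤ N := by exact_mod_cast hnN
      have hpr : (pr n:ℝ) ≤ L ^ (2 * sn) := by
        have h3 : (pr n : ℝ) ≤ (N:ℝ) ^ 2 := by exact_mod_cast hprsq n hnN
        refine h3.trans ?_
        rw [mul_comm 2 sn, pow_mul]
        exact pow_le_pow_left₀ hNr0.le hNsn 2
      have hRnn : (Rn n:ℝ) ≤ L ^ b := by
        have h3 : Rn n ≤ N' := (hle n hnn2).trans (Nat.pow_le_pow_left hnN C0)
        exact le_trans (by exact_mod_cast h3) hN'b
      have hQnn : (Qn n : ℝ) ≤ H * L ^ D0 := by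
        have h3 : ((Qn n : ℕ) : ℤ) = q n := Int.toNat_of_nonneg (hq0 n hnn2)
        have h4 : ((Qn n : ℕ) : ℝ) = (q n : ℝ) := by exact_mod_cast congrArg (fun z : ℤ => (z : ℝ)) h3
        rw [h4]
        exact hQ n (hnNr.trans hNA)
      have hαr : (α:ℝ) ≤ g := by exact_mod_cast hα.le
      have hβr : (β:ℝ) ≤ g := by exact_mod_cast hβ.le
      set m := L ^ (D0 + b + 2 * sn) with hm
      have hm1 : 1 ≤ m := one_le_pow₀ hL1
      have hm2 : L ^ (2 * sn) ≤ m := pow_le_pow_right₀ hL1 (by omega)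
      have hm3 : L ^ D0 ≤ m := pow_le_pow_right₀ hL1 (by omega)
      have hm4 : L ^ b ≤ m := pow_le_pow_right₀ hL1 (by omega)
      have hHm : m ≤ H * m := le_mul_of_one_le_left (by linarith) hH1
      push_cast
      calc (pr n:ℝ) + 2 * (Qn n + β + α * Rn n) + 2 * g * (K + K * Rn n) =
            pr n + 2 * Qn n + 2 * β + 2 * α * Rn n + 2 * (g * K) * (1 + Rn n) := by ring
        _ ≤ m + 2 * (H * m) + 2 * g * m + 2 * g * m + 2 * H * (m + m) := by
            have h4 : (1:ℝ) + Rn n ≤ m + m := by linarith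
            have h5 : (Rn n:ℝ) ≤ m := by linarith
            have h6 : (Qn n : ℝ) ≤ H * m := hQnn.trans (by gcongr)
            have h7 : (β:ℝ) ≤ g * m := hβr.trans (le_mul_of_one_le_right (Nat.cast_nonneg g) hm1)
            have h8 : (pr n:ℝ) ≤ m := by linarith
            have h9 : 2 * (α:ℝ) * Rn n ≤ 2 * g * m := by gcongr
            have h10 : 2 * ((g:ℝ) * K) * (1 + Rn n) ≤ 2 * H * (m + m) := by gcongr
            linarith only [h6, h7, h8, h9, h10]
        _ ≤ (7 + 4 * g) * (H * m) := by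
            have h4 := mul_le_mul_of_nonneg_left hHm (Nat.cast_nonneg (α := ℝ) g)
            linarith only [h4, hHm]
        _ ≤ L * (H * m) := by gcongr; linarith
        _ = H * L ^ (D0 + b + 2 * sn + 1) := by rw [hm]; ring
        _ ≤ H * L ^ D1 := by
            refine mul_le_mul_of_nonneg_left ?_ hH0.le
            exact pow_le_pow_right₀ hL1 (by omega)
    have hBd : ρ / 5 * (N / L) * Real.log X < S.card / 2 := by
      have h3 : ρ / 5 * (N / L) * Real.log X ≤ ρ / 5 * (N / L) * (2 * L) := by gcongr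
      have h4 : ρ / 5 * (N / L) * (2 * L) = 2 / 5 * (ρ * N) := by field_simp
      have h5 : 0 < ρ * N := by positivity
      linarith
    have h3 := hCB n2 C0 g N N' K X E Qn Rn α β S (ε / 16) (ρ / 5 * (N / L)) hmono hpos hle hg0 hg2
      hNpos le_rfl hE0 hSW hSne hSmem (by positivity) hcorS hXX hBd
    have h6 := err_le2 (g := g) (K := K) (b := b) (N' := (N':ℝ)) (E := E) hL1 hH0
      (show 0 ≤ Real.log X / S.card by positivity) hlX0 hlX (Nat.cast_nonneg _) hN'b hKH hHL hE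
    have h8 : (((Ioc 0 K ×ˢ Ioc 0 K).filter (fun t => P (α + g * t.2) (β + g * t.1))).card : ℝ) ≤
        (((Ioc 0 K ×ˢ Ioc 0 K).filter (fun t : ℕ × ℕ => (((Icc 1 N).filter (fun n => n2 ≤ n ∧
          (pr n + 2 * (Qn n + β + α * Rn n) + 2 * g * (t.1 + t.2 * Rn n)).Prime)).card : ℝ) <
          ρ / 5 * (N / L))).card : ℝ) := by
      have h7 : (Ioc 0 K ×ˢ Ioc 0 K).filter (fun t => P (α + g * t.2) (β + g * t.1)) ⊆
          (Ioc 0 K ×ˢ Ioc 0 K).filter (fun t : ℕ × ℕ => (((Icc 1 N).filter (fun n => n2 ≤ n ∧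
          (pr n + 2 * (Qn n + β + α * Rn n) + 2 * g * (t.1 + t.2 * Rn n)).Prime)).card : ℝ) <
          ρ / 5 * (N / L)) := by
        intro t ht
        rw [mem_filter] at ht ⊢
        refine ⟨ht.1, lt_of_le_of_lt ?_ ht.2⟩
        have : (Icc 1 N).filter (fun n => n2 ≤ n ∧
            (pr n + 2 * (Qn n + β + α * Rn n) + 2 * g * (t.1 + t.2 * Rn n)).Prime) ⊆
            (Icc 1 N).filter (fun n => n2 ≤ n ∧
              (pr n + 2 * (Qn n + (α + g * t.2) * Rn n + (β + g * t.1))).Prime) := by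
          intro n hn
          rw [mem_filter] at hn ⊢
          refine ⟨hn.1, hn.2.1, ?_⟩
          have h6 : pr n + 2 * (Qn n + (α + g * t.2) * Rn n + (β + g * t.1)) =
              pr n + 2 * (Qn n + β + α * Rn n) + 2 * g * (t.1 + t.2 * Rn n) := by
            ring
          rw [h6]
          exact hn.2.2
        exact_mod_cast card_le_card this
      exact_mod_cast card_le_card h7
    refine h8.trans (h3.trans ?_)
    have h9 : 2 * ((g:ℝ) + 1) * (Real.log X / S.card) * (H:ℝ) ^ 2 ≤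
        2 * (g + 1) * Θ * (H:ℝ) ^ 2 := by
      have h10 : Real.log X / S.card ≤ Θ := by
        rw [hΘ, div_le_div_iff₀ hSpos (by positivity)]
        calc Real.log X * (ρ * K0) ≤ (2 * L) * (ρ * K0) := by gcongr
          _ = 2 * (ρ * (K0 * L)) := by ring
          _ ≤ 2 * (ρ * N) := by gcongr
          _ ≤ 2 * S.card := by gcongr
      gcongr
    linarith
  have hcc := count_classes g H hg0 P
  have hcc' : (((Ioc 0 H ×ˢ Ioc 0 H).filter (fun v => P v.1 v.2)).card : ℝ) ≤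
      ∑ α ∈ range g, ∑ β ∈ range g, (((Ioc 0 K ×ˢ Ioc 0 K).filter
        (fun t => P (α + g * t.2) (β + g * t.1))).card : ℝ) + 4 * g * H := by
    exact_mod_cast hcc
  have hgoal : (((Ioc 0 H ×ˢ Ioc 0 H).filter (fun v => P v.1 v.2)).card : ℝ) ≤ ε * (H:ℝ) ^ 2 := by
    refine hcc'.trans ?_
    set Bad : Finset (ℕ × ℕ) := (range g ×ˢ range g).filter (fun t : ℕ × ℕ =>
      ∑ n ∈ range N, Ly y1 (sf (fab q R t.1 t.2) n) < c * N) with hBad
    have hBadc : (Bad.card : ℝ) ≤ ε / 8 * (g:ℝ) ^ 2 := hbad q hPer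
    set A0 : ℝ := 4 * (K:ℝ) ^ 2 * (ε / 16) +
          4 * (2 * (g + 1) * Θ * (H:ℝ) ^ 2 + (16 * g + 8) * ((H:ℝ) ^ 2 / L)) with hA0
    have hA00 : 0 ≤ A0 := by positivity
    have hsum : ∑ α ∈ range g, ∑ β ∈ range g, (((Ioc 0 K ×ˢ Ioc 0 K).filter
        (fun t => P (α + g * t.2) (β + g * t.1))).card : ℝ) ≤
        (g:ℝ) ^ 2 * A0 + Bad.card * (K:ℝ) ^ 2 := by
      have h3 : ∀ v ∈ range g ×ˢ range g, (((Ioc 0 K ×ˢ Ioc 0 K).filter
          (fun t => P (v.1 + g * t.2) (v.2 + g * t.1))).card : ℝ) ≤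
          A0 + (if ∑ n ∈ range N, Ly y1 (sf (fab q R v.1 v.2) n) < c * N then (K:ℝ) ^ 2 else 0) := by
        intro v hv
        rw [mem_product] at hv
        by_cases h : ∑ n ∈ range N, Ly y1 (sf (fab q R v.1 v.2) n) < c * N
        · rw [if_pos h]
          have h4 : ((Ioc 0 K ×ˢ Ioc 0 K).filter
              (fun t => P (v.1 + g * t.2) (v.2 + g * t.1))).card ≤ K ^ 2 := by
            refine (card_filter_le _ _).trans ?_
            rw [card_product, Nat.card_Ioc, Nat.sub_zero, sq]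
          have h5 : (((Ioc 0 K ×ˢ Ioc 0 K).filter
              (fun t => P (v.1 + g * t.2) (v.2 + g * t.1))).card : ℝ) ≤ (K:ℝ) ^ 2 := by
            exact_mod_cast h4
          linarith
        · rw [if_neg h, add_zero]
          exact hclass v.1 hv.1 v.2 hv.2 h
      rw [← sum_product' (range g) (range g) (fun α β => (((Ioc 0 K ×ˢ Ioc 0 K).filter
        (fun t => P (α + g * t.2) (β + g * t.1))).card : ℝ))]
      refine (sum_le_sum h3).trans ?_
      rw [sum_add_distrib, sum_const, card_product, card_range, ← sum_filter, sum_const,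
        nsmul_eq_mul, nsmul_eq_mul]
      push_cast
      rw [← sq]
    have hΘe : 8 * (g:ℝ) ^ 2 * (g + 1) * Θ = ε / 8 := by
      have : (g:ℝ) ≠ 0 := by linarith
      rw [hΘ, hK0]
      field_simp
      ring
    calc _ ≤ (g:ℝ) ^ 2 * A0 + Bad.card * (K:ℝ) ^ 2 + 4 * (g:ℝ) * H := by linarith
      _ ≤ (g:ℝ) ^ 2 * A0 + (ε / 8 * (g:ℝ) ^ 2) * (K:ℝ) ^ 2 + 4 * (g:ℝ) * H := by gcongr
      _ = ((g:ℝ) * K) ^ 2 * (ε / 4 + ε / 8) + (8 * (g:ℝ) ^ 2 * (g + 1) * Θ) * (H:ℝ) ^ 2 +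
            4 * (g:ℝ) ^ 2 * (16 * g + 8) / L * (H:ℝ) ^ 2 + 4 * (g:ℝ) * H := by
          rw [hA0]
          ring
      _ ≤ (H:ℝ) ^ 2 * (ε / 4 + ε / 8) + ε / 8 * (H:ℝ) ^ 2 + ε / 8 * (H:ℝ) ^ 2 +
            ε / 4 * (H:ℝ) ^ 2 := by
          refine add_le_add (add_le_add (add_le_add ?_ ?_) ?_) ?_
          · have : ((g:ℝ) * K) ^ 2 ≤ (H:ℝ) ^ 2 := pow_le_pow_left₀ (by positivity) hgKr 2
            gcongr
          · rw [hΘe]
          · refine mul_le_mul_of_nonneg_right ?_ (by positivity)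
            rw [div_le_iff₀ hL0]
            have h3 : 32 * (g:ℝ) ^ 2 * (16 * g + 8) / ε ≤ L := by linarith
            rw [div_le_iff₀ hε] at h3
            linarith
          · rw [div_le_iff₀ hε] at hHbig
            have h3 := mul_le_mul_of_nonneg_right hHbig hH0.le
            linarith only [h3]
      _ ≤ ε * (H:ℝ) ^ 2 := by
          have : 0 ≤ ε * (H:ℝ) ^ 2 := by positivity
          linarith
  exact hgoal

end Pool.Agent.PnU
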