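import Pool.Agent.PnU.Defs

/-!
# U8: the local statement for almost all pairs of residue classes, uniformly in `q`
-/

open Finset Filter

namespace Pool.Agent.PnU

open Pool.Agent.PnLG Pool.Agent.PnT

open Classical in
/-- **U8**: levels and permanence give the local statement -/
theorem all_mod_u {R : Polynomial ℚ} {D : ℕ} (hL : LevelsU R D) (hM : DenseModU R) :
    AllModU R D := by
  intro ε hε
  obtain ⟨K, hK⟩ := hL (ε / 2) (by positivity)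
  have hK1 : (0 : ℝ) < 2 * ((K : ℝ) + 1) := by positivity
  obtain ⟨y0, hy0⟩ := hM (ε / (2 * ((K : ℝ) + 1))) (by positivity)
  obtain ⟨Z, hZne, hZK, hZ0, hZ⟩ := hK y0
  obtain ⟨y, hy⟩ : ∃ y, y = Z.sup id := ⟨_, rfl⟩
  have hyZ : ∀ z ∈ Z, z ≤ y := fun z hz => hy ▸ Finset.le_sup (f := id) hz
  refine ⟨y, Real.exp (-(2 * (y : ℝ))) / 2, by positivity, ?_⟩
  intro y1 hy1
  have h1 : ∀ᶠ N : ℕ in atTop, ∀ z ∈ Z, ∀ q : ℕ → ℤ,
      (((range (PP y1) ×ˢ range (PP y1)).filter (fun t : ℕ × ℕ => Densef (fab q R t.1 t.2) z N ∧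
        ∑ n ∈ range N, Ly y1 (sf (fab q R t.1 t.2) n) <
          Real.exp (-(2 * (z : ℝ))) / 2 * N)).card : ℝ) ≤
      ε / (2 * ((K : ℝ) + 1)) * (PP y1 : ℝ) ^ 2 := by
    rw [Filter.eventually_all_finset]
    intro z hz
    exact hy0 z (hZ0 z hz) y1 ((hyZ z hz).trans hy1)
  filter_upwards [hZ y1 (fun z hz => (hyZ z hz).trans hy1), h1] with N hN1 hN2
  intro q hq
  set A : Finset (ℕ × ℕ) := (range (PP y1) ×ˢ range (PP y1)).filter (fun t : ℕ × ℕ =>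
    ∀ z ∈ Z, ¬ Densef (fab q R t.1 t.2) z N) with hA
  set B : ℕ → Finset (ℕ × ℕ) := fun z => (range (PP y1) ×ˢ range (PP y1)).filter
    (fun t : ℕ × ℕ => Densef (fab q R t.1 t.2) z N ∧
      ∑ n ∈ range N, Ly y1 (sf (fab q R t.1 t.2) n) < Real.exp (-(2 * (z : ℝ))) / 2 * N) with hB
  have hsub : ((range (PP y1) ×ˢ range (PP y1)).filter (fun t : ℕ × ℕ =>
      ∑ n ∈ range N, Ly y1 (sf (fab q R t.1 t.2) n) < Real.exp (-(2 * (y : ℝ))) / 2 * N)) ⊆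
      A ∪ Z.biUnion B := by
    intro b hb
    rw [mem_filter] at hb
    rw [mem_union]
    by_cases hd : ∀ z ∈ Z, ¬ Densef (fab q R b.1 b.2) z N
    · exact Or.inl (mem_filter.mpr ⟨hb.1, hd⟩)
    · right
      push Not at hd
      obtain ⟨z, hz, hdz⟩ := hd
      refine mem_biUnion.mpr ⟨z, hz, mem_filter.mpr ⟨hb.1, hdz, lt_of_lt_of_le hb.2 ?_⟩⟩
      have h2 : (z : ℝ) ≤ y := by exact_mod_cast hyZ z hz
      have h3 : Real.exp (-(2 * (y : ℝ))) ≤ Real.exp (-(2 * (z : ℝ))) :=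
        Real.exp_le_exp.mpr (by linarith)
      exact mul_le_mul_of_nonneg_right (by linarith) (Nat.cast_nonneg N)
  have h4 : ((Z.biUnion B).card : ℝ) ≤ ε / 2 * (PP y1 : ℝ) ^ 2 := by
    have h5 : ((Z.biUnion B).card : ℝ) ≤ ∑ z ∈ Z, ((B z).card : ℝ) := by
      exact_mod_cast Finset.card_biUnion_le
    refine h5.trans ?_
    have h6 : ∑ z ∈ Z, ((B z).card : ℝ) ≤ ∑ _z ∈ Z, ε / (2 * ((K : ℝ) + 1)) * (PP y1 : ℝ) ^ 2 :=
      sum_le_sum fun z hz => hN2 z hz q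
    refine h6.trans ?_
    rw [sum_const, nsmul_eq_mul]
    have h7 : (Z.card : ℝ) ≤ (K : ℝ) + 1 := by
      have : (Z.card : ℝ) ≤ K := by exact_mod_cast hZK
      linarith
    calc (Z.card : ℝ) * (ε / (2 * ((K : ℝ) + 1)) * (PP y1 : ℝ) ^ 2) ≤
        ((K : ℝ) + 1) * (ε / (2 * ((K : ℝ) + 1)) * (PP y1 : ℝ) ^ 2) :=
          mul_le_mul_of_nonneg_right h7 (by positivity)
      _ = ε / 2 * (PP y1 : ℝ) ^ 2 := by field_simp
  have h8 : (((range (PP y1) ×ˢ range (PP y1)).filter (fun t : ℕ × ℕ =>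
      ∑ n ∈ range N, Ly y1 (sf (fab q R t.1 t.2) n) <
        Real.exp (-(2 * (y : ℝ))) / 2 * N)).card : ℝ) ≤
      (A.card : ℝ) + ((Z.biUnion B).card : ℝ) := by
    exact_mod_cast (card_le_card hsub).trans (card_union_le _ _)
  have h9 : (A.card : ℝ) ≤ ε / 2 * (PP y1 : ℝ) ^ 2 := hN1 q hq
  linarith

end Pool.Agent.PnU
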