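import Pool.Agent.PnU.Defs
import Pool.Agent.PnT.Choose

/-!
# U1: the choice of the class `c`, uniformly in `f`
-/

open Finset Filter

namespace Pool.Agent.PnU

open Pool.Agent.PnLG Pool.Agent.PnT Pool.Agent.PnT.ChooseAux
open Pool.Agent.PnPoly.NC (np)

/-- a window of one period, on the natural numbers -/
private lemma count_shift_nat (g : ℕ → Prop) [DecidablePred g] {M : ℕ}
    (hg : ∀ x, g (x + M) ↔ g x) (n : ℕ) :
    Nat.count (fun i : ℕ => g (n + i)) M = Nat.count g M := by
  have h3 : Function.Periodic g M := fun i => propext (hg i)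
  have h4 := Nat.filter_Ico_card_eq_of_periodic n M g h3
  rw [← h4, Nat.count_eq_card_filter_range]
  refine card_bij (fun i _ => n + i) ?_ ?_ ?_
  · intro i hi
    rw [mem_filter, mem_range] at hi
    rw [mem_filter, mem_Ico]
    exact ⟨⟨by omega, by omega⟩, hi.2⟩
  · intro i _ j _ hij
    omega
  · intro j hj
    rw [mem_filter, mem_Ico] at hj
    refine ⟨j - n, ?_, by omega⟩
    rw [mem_filter, mem_range]
    refine ⟨by omega, ?_⟩
    rw [show n + (j - n) = j by omega]
    exact hj.2

/-- U1 -/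
theorem choose_u (D : ℕ) (_hD : 1 ≤ D) : ChooseU D := by
  classical
  intro z0
  set P := PP z0 with hP
  set M := ∏ p ∈ Py z0, p ^ (D.factorization p + 1) with hM
  have hMpos : 0 < M := prod_pos fun p hp => pow_pos (Py_prime hp).pos _
  refine ⟨2 * M, fun f hper => ?_⟩
  -- the predicate
  let g : ℕ → ℕ → Prop := fun c x => ∀ p ∈ Py z0, ¬ (p : ℤ) ∣ c + 2 * f x
  have hgper : ∀ c x, g c (x + M) ↔ g c x := by
    intro c x
    refine forall₂_congr fun p hp => not_congr ?_
    have h1 : (p : ℤ) ∣ f (x + M) - f x := by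
      apply hper p (Py_prime hp)
      have hd : p ^ (D.factorization p + 1) ∣ M :=
        dvd_prod_of_mem (fun p : ℕ => p ^ (D.factorization p + 1)) hp
      have h2 : M ≡ 0 [MOD p ^ (D.factorization p + 1)] := (Nat.modEq_zero_iff_dvd).mpr hd
      simpa using h2.add_left x
    have h2 : (c : ℤ) + 2 * f (x + M) = (c + 2 * f x) + 2 * (f (x + M) - f x) := by ring
    rw [h2]
    exact (Int.dvd_add_left (h1.mul_left 2))
  set A : Finset ℕ := (range P).filter (fun k : ℕ => ∀ p ∈ Py z0, ¬ p ∣ k) with hA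
  have hcardA : (A.card : ℝ) = ∏ p ∈ Py z0, ((p : ℝ) - 1) := by
    rw [hA, hP]
    convert card_units z0
  have hApos : 0 < (A.card : ℝ) := by
    rw [hcardA]
    refine prod_pos fun p hp => ?_
    have : (2 : ℝ) ≤ p := by exact_mod_cast (Py_prime hp).two_le
    linarith
  -- double counting
  have hsum : (M : ℝ) * ∏ p ∈ Py z0, w p ≤
      ∑ c ∈ A, (((range M).filter (fun x : ℕ => g c x)).card : ℝ) := by
    have e1 : ∑ c ∈ A, (((range M).filter (fun x : ℕ => g c x)).card : ℝ) =
        ∑ x ∈ range M, ((A.filter (fun c : ℕ => g c x)).card : ℝ) := by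
      simp only [natCast_card_filter]
      exact sum_comm
    rw [e1]
    have e2 : ∀ x ∈ range M, ∏ p ∈ Py z0, w p ≤ ((A.filter (fun c : ℕ => g c x)).card : ℝ) := by
      intro x _
      have h1 := global_count z0 (2 * f x) ⟨f x, by ring⟩
      refine h1.trans ?_
      refine Nat.cast_le.mpr (card_le_card ?_)
      intro k hk
      rw [mem_filter] at hk
      rw [mem_filter, hA, mem_filter]
      exact ⟨⟨hk.1, hk.2.1⟩, hk.2.2⟩
    calc (M : ℝ) * ∏ p ∈ Py z0, w p = ∑ x ∈ range M, ∏ p ∈ Py z0, w p := by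
          rw [sum_const, card_range, nsmul_eq_mul]
      _ ≤ _ := sum_le_sum e2
  -- a good class
  have hex : ∃ c ∈ A, (M : ℝ) * (∏ p ∈ Py z0, w p) / A.card ≤
      (((range M).filter (fun x : ℕ => g c x)).card : ℝ) := by
    by_contra hcon
    push Not at hcon
    have hne : A.Nonempty := by
      rw [← card_pos]
      exact_mod_cast hApos
    have h1 := sum_lt_sum_of_nonempty hne hcon
    rw [sum_const, nsmul_eq_mul, mul_div_cancel₀ _ hApos.ne'] at h1
    linarith
  obtain ⟨c, hcA, hc⟩ := hex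
  have hcA' : ∀ p ∈ Py z0, ¬ p ∣ c := (mem_filter.mp hcA).2
  refine ⟨c, ?_, fun r hr ν => ?_⟩
  · change Nat.Coprime c (∏ p ∈ Py z0, p)
    refine Nat.Coprime.prod_right fun p hp => ?_
    rw [Nat.coprime_comm]
    exact (Nat.Prime.coprime_iff_not_dvd (Py_prime hp)).mpr (hcA' p hp)
  · have hdens : (M : ℝ) * tw 0 z0 ≤ (((range M).filter (fun x : ℕ => g c x)).card : ℝ) := by
      refine le_trans ?_ hc
      rw [mul_div_assoc]
      refine mul_le_mul_of_nonneg_left ?_ (by positivity)
      rw [hcardA, ← prod_div_distrib]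
      exact tw_le z0
    have htw : 0 ≤ tw 0 z0 := by
      rw [tw]
      refine prod_nonneg fun p hp => ?_
      have : (2 : ℝ) ≤ p := by exact_mod_cast (Py_prime (mem_sdiff.mp hp).1).two_le
      rw [sub_nonneg, div_le_one (by linarith)]
      linarith
    have hw : Nat.count (fun i : ℕ => g c (ν + i)) (M * (r / M)) =
        (r / M) * ((range M).filter (fun x : ℕ => g c x)).card := by
      rw [count_mul (fun i : ℕ => g c (ν + i)) (fun i => by
        rw [← add_assoc]
        exact hgper c (ν + i)), count_shift_nat (g c) (hgper c) ν, Nat.count_eq_card_filter_range]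
    have hle : Nat.count (fun i : ℕ => g c (ν + i)) (M * (r / M)) ≤
        Nat.count (fun i : ℕ => g c (ν + i)) r :=
      Nat.count_monotone _ (Nat.mul_div_le r M)
    rw [hw, Nat.count_eq_card_filter_range] at hle
    have hfl : (r : ℝ) / 2 ≤ ((r / M : ℕ) : ℝ) * M := by
      have h1 : r < M * (r / M) + M := Nat.lt_mul_div_succ r hMpos |>.trans_eq (by ring)
      have h2 : (r : ℝ) < M * ((r / M : ℕ) : ℝ) + M := by exact_mod_cast h1
      have h3 : (2 : ℝ) * M ≤ r := by exact_mod_cast hr
      nlinarith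
    calc 1 / 2 * ((r : ℝ) * tw 0 z0) = (r : ℝ) / 2 * tw 0 z0 := by ring
      _ ≤ (((r / M : ℕ) : ℝ) * M) * tw 0 z0 := mul_le_mul_of_nonneg_right hfl htw
      _ = ((r / M : ℕ) : ℝ) * (M * tw 0 z0) := by ring
      _ ≤ ((r / M : ℕ) : ℝ) * (((range M).filter (fun x : ℕ => g c x)).card : ℝ) :=
          mul_le_mul_of_nonneg_left hdens (by positivity)
      _ ≤ _ := by
          have := (Nat.cast_le (α := ℝ)).mpr hle
          push_cast at this
          refine this.trans (le_of_eq ?_)
          congr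

end Pool.Agent.PnU
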