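import Pool.Agent.PnU.Defs2

/-!
# The exceptional set in one class, uniform measure on a set of indices
-/

open Finset Filter

namespace Pool.Agent.PnU

open Pool.Agent.PnPoly Pool.Agent.PnMaynard Pool.Agent.PnMaynard2

/-- U9 -/
theorem class_bad : ClassBad := by
  classical
  intro n0 C0 g N N' K X E Q R α β S ε Bd hmono hpos hle hg0 hg2 hN hN' hE hSW hSne hS hε hcorr
    hX hBd
  have hcard0 : (0:ℝ) < S.card := by exact_mod_cast hSne.card_pos
  set η : ℝ := 1 / S.card with hη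
  have hη0 : 0 ≤ η := by positivity
  set B : ℕ → ℕ := fun n => pr n + 2 * (Q n + β + α * R n) with hB
  set G := 2 * g with hG
  have hG1 : 1 ≤ G := by omega
  have hGr : (G:ℝ) = 2 * g := by rw [hG]; push_cast; ring
  set κ := (G:ℝ) / G.totient with hκ
  have htot : (1:ℝ) ≤ G.totient := by exact_mod_cast Nat.totient_pos.2 hG1
  have hG0 : (0:ℝ) < G := by exact_mod_cast hG1
  have hκ1 : 1 ≤ κ := by
    rw [hκ, le_div_iff₀ (by linarith), one_mul]
    exact_mod_cast Nat.totient_le G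
  have hκG : κ ≤ G := by
    rw [hκ, div_le_iff₀ (by linarith)]
    nlinarith
  have hlogX : 0 ≤ Real.log X := Real.log_natCast_nonneg X
  have hSn0 : ∀ n ∈ S, n0 ≤ n := fun n hn => (hS n hn).1
  have hSR : ∀ n ∈ S, 1 ≤ R n ∧ R n ≤ N ^ C0 := by
    intro n hn
    have h1 := hS n hn
    exact ⟨hpos n h1.1, (hle n h1.1).trans (Nat.pow_le_pow_left h1.2.2.1 C0)⟩
  have hinj : Set.InjOn R (S : Set ℕ) := by
    intro m hm n hn h
    have hm' := hSn0 m (mem_coe.1 hm)
    have hn' := hSn0 n (mem_coe.1 hn)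
    rcases lt_trichotomy m n with h1 | h1 | h1
    · have := hmono m n hm' h1; omega
    · exact h1
    · have := hmono n m hn' h1; omega
  set φ : ℕ → ℕ := Function.invFunOn R (S : Set ℕ) with hφ
  have hφR : ∀ n ∈ S, φ (R n) = n := fun n hn => hinj.leftInvOn_invFunOn (mem_coe.2 hn)
  set J := S.image R with hJ
  set B' : ℕ → ℕ := fun s => B (φ s) with hB'
  have hvv : ∀ t0 t1 : ℕ, ∀ n ∈ S, vv B' G t0 t1 (R n) = B n + G * (t0 + t1 * R n) := by
    intro t0 t1 n hn
    unfold vv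
    simp only [hB']
    rw [hφR n hn]
  have hXJ : ∀ s ∈ J, B' s + G * (K + K * s) ≤ X := by
    intro s hs
    obtain ⟨n, hn, rfl⟩ := mem_image.1 hs
    simp only [hB']
    rw [hφR n hn]
    exact hX n hn
  have hBJ : ∀ s ∈ J, (B' s).Coprime G := by
    intro s hs
    obtain ⟨n, hn, rfl⟩ := mem_image.1 hs
    simp only [hB']
    rw [hφR n hn]
    have h7 : (B n).Coprime g := (hS n hn).2.2.2
    have h8 : (B n).Coprime 2 := h7.coprime_dvd_right hg2
    exact Nat.Coprime.mul_right h8 h7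
  have hJcard : J.card = S.card := card_image_of_injOn hinj
  have hJ1 : ∑ s ∈ J, (fun _ : ℕ => η) s = 1 := by
    rw [sum_const, nsmul_eq_mul, hJcard, hη, mul_one_div_cancel hcard0.ne']
  have hgsle : ∀ m ∈ S, ∀ n ∈ S, m ≠ n → gs G B' (R m) (R n) ≤
      ∏ l ∈ (dd (R m) (R n)).primeFactors.filter (fun l => ¬ l ∣ g), ((l:ℝ) / ((l:ℝ) - 1)) := by
    intro m hm n hn hmn
    unfold gs
    have hcomm : (R n - R m) + (R m - R n) = dd (R m) (R n) := by
      unfold dd
      rw [add_comm]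
    rw [hcomm]
    refine prod_mono_set ?_ fun l hl => ratio_ge_one
      (Nat.prime_of_mem_primeFactors (mem_filter.1 hl).1)
    intro l hl
    rw [mem_filter] at hl ⊢
    exact ⟨hl.1, fun h => hl.2.1 (h.mul_left 2)⟩
  have hΓ : ∑ m ∈ J, ∑ n ∈ J, (if m = n then 0 else (fun _ : ℕ => η) m * (fun _ : ℕ => η) n *
      gs G B' m n) ≤ 1 + ε := by
    have h0 : ∑ m ∈ J, ∑ n ∈ J, (if m = n then 0 else (fun _ : ℕ => η) m * (fun _ : ℕ => η) n *
        gs G B' m n) ≤ η ^ 2 * ∑ m ∈ S, ∑ n ∈ S, (if m = n then (0 : ℝ) else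
        ∏ l ∈ (dd (R m) (R n)).primeFactors.filter (fun l => ¬ l ∣ g),
          ((l:ℝ) / ((l:ℝ) - 1))) := by
      rw [hJ, sum_image hinj, mul_sum]
      refine sum_le_sum fun m hm => ?_
      rw [sum_image hinj, mul_sum]
      refine sum_le_sum fun n hn => ?_
      by_cases hmn : m = n
      · rw [if_pos (by rw [hmn]), if_pos hmn, mul_zero]
      · rw [if_neg (fun h => hmn (hinj hm hn h)), if_neg hmn]
        simp only
        rw [← sq]
        exact mul_le_mul_of_nonneg_left (hgsle m hm n hn hmn) (sq_nonneg _)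
    refine h0.trans ?_
    have h1 := mul_le_mul_of_nonneg_left hcorr (sq_nonneg η)
    refine h1.trans (le_of_eq ?_)
    rw [hη]
    field_simp
  have hN'1 : 1 ≤ N' := le_trans (Nat.one_le_pow _ _ (by omega)) hN'
  have hbad := bad_le (K := K) (N := N') (X := X) (G := G) (E := E) (B := B') hE hSW hG1
    hN'1 (I := J) (fun s hs => by
      obtain ⟨n, hn, rfl⟩ := mem_image.1 hs
      exact ⟨(hSR n hn).1, (hSR n hn).2.trans hN'⟩) (ν := fun _ => η) (fun n _ => hη0) hJ1
    (η := η) (fun n _ => le_rfl) hXJ hBJ hΓ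
  rw [← hκ] at hbad
  set bad1 := (Ioc 0 K ×ˢ Ioc 0 K).filter (fun t => FF B' G J (fun _ => η) t < κ / 2) with hbad1
  set bad2 := (Ioc 0 K ×ˢ Ioc 0 K).filter (fun t : ℕ × ℕ => (((Icc 1 N).filter (fun n => n0 ≤ n ∧
      (pr n + 2 * (Q n + β + α * R n) + G * (t.1 + t.2 * R n)).Prime)).card : ℝ) < Bd) with hbad2
  have hsub : bad2 ⊆ bad1 := by
    intro t ht
    rw [hbad2, mem_filter] at ht
    rw [hbad1, mem_filter]
    refine ⟨ht.1, ?_⟩
    rw [mem_product, mem_Ioc, mem_Ioc] at ht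
    have h1 := card_of_FF (K := K) (X := X) (G := G) (B := B') (I := J) (ν := fun _ => η)
      (fun n _ => hη0) (η := η) (fun n _ => le_rfl) hXJ (t := t) ⟨ht.1.1.2, ht.1.2.2⟩
    have h2 : ((J.filter (fun s => (vv B' G t.1 t.2 s).Prime)).card : ℝ) ≤
        (((Icc 1 N).filter (fun n => n0 ≤ n ∧
          (pr n + 2 * (Q n + β + α * R n) + G * (t.1 + t.2 * R n)).Prime)).card : ℝ) := by
      have : J.filter (fun s => (vv B' G t.1 t.2 s).Prime) ⊆
          ((Icc 1 N).filter (fun n => n0 ≤ n ∧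
          (pr n + 2 * (Q n + β + α * R n) + G * (t.1 + t.2 * R n)).Prime)).image R := by
        intro s hs
        rw [mem_filter] at hs
        obtain ⟨n, hn, rfl⟩ := mem_image.1 hs.1
        refine mem_image_of_mem _ ?_
        rw [mem_filter]
        refine ⟨mem_Icc.2 ⟨(hS n hn).2.1, (hS n hn).2.2.1⟩, hSn0 n hn, ?_⟩
        have h3 := hs.2
        rwa [hvv _ _ n hn] at h3
      exact_mod_cast (card_le_card this).trans card_image_le
    have h3 : ((J.filter (fun s => (vv B' G t.1 t.2 s).Prime)).card : ℝ) ≤ Bd := h2.trans ht.2.le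
    have h4 : FF B' G J (fun _ => η) t ≤ Bd * (η * Real.log X) :=
      h1.trans (mul_le_mul_of_nonneg_right h3 (by positivity))
    have h5 : Bd * (η * Real.log X) < 1 / 2 := by
      have h6 : Bd * (η * Real.log X) = Bd * Real.log X / S.card := by
        rw [hη]
        ring
      rw [h6, div_lt_iff₀ hcard0]
      linarith
    linarith
  have hcard : (bad2.card : ℝ) ≤ bad1.card := by exact_mod_cast card_le_card hsub
  refine hcard.trans ?_
  have hκ2 : 1 ≤ κ ^ 2 := one_le_pow₀ hκ1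
  have hK0 : (0:ℝ) ≤ K := Nat.cast_nonneg K
  have hlogη : Real.log X / S.card = η * Real.log X := by
    rw [hη]
    ring
  rw [hlogη]
  -- bound of the error
  have herr : η * Real.log X * (K * (κ * K + 2 * E)) +
      (G * (N' : ℝ) ^ 2 * K * (2 * E + Real.log X) +
        2 * E * (K * (1 + (N' : ℝ))) * Real.log X) + 4 * κ * E * K ≤
      η * Real.log X * (K * (2 * g * K + 2 * E)) +
        (2 * g * (N' : ℝ) ^ 2 * K * (2 * E + Real.log X) +
          2 * E * (K * (1 + N')) * Real.log X) +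
        4 * (2 * g) * E * K := by
    rw [← hGr]
    gcongr
  set Err := η * Real.log X * (K * (2 * g * K + 2 * E)) +
        (2 * g * (N' : ℝ) ^ 2 * K * (2 * E + Real.log X) +
          2 * E * (K * (1 + N')) * Real.log X) +
        4 * (2 * g) * E * K with hErr
  have hErr0 : 0 ≤ Err := by positivity
  have h1 : κ ^ 2 / 4 * (bad1.card : ℝ) ≤ κ ^ 2 * ((K:ℝ) ^ 2 * ε + Err) := by
    have h2 : Err ≤ κ ^ 2 * Err := le_mul_of_one_le_left hErr0 hκ2
    have h3 : κ ^ 2 * (K:ℝ) ^ 2 * (1 + ε - 1) = κ ^ 2 * ((K:ℝ) ^ 2 * ε) := by ring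
    rw [h3] at hbad
    calc _ ≤ _ := hbad
      _ ≤ κ ^ 2 * ((K:ℝ) ^ 2 * ε) + Err := add_le_add le_rfl herr
      _ ≤ _ := by rw [mul_add]; linarith
  have h2 : (bad1.card : ℝ) / 4 ≤ (K:ℝ) ^ 2 * ε + Err := by
    refine le_of_mul_le_mul_left ?_ (show 0 < κ ^ 2 by linarith)
    linarith
  linarith

end Pool.Agent.PnU
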