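import Pool.Agent.PnT.Base

/-!
# Two-parameter families `Q + a R + b`: definitions and statements of the parts

`f : ℕ → ℤ` stands for the values of an integer-valued polynomial; `PP`, `tw`, `qv`, `Ly`, `Xs` are
as in `PnT`, `PnLG`.
-/

open Finset Filter

namespace Pool.Agent.PnU

open Pool.Agent.PnLG Pool.Agent.PnT
open Pool.Agent.PnPoly.NC (np)

/-- `f` modulo a prime `p` depends only on the argument modulo `p^(v_p(D)+1)` -/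
def Per (D : ℕ) (f : ℕ → ℤ) : Prop := ∀ p : ℕ, p.Prime → ∀ m m' : ℕ,
  m ≡ m' [MOD p ^ (D.factorization p + 1)] → (p : ℤ) ∣ f m - f m'

/-- the values of `Q + a R + b` -/
noncomputable def fab (q : ℕ → ℤ) (R : Polynomial ℚ) (a b : ℤ) : ℕ → ℤ :=
  fun m => q m + a * qv R m + b

/-- `p_{n+1} + 2 f(n+1)` (indices start at `0`) -/
noncomputable def sf (f : ℕ → ℤ) (n : ℕ) : ℤ := (np n : ℤ) + 2 * f (n + 1)

open Classical in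
/-- number of the `n < N` such that `p_{n+1} + 2 f(n+1)` has no prime factor `≤ y` -/
noncomputable def copf (f : ℕ → ℤ) (y N : ℕ) : ℕ :=
  ((range N).filter (fun n => ∀ p ∈ Py y, ¬ (p : ℤ) ∣ sf f n)).card

/-- density at least `exp(-2y)` -/
def Densef (f : ℕ → ℤ) (y N : ℕ) : Prop := (N : ℝ) ≤ Real.exp (2 * y) * (copf f y N : ℝ)

open Classical in
/-- U1: choice of a residue class, uniformly in `f` -/
def ChooseU (D : ℕ) : Prop := ∀ z0 : ℕ, ∃ G0 : ℕ, ∀ f : ℕ → ℤ, Per D f →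
  ∃ c : ℕ, Nat.Coprime c (PP z0) ∧ ∀ r : ℕ, G0 ≤ r → ∀ ν : ℕ,
  1 / 2 * (r * tw 0 z0) ≤
    (((range r).filter (fun i : ℕ => ∀ p ∈ Py z0, ¬ (p : ℤ) ∣ c + 2 * f (ν + i))).card : ℝ)

open Classical in
/-- U2: second moment over `(a, b)` in a class, for the numbers `v i + 2 (a w i + b)`, `i ∈ I` -/
def WindowU : Prop := ∀ (d z0 r z : ℕ) (I : Finset ℕ) (v w : ℕ → ℤ) (α β : ℤ), 2 ≤ z0 → z0 ≤ r →
  r ≤ z → I.Nonempty →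
  (∀ p ∈ Py z \ Py r, ∀ j ∈ I, (I.filter (fun i => (p : ℤ) ∣ w i - w j)).card ≤ d) →
  (∑ i ∈ I, ∑ j ∈ I, ∏ p ∈ (Py r \ Py z0).filter (fun p : ℕ => (p : ℤ) ∣ w i - w j),
    (1 - 1 / (p : ℝ))⁻¹ ≤ 3 * (I.card : ℝ) ^ 2) →
  (I.card * tw z0 z) / (3 * (I.card * tw z0 z) + d) * ((∏ p ∈ Py z \ Py z0, p : ℕ) : ℝ) ^ 2 ≤
    (((range (∏ p ∈ Py z \ Py z0, p) ×ˢ range (∏ p ∈ Py z \ Py z0, p)).filter
      (fun k : ℕ × ℕ => ∃ i ∈ I, ∀ p ∈ Py z \ Py z0, ¬ (p : ℤ) ∣ v i +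
        2 * ((α + (PP z0 : ℤ) * (k.1 : ℤ)) * w i + (β + (PP z0 : ℤ) * (k.2 : ℤ))))).card : ℝ)

open Classical in
/-- U3: the scale `z`, density `exp(-z^C)`, for a positive proportion of the `(a, b)` in every
class, uniformly in `q` -/
def StageZU (R : Polynomial ℚ) (D : ℕ) : Prop := ∃ κ C : ℝ, 0 < κ ∧ 1 ≤ C ∧ ∃ z3 : ℕ,
  ∀ z0 : ℕ, z3 ≤ z0 → ∀ᶠ z : ℕ in atTop, ∀ᶠ N : ℕ in atTop, ∀ q : ℕ → ℤ, Per D q →
  ∀ α < PP z0, ∀ β < PP z0,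
  κ * ((PP z : ℝ) / PP z0) ^ 2 ≤ (((range (PP z) ×ˢ range (PP z)).filter (fun t : ℕ × ℕ =>
    t.1 % PP z0 = α ∧ t.2 % PP z0 = β ∧
    (N : ℝ) ≤ Real.exp ((z : ℝ) ^ C) * (copf (fab q R t.1 t.2) z N : ℝ))).card : ℝ)

open Classical in
/-- U4: from the scale `z` to the scale `y` -/
def LiftU (R : Polynomial ℚ) : Prop := ∀ (q : ℕ → ℤ) (z y N a b : ℕ), 2 ≤ z → z ≤ y →
  a < PP z → b < PP z →
  1 / 2 * tw z y * ((PP y : ℝ) / PP z) ^ 2 ≤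
    (((range (PP y) ×ˢ range (PP y)).filter (fun t : ℕ × ℕ =>
      t.1 % PP z = a ∧ t.2 % PP z = b ∧
      1 / 2 * tw z y * (copf (fab q R a b) z N : ℝ) ≤ (copf (fab q R t.1 t.2) y N : ℝ))).card : ℝ)

open Classical in
/-- U5a: one stage -/
def StageU (R : Polynomial ℚ) (D : ℕ) : Prop := ∃ κ : ℝ, 0 < κ ∧ κ ≤ 1 ∧ ∃ z3 : ℕ, ∀ z0 : ℕ,
  z3 ≤ z0 → ∃ y : ℕ, z0 ≤ y ∧ ∀ᶠ N : ℕ in atTop, ∀ q : ℕ → ℤ, Per D q →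
  ∀ α < PP z0, ∀ β < PP z0,
  κ * ((PP y : ℝ) / PP z0) ^ 2 ≤ (((range (PP y) ×ˢ range (PP y)).filter (fun t : ℕ × ℕ =>
    t.1 % PP z0 = α ∧ t.2 % PP z0 = β ∧ Densef (fab q R t.1 t.2) y N)).card : ℝ)

open Classical in
/-- U5b: after finitely many stages almost all `(a, b)` are dense at one of the scales -/
def LevelsU (R : Polynomial ℚ) (D : ℕ) : Prop := ∀ ε : ℝ, 0 < ε → ∃ K : ℕ, ∀ y0 : ℕ,
  ∃ Z : Finset ℕ, Z.Nonempty ∧ Z.card ≤ K ∧ (∀ y ∈ Z, y0 ≤ y) ∧ ∀ y1 : ℕ, (∀ y ∈ Z, y ≤ y1) →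
  ∀ᶠ N : ℕ in atTop, ∀ q : ℕ → ℤ, Per D q →
  (((range (PP y1) ×ˢ range (PP y1)).filter (fun t : ℕ × ℕ =>
    ∀ y ∈ Z, ¬ Densef (fab q R t.1 t.2) y N)).card : ℝ) ≤ ε * (PP y1 : ℝ) ^ 2

/-- U6: exponential moment of `∑ 1/p`, `p ∣ R(n) - R(m)`, over dense sets -/
def HoldU (R : Polynomial ℚ) : Prop := ∀ η : ℝ, 0 < η → ∃ y0 : ℕ, ∀ y : ℕ, y0 ≤ y → ∀ y1 : ℕ,
  ∀ᶠ N : ℕ in atTop, ∀ S ⊆ range N, (N : ℝ) ≤ Real.exp (2 * y) * S.card →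
  ∑ n ∈ S, ∑ m ∈ S, Real.exp (2 * Xs y y1 (qv R (n + 1) - qv R (m + 1))) ≤
    (1 + η) * (S.card : ℝ) ^ 2

open Classical in
/-- U7: most `(a, b)` which are dense at the scale `y` stay good for ever -/
def DenseModU (R : Polynomial ℚ) : Prop := ∀ ε : ℝ, 0 < ε → ∃ y0 : ℕ, ∀ y : ℕ, y0 ≤ y → ∀ y1 : ℕ,
  y ≤ y1 → ∀ᶠ N : ℕ in atTop, ∀ q : ℕ → ℤ,
  (((range (PP y1) ×ˢ range (PP y1)).filter (fun t : ℕ × ℕ => Densef (fab q R t.1 t.2) y N ∧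
    ∑ n ∈ range N, Ly y1 (sf (fab q R t.1 t.2) n) < Real.exp (-(2 * y)) / 2 * N)).card : ℝ) ≤
    ε * (PP y1 : ℝ) ^ 2

open Classical in
/-- U8: the local statement for almost all pairs of residue classes, uniformly in `q` -/
def AllModU (R : Polynomial ℚ) (D : ℕ) : Prop := ∀ ε : ℝ, 0 < ε → ∃ y : ℕ, ∃ c : ℝ, 0 < c ∧
  ∀ y1 : ℕ, y ≤ y1 → ∀ᶠ N : ℕ in atTop, ∀ q : ℕ → ℤ, Per D q →
  (((range (PP y1) ×ˢ range (PP y1)).filter (fun t : ℕ × ℕ =>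
    ∑ n ∈ range N, Ly y1 (sf (fab q R t.1 t.2) n) < c * N)).card : ℝ) ≤ ε * (PP y1 : ℝ) ^ 2

end Pool.Agent.PnU
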