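import Pool.Agent.PnU.Defs
import Pool.Agent.PnMaynard2.Class

/-!
# Two-parameter families: statements of the global parts
-/

open Finset Filter

namespace Pool.Agent.PnU

open Pool.Agent.PnPoly Pool.Agent.PnMaynard Pool.Agent.PnMaynard2
open Pool.Agent.PnLG (qv)

/-- U9: the exceptional set in a class modulo `g`, uniform measure on `S` (generalises
`PnMaynard2.class_bad2`) -/
def ClassBad : Prop := ∀ (n0 C0 g N N' K X : ℕ) (E : ℝ) (Q R : ℕ → ℕ) (α β : ℕ) (S : Finset ℕ)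
    (ε Bd : ℝ), (∀ m n, n0 ≤ m → m < n → R m < R n) → (∀ n, n0 ≤ n → 1 ≤ R n) →
  (∀ n, n0 ≤ n → R n ≤ n ^ C0) → 1 ≤ g → 2 ∣ g → 1 ≤ N → N ^ C0 ≤ N' → 0 ≤ E →
  SWH X (2 * g * N') E → S.Nonempty →
  (∀ n ∈ S, n0 ≤ n ∧ 1 ≤ n ∧ n ≤ N ∧ (pr n + 2 * (Q n + β + α * R n)).Coprime g) → 0 ≤ ε →
  ∑ m ∈ S, ∑ n ∈ S, (if m = n then (0 : ℝ) else
    ∏ l ∈ (dd (R m) (R n)).primeFactors.filter (fun l => ¬ l ∣ g), ((l:ℝ) / ((l:ℝ) - 1))) ≤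
    (1 + ε) * (S.card : ℝ) ^ 2 →
  (∀ n ∈ S, pr n + 2 * (Q n + β + α * R n) + 2 * g * (K + K * R n) ≤ X) →
  Bd * Real.log X < S.card / 2 →
  (((Ioc 0 K ×ˢ Ioc 0 K).filter (fun t : ℕ × ℕ => (((Icc 1 N).filter (fun n => n0 ≤ n ∧
      (pr n + 2 * (Q n + β + α * R n) + 2 * g * (t.1 + t.2 * R n)).Prime)).card : ℝ) <
        Bd)).card : ℝ) ≤ 4 * (K:ℝ) ^ 2 * ε + 4 *
      (Real.log X / S.card * (K * (2 * g * K + 2 * E)) +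
        (2 * g * (N' : ℝ) ^ 2 * K * (2 * E + Real.log X) + 2 * E * (K * (1 + N')) * Real.log X) +
        4 * (2 * g) * E * K)

/-- U10: the correlation hypothesis of U9 for arbitrary sets of indices -/
def CorrU (n0 : ℕ) (R : ℕ → ℕ) : Prop := ∃ C : ℝ, 0 < C ∧ ∃ y0 : ℕ, ∀ y : ℕ, y0 ≤ y →
  ∀ᶠ N : ℕ in atTop, ∀ S ⊆ Icc 1 N, (∀ n ∈ S, n0 ≤ n) → ∀ g : ℕ,
  (∀ p : ℕ, p.Prime → p ≤ y → p ∣ g) →
  ∑ m ∈ S, ∑ n ∈ S, (if m = n then (0 : ℝ) else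
    ∏ l ∈ (dd (R m) (R n)).primeFactors.filter (fun l => ¬ l ∣ g), ((l:ℝ) / ((l:ℝ) - 1))) ≤
    (S.card : ℝ) ^ 2 + C / y * (N:ℝ) ^ 2

/-- U11: almost all pairs, uniformly in `q`; `n2` is a common lower bound for the indices -/
def MainU (R : Polynomial ℚ) (D : ℕ) : Prop := ∀ n2 C0 : ℕ,
  (∀ m n, n2 ≤ m → m < n → (qv R m).toNat < (qv R n).toNat) → (∀ n, n2 ≤ n → 1 ≤ (qv R n).toNat) →
  (∀ n, n2 ≤ n → (qv R n).toNat ≤ n ^ C0) → CorrU n2 (fun n => (qv R n).toNat) →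
  ∀ ε : ℝ, 0 < ε → ∃ c K0 : ℝ, 0 < c ∧ 0 < K0 ∧ ∀ (A : ℝ) (D0 : ℕ), ∀ᶠ H : ℕ in atTop,
  ∀ q : ℕ → ℤ, Per D q → (∀ n : ℕ, n2 ≤ n → 0 ≤ q n) →
  (∀ n : ℕ, (n:ℝ) ≤ Real.log H ^ A → (q n : ℝ) ≤ H * Real.log H ^ D0) →
  ∀ N : ℕ, K0 * Real.log H ≤ N → (N:ℝ) ≤ Real.log H ^ A →
  (((Ioc 0 H ×ˢ Ioc 0 H).filter (fun v : ℕ × ℕ => (((Icc 1 N).filter (fun n => n2 ≤ n ∧
    (pr n + 2 * ((q n).toNat + v.1 * (qv R n).toNat + v.2)).Prime)).card : ℝ) <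
      c * (N / Real.log H))).card : ℝ) ≤ ε * (H:ℝ) ^ 2

end Pool.Agent.PnU
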