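import Pool.Agent.PnU.Window
import Pool.Agent.PnLG.ZeroMod

/-!
# U7: most `(a, b)` which are dense at the scale `y` stay good for ever
-/

open Finset Filter

namespace Pool.Agent.PnU

open Pool.Agent.PnLG Pool.Agent.PnT
open Pool.Agent.PnPoly.NC (np)
open Pool.Agent.PnT.WindowAux
open ZM

namespace DMU

/-- counting by fibres, two variables -/
lemma card_fibre2 {M0 Pi : ℕ} (hM0 : 0 < M0) (B : Finset (ℕ × ℕ)) (δ : ℝ)
    (h : ∀ α < M0, ∀ β < M0, ∃ F : Finset (ℕ × ℕ), (F.card : ℝ) ≤ δ * (Pi : ℝ) ^ 2 ∧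
      ∀ k : ℕ × ℕ, (α + M0 * k.1, β + M0 * k.2) ∈ B → k ∈ F) :
    (B.card : ℝ) ≤ δ * ((M0 * Pi : ℕ) : ℝ) ^ 2 := by
  classical
  have h1 : B.card = ∑ γ ∈ range M0 ×ˢ range M0,
      (B.filter (fun b => (b.1 % M0, b.2 % M0) = γ)).card :=
    card_eq_sum_card_fiberwise (fun b _ => mem_coe.mpr (mem_product.mpr
      ⟨mem_range.mpr (Nat.mod_lt b.1 hM0), mem_range.mpr (Nat.mod_lt b.2 hM0)⟩))
  have h2 : ∀ γ ∈ range M0 ×ˢ range M0,
      ((B.filter (fun b => (b.1 % M0, b.2 % M0) = γ)).card : ℝ) ≤ δ * (Pi : ℝ) ^ 2 := by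
    rintro ⟨α, β⟩ hγ
    obtain ⟨hα, hβ⟩ := mem_product.mp hγ
    obtain ⟨F, hF, hFB⟩ := h α (mem_range.mp hα) β (mem_range.mp hβ)
    refine le_trans ?_ hF
    rw [Nat.cast_le]
    refine card_le_card_of_injOn (fun b => (b.1 / M0, b.2 / M0)) ?_ ?_
    · intro b hb
      rw [mem_coe, mem_filter] at hb
      rw [mem_coe]
      apply hFB
      obtain ⟨hb1, hb2⟩ := hb
      rw [Prod.mk.injEq] at hb2
      have h3 : α + M0 * (b.1 / M0) = b.1 := by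
        rw [← hb2.1]
        exact Nat.mod_add_div b.1 M0
      have h4 : β + M0 * (b.2 / M0) = b.2 := by
        rw [← hb2.2]
        exact Nat.mod_add_div b.2 M0
      show (α + M0 * (b.1 / M0), β + M0 * (b.2 / M0)) ∈ B
      rw [h3, h4]
      exact hb1
    · intro b hb b' hb' heq
      rw [mem_coe, mem_filter] at hb hb'
      obtain ⟨-, hb2⟩ := hb
      obtain ⟨-, hb2'⟩ := hb'
      rw [Prod.mk.injEq] at hb2 hb2'
      have heq' : (b.1 / M0, b.2 / M0) = (b'.1 / M0, b'.2 / M0) := heq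
      rw [Prod.mk.injEq] at heq'
      have h3 := Nat.mod_add_div b.1 M0
      have h4 := Nat.mod_add_div b'.1 M0
      have h5 := Nat.mod_add_div b.2 M0
      have h6 := Nat.mod_add_div b'.2 M0
      rw [hb2.1, heq'.1] at h3
      rw [hb2'.1] at h4
      rw [hb2.2, heq'.2] at h5
      rw [hb2'.2] at h6
      exact Prod.ext (h3.symm.trans h4) (h5.symm.trans h6)
  rw [h1, Nat.cast_sum]
  refine (sum_le_sum h2).trans ?_
  rw [sum_const, card_product, card_range, nsmul_eq_mul, Nat.cast_mul, Nat.cast_mul]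
  exact le_of_eq (by ring)

/-- Chebyshev -/
lemma cheb {ι : Type*} (X : Finset ι) (W : ι → ℝ) (c η : ℝ) (hc : 0 < c)
    (h1 : ∑ k ∈ X, W k = X.card * c) (h2 : ∑ k ∈ X, W k ^ 2 ≤ X.card * ((1 + η) * c ^ 2)) :
    ((X.filter (fun k => W k < c / 2)).card : ℝ) ≤ 4 * η * X.card := by
  have hv : ∑ k ∈ X, (W k - c) ^ 2 ≤ η * c ^ 2 * X.card := by
    have h3 : ∑ k ∈ X, (W k - c) ^ 2 =
        ∑ k ∈ X, W k ^ 2 - 2 * c * ∑ k ∈ X, W k + X.card * c ^ 2 := by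
      rw [Finset.mul_sum, ← Finset.sum_sub_distrib]
      have h4 : (X.card : ℝ) * c ^ 2 = ∑ k ∈ X, c ^ 2 := by
        rw [Finset.sum_const, nsmul_eq_mul]
      rw [h4, ← Finset.sum_add_distrib]
      refine Finset.sum_congr rfl fun k _ => by ring
    rw [h3, h1]
    nlinarith
  have hlow : ((X.filter (fun k => W k < c / 2)).card : ℝ) * (c ^ 2 / 4) ≤
      ∑ k ∈ X, (W k - c) ^ 2 := by
    rw [← nsmul_eq_mul, ← Finset.sum_const]
    refine (Finset.sum_le_sum fun k hk => ?_).trans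
      (Finset.sum_le_sum_of_subset_of_nonneg (Finset.filter_subset _ _) fun k _ _ => sq_nonneg _)
    have h4 := (Finset.mem_filter.1 hk).2
    nlinarith
  have h5 := hlow.trans hv
  have h6 : 0 < c ^ 2 := by positivity
  by_contra hcon
  push Not at hcon
  have h7 := mul_lt_mul_of_pos_right hcon (by positivity : (0 : ℝ) < c ^ 2 / 4)
  nlinarith

/-- the factor of `Lw` -/
lemma fac_eq (p : ℕ) (m : ℤ) :
    (if (p : ℤ) ∣ m then 0 else (1 - 1 / (p : ℝ))⁻¹) = nd p m * (1 - 1 / (p : ℝ))⁻¹ := by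
  unfold nd
  split_ifs
  · rw [zero_mul]
  · rw [one_mul]

lemma local_sq (p : ℕ) (hp : p.Prime) (hp2 : p ≠ 2) (α β M s s' w w' : ℤ)
    (hM : ¬ (p : ℤ) ∣ M) :
    ∑ k ∈ range p, ∑ l ∈ range p,
      (if (p : ℤ) ∣ s + 2 * ((α + M * (k : ℤ)) * w + (β + M * (l : ℤ))) then 0
        else (1 - 1 / (p : ℝ))⁻¹) *
      (if (p : ℤ) ∣ s' + 2 * ((α + M * (k : ℤ)) * w' + (β + M * (l : ℤ))) then 0
        else (1 - 1 / (p : ℝ))⁻¹) ≤
      (p : ℝ) ^ 2 * (if (p : ℤ) ∣ w - w' then Real.exp (2 / p) else 1) := by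
  have hp1 : (2 : ℝ) ≤ p := by exact_mod_cast hp.two_le
  have hA := one_sub_pos hp
  have h1 := WindowAux.local_pair2 p hp hp2 α β M s s' w w' hM
  simp only [fac_eq]
  have h2 : ∑ k ∈ range p, ∑ l ∈ range p,
      (nd p (s + 2 * ((α + M * (k : ℤ)) * w + (β + M * (l : ℤ)))) * (1 - 1 / (p : ℝ))⁻¹) *
      (nd p (s' + 2 * ((α + M * (k : ℤ)) * w' + (β + M * (l : ℤ)))) * (1 - 1 / (p : ℝ))⁻¹) =
      (∑ k ∈ range p, ∑ l ∈ range p,
        nd p (s + 2 * ((α + M * (k : ℤ)) * w + (β + M * (l : ℤ)))) *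
        nd p (s' + 2 * ((α + M * (k : ℤ)) * w' + (β + M * (l : ℤ))))) *
        ((1 - 1 / (p : ℝ))⁻¹) ^ 2 := by
    rw [Finset.sum_mul]
    refine Finset.sum_congr rfl fun k _ => ?_
    rw [Finset.sum_mul]
    refine Finset.sum_congr rfl fun l _ => ?_
    ring
  rw [h2]
  have h3 : (p : ℝ) ^ 2 * (1 - 1 / (p : ℝ)) ^ 2 * pf p (w - w') * ((1 - 1 / (p : ℝ))⁻¹) ^ 2 =
      (p : ℝ) ^ 2 * pf p (w - w') := by
    have h4 : (1 - 1 / (p : ℝ)) ≠ 0 := hA.ne'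
    have h5 : (1 - 1 / (p : ℝ)) ^ 2 * ((1 - 1 / (p : ℝ))⁻¹) ^ 2 = 1 := by
      rw [← mul_pow, mul_inv_cancel₀ h4, one_pow]
    calc (p : ℝ) ^ 2 * (1 - 1 / (p : ℝ)) ^ 2 * pf p (w - w') * ((1 - 1 / (p : ℝ))⁻¹) ^ 2 =
        (p : ℝ) ^ 2 * pf p (w - w') * ((1 - 1 / (p : ℝ)) ^ 2 * ((1 - 1 / (p : ℝ))⁻¹) ^ 2) := by ring
      _ = (p : ℝ) ^ 2 * pf p (w - w') := by rw [h5, mul_one]
  refine (mul_le_mul_of_nonneg_right h1 (by positivity)).trans ?_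
  rw [h3]
  refine mul_le_mul_of_nonneg_left ?_ (by positivity)
  unfold pf
  split_ifs
  · have h5 : (1 - 1 / (p : ℝ))⁻¹ = p / (p - 1) := by
      have h6 : (p : ℝ) - 1 ≠ 0 := by linarith
      field_simp
    rw [h5]
    have h7 : (0 : ℝ) < (p : ℝ) - 1 := by linarith
    have h8 : (p : ℝ) / (p - 1) ≤ 2 / p + 1 := by
      rw [div_add_one (by linarith), div_le_div_iff₀ h7 (by linarith)]
      nlinarith
    exact h8.trans (Real.add_one_le_exp _)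
  · exact le_rfl

lemma dvd_per1 (p : ℕ) (s w α β M : ℤ) (k : ℕ) :
    ((p : ℤ) ∣ s + 2 * ((α + M * ((k + p : ℕ) : ℤ)) * w + β)) ↔
      ((p : ℤ) ∣ s + 2 * ((α + M * (k : ℤ)) * w + β)) := by
  have h1 : s + 2 * ((α + M * ((k + p : ℕ) : ℤ)) * w + β) =
      s + 2 * ((α + M * (k : ℤ)) * w + β) + (p : ℤ) * (2 * M * w) := by push_cast; ring
  rw [h1]
  exact Int.dvd_add_left (Dvd.intro _ rfl)

lemma dvd_per2 (p : ℕ) (s γ β M : ℤ) (l : ℕ) :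
    ((p : ℤ) ∣ s + 2 * (γ + (β + M * ((l + p : ℕ) : ℤ)))) ↔
      ((p : ℤ) ∣ s + 2 * (γ + (β + M * (l : ℤ)))) := by
  have h1 : s + 2 * (γ + (β + M * ((l + p : ℕ) : ℤ))) =
      s + 2 * (γ + (β + M * (l : ℤ))) + (p : ℤ) * (2 * M) := by push_cast; ring
  rw [h1]
  exact Int.dvd_add_left (Dvd.intro _ rfl)

/-- first moment -/
lemma mom1 (y y1 : ℕ) (hy : 2 ≤ y) (α β s w : ℤ) :
    ∑ k ∈ range (∏ p ∈ Py y1 \ Py y, p), ∑ l ∈ range (∏ p ∈ Py y1 \ Py y, p),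
      Lw y y1 (s + 2 * ((α + (∏ p ∈ Py y, p : ℕ) * (k : ℤ)) * w +
        (β + (∏ p ∈ Py y, p : ℕ) * (l : ℤ)))) = ((∏ p ∈ Py y1 \ Py y, p : ℕ) : ℝ) ^ 2 := by
  have h1 : ∀ k ∈ range (∏ p ∈ Py y1 \ Py y, p), ∑ l ∈ range (∏ p ∈ Py y1 \ Py y, p),
      Lw y y1 (s + 2 * ((α + (∏ p ∈ Py y, p : ℕ) * (k : ℤ)) * w +
        (β + (∏ p ∈ Py y, p : ℕ) * (l : ℤ)))) = ((∏ p ∈ Py y1 \ Py y, p : ℕ) : ℝ) := by
    intro k _
    rw [← WMom_one y y1 hy β (s + 2 * ((α + (∏ p ∈ Py y, p : ℕ) * (k : ℤ)) * w))]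
    refine Finset.sum_congr rfl fun l _ => ?_
    congr 1
    ring
  rw [Finset.sum_congr rfl h1, sum_const, card_range, nsmul_eq_mul]
  ring

/-- second moment -/
lemma mom2 (y y1 : ℕ) (hy : 2 ≤ y) (α β s s' w w' : ℤ) :
    ∑ k ∈ range (∏ p ∈ Py y1 \ Py y, p), ∑ l ∈ range (∏ p ∈ Py y1 \ Py y, p),
      Lw y y1 (s + 2 * ((α + (∏ p ∈ Py y, p : ℕ) * (k : ℤ)) * w +
        (β + (∏ p ∈ Py y, p : ℕ) * (l : ℤ)))) *
      Lw y y1 (s' + 2 * ((α + (∏ p ∈ Py y, p : ℕ) * (k : ℤ)) * w' +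
        (β + (∏ p ∈ Py y, p : ℕ) * (l : ℤ)))) ≤
      ((∏ p ∈ Py y1 \ Py y, p : ℕ) : ℝ) ^ 2 * Real.exp (2 * Xs y y1 (w - w')) := by
  unfold Lw
  simp_rw [← Finset.prod_mul_distrib]
  rw [WindowAux.sum_prod_crt2 (Py y1 \ Py y) (fun p hp => (WMom_mem hp).1)
    (fun p k l => (if (p : ℤ) ∣ s + 2 * ((α + (∏ p ∈ Py y, p : ℕ) * (k : ℤ)) * w +
        (β + (∏ p ∈ Py y, p : ℕ) * (l : ℤ))) then 0 else (1 - 1 / (p : ℝ))⁻¹) *
      (if (p : ℤ) ∣ s' + 2 * ((α + (∏ p ∈ Py y, p : ℕ) * (k : ℤ)) * w' +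
        (β + (∏ p ∈ Py y, p : ℕ) * (l : ℤ))) then 0 else (1 - 1 / (p : ℝ))⁻¹))
    (fun p _ k l => by simp only [dvd_per1]) (fun p _ k l => by simp only [dvd_per2])]
  have h0 : ((∏ p ∈ Py y1 \ Py y, p : ℕ) : ℝ) = ∏ p ∈ Py y1 \ Py y, (p : ℝ) := Nat.cast_prod _ _
  rw [← WMom_exp, h0, ← Finset.prod_pow, ← Finset.prod_mul_distrib]
  refine Finset.prod_le_prod (fun p hp => Finset.sum_nonneg fun k _ => Finset.sum_nonneg fun l _ =>
    mul_nonneg (WMom_nonneg hp _) (WMom_nonneg hp _)) fun p hp => ?_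
  have h := WMom_mem hp
  exact local_sq p h.1 (by omega) α β _ s s' w w' (WMom_ndvd hp)

/-- few `(a, b)` with a small sum -/
lemma few (y y1 : ℕ) (hy : 2 ≤ y) (α β : ℤ) (S : Finset ℕ) (v w : ℕ → ℤ) (η : ℝ)
    (hS : S.Nonempty)
    (h : ∑ n ∈ S, ∑ m ∈ S, Real.exp (2 * Xs y y1 (w n - w m)) ≤ (1 + η) * (S.card : ℝ) ^ 2) :
    (((range (∏ p ∈ Py y1 \ Py y, p) ×ˢ range (∏ p ∈ Py y1 \ Py y, p)).filter (fun k : ℕ × ℕ =>
      ∑ n ∈ S, Lw y y1 (v n + 2 * ((α + (∏ p ∈ Py y, p : ℕ) * (k.1 : ℤ)) * w n +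
        (β + (∏ p ∈ Py y, p : ℕ) * (k.2 : ℤ)))) < (S.card : ℝ) / 2)).card : ℝ) ≤
      4 * η * ((∏ p ∈ Py y1 \ Py y, p : ℕ) : ℝ) ^ 2 := by
  obtain ⟨P, hP⟩ : ∃ P : ℕ, P = ∏ p ∈ Py y1 \ Py y, p := ⟨_, rfl⟩
  have hc : (0 : ℝ) < S.card := by exact_mod_cast hS.card_pos
  have hX : (((range P ×ˢ range P).card : ℕ) : ℝ) = (P : ℝ) ^ 2 := by
    rw [card_product, card_range, Nat.cast_mul]; ring
  have hm := mom1 y y1 hy α β
  have hm2 := mom2 y y1 hy α β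
  rw [← hP] at hm hm2 ⊢
  have key := cheb (range P ×ˢ range P) (fun k : ℕ × ℕ =>
      ∑ n ∈ S, Lw y y1 (v n + 2 * ((α + (∏ p ∈ Py y, p : ℕ) * (k.1 : ℤ)) * w n +
        (β + (∏ p ∈ Py y, p : ℕ) * (k.2 : ℤ))))) (S.card : ℝ) η hc ?_ ?_
  · rw [hX] at key
    exact key
  · rw [hX, Finset.sum_comm]
    have h2 : ∀ n ∈ S, ∑ k ∈ range P ×ˢ range P,
        Lw y y1 (v n + 2 * ((α + (∏ p ∈ Py y, p : ℕ) * (k.1 : ℤ)) * w n +
          (β + (∏ p ∈ Py y, p : ℕ) * (k.2 : ℤ)))) = (P : ℝ) ^ 2 := by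
      intro n _
      rw [Finset.sum_product]
      exact hm (v n) (w n)
    rw [Finset.sum_congr rfl h2, Finset.sum_const, nsmul_eq_mul]
    ring
  · rw [hX]
    have h1 : ∑ k ∈ range P ×ˢ range P,
        (∑ n ∈ S, Lw y y1 (v n + 2 * ((α + (∏ p ∈ Py y, p : ℕ) * (k.1 : ℤ)) * w n +
          (β + (∏ p ∈ Py y, p : ℕ) * (k.2 : ℤ))))) ^ 2 =
        ∑ n ∈ S, ∑ m ∈ S, ∑ k ∈ range P ×ˢ range P,
          Lw y y1 (v n + 2 * ((α + (∏ p ∈ Py y, p : ℕ) * (k.1 : ℤ)) * w n +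
            (β + (∏ p ∈ Py y, p : ℕ) * (k.2 : ℤ)))) *
          Lw y y1 (v m + 2 * ((α + (∏ p ∈ Py y, p : ℕ) * (k.1 : ℤ)) * w m +
            (β + (∏ p ∈ Py y, p : ℕ) * (k.2 : ℤ)))) := by
      rw [Finset.sum_congr rfl (fun k _ => by rw [sq, Finset.sum_mul_sum])]
      rw [Finset.sum_comm]
      refine Finset.sum_congr rfl fun n _ => ?_
      rw [Finset.sum_comm]
    rw [h1]
    refine le_trans ?_ (mul_le_mul_of_nonneg_left h (by positivity))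
    rw [Finset.mul_sum]
    refine Finset.sum_le_sum fun n _ => ?_
    rw [Finset.mul_sum]
    refine Finset.sum_le_sum fun m _ => ?_
    rw [Finset.sum_product]
    exact hm2 (v n) (v m) (w n) (w m)

end DMU

open DMU

open Classical in
/-- **U7** -/
theorem dense_mod_u (R : Polynomial ℚ) (hH : HoldU R) : DenseModU R := by
  intro ε hε
  obtain ⟨y0, hy0⟩ := hH (ε / 8) (by linarith)
  refine ⟨max y0 2, ?_⟩
  intro y hyy y1 hy1
  have hy2 : 2 ≤ y := (le_max_right _ _).trans hyy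
  have hyy0 : y0 ≤ y := (le_max_left _ _).trans hyy
  obtain ⟨M0, hM0⟩ : ∃ M0, M0 = ∏ p ∈ Py y, p := ⟨_, rfl⟩
  obtain ⟨Pi, hPi⟩ : ∃ Pi, Pi = ∏ p ∈ Py y1 \ Py y, p := ⟨_, rfl⟩
  have hprod : ∏ p ∈ Py y1, p = M0 * Pi := by
    rw [hM0, hPi, mul_comm, prod_sdiff (Py_mono hy1)]
  have hM0pos : 0 < M0 := by
    rw [hM0]
    exact prod_pos fun p hp => (mem_filter.mp hp).2.pos
  have hM0dvd : ∀ p ∈ Py y, (p : ℤ) ∣ (M0 : ℤ) := by
    intro p hp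
    rw [hM0]
    exact_mod_cast dvd_prod_of_mem (fun p => p) hp
  filter_upwards [hy0 y hyy0 y1, eventually_gt_atTop 0] with N hN hNpos
  intro q
  unfold PP
  rw [hprod]
  refine (card_fibre2 (Pi := Pi) hM0pos _ (4 * (ε / 8)) ?_).trans
    (mul_le_mul_of_nonneg_right (by linarith) (by positivity))
  intro α hα β hβ
  -- the form of the numbers
  have hsf : ∀ (a b : ℤ) (n : ℕ), sf (fab q R a b) n =
      ((np n : ℤ) + 2 * q (n + 1)) + 2 * (a * qv R (n + 1) + b) := by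
    intro a b n
    unfold sf fab
    ring
  have hcop : ∀ k l : ℤ, copf (fab q R (α + M0 * k) (β + M0 * l)) y N =
      copf (fab q R α β) y N := by
    intro k l
    unfold copf
    congr 1
    refine filter_congr fun n _ => forall₂_congr fun p hp => not_congr ?_
    have h4 : sf (fab q R (α + M0 * k) (β + M0 * l)) n =
        sf (fab q R α β) n + (M0 : ℤ) * (2 * (k * qv R (n + 1) + l)) := by
      rw [hsf, hsf]; ring
    rw [h4]
    exact (Int.dvd_add_left ((hM0dvd p hp).mul_right _))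
  by_cases hadm : Densef (fab q R α β) y N
  · obtain ⟨S, hSdef⟩ : ∃ S, S = (range N).filter
      (fun n => ∀ p ∈ Py y, ¬ (p : ℤ) ∣ sf (fab q R α β) n) := ⟨_, rfl⟩
    have hSsub : S ⊆ range N := hSdef ▸ filter_subset _ _
    have hcopS : copf (fab q R α β) y N = S.card := by
      rw [hSdef]
      unfold copf
      congr 1
    have hexp : (N : ℝ) ≤ Real.exp (2 * y) * (S.card : ℝ) := by
      rw [← hcopS]
      exact hadm
    have hS : ∀ n ∈ S, ∀ p ∈ Py y, ¬ (p : ℤ) ∣ sf (fab q R α β) n := by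
      intro n hn
      rw [hSdef] at hn
      exact (mem_filter.mp hn).2
    have hSpos : (0 : ℝ) < S.card := by
      have h1 : (0 : ℝ) < N := by exact_mod_cast hNpos
      by_contra hcon
      have h2 : Real.exp (2 * y) * (S.card : ℝ) ≤ 0 :=
        mul_nonpos_of_nonneg_of_nonpos (Real.exp_pos _).le (not_lt.mp hcon)
      linarith
    have hSne : S.Nonempty := by
      rw [← card_pos]
      exact_mod_cast hSpos
    have hpair := hN _ hSsub hexp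
    have hW := few y y1 hy2 (α : ℤ) (β : ℤ) S (fun n => (np n : ℤ) + 2 * q (n + 1))
      (fun n => qv R (n + 1)) (ε / 8) hSne hpair
    rw [← hPi, ← hM0] at hW
    refine ⟨_, hW, ?_⟩
    rintro ⟨k, l⟩ hk
    obtain ⟨hk1, -, hk2⟩ := mem_filter.mp hk
    obtain ⟨hk1a, hk1b⟩ := mem_product.mp hk1
    have hk3 : k < Pi := by
      have h0 := mem_range.mp hk1a
      have h1 : M0 * k < M0 * Pi := lt_of_le_of_lt (Nat.le_add_left _ _) h0
      exact Nat.lt_of_mul_lt_mul_left h1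
    have hk4 : l < Pi := by
      have h0 := mem_range.mp hk1b
      have h1 : M0 * l < M0 * Pi := lt_of_le_of_lt (Nat.le_add_left _ _) h0
      exact Nat.lt_of_mul_lt_mul_left h1
    refine mem_filter.mpr ⟨mem_product.mpr ⟨mem_range.mpr hk3, mem_range.mpr hk4⟩, ?_⟩
    have hcast : ((α + M0 * k : ℕ) : ℤ) = (α : ℤ) + (M0 : ℤ) * (k : ℤ) := by push_cast; ring
    have hcast' : ((β + M0 * l : ℕ) : ℤ) = (β : ℤ) + (M0 : ℤ) * (l : ℤ) := by push_cast; ring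
    have hle : ∑ n ∈ S, Lw y y1 (((np n : ℤ) + 2 * q (n + 1)) +
          2 * (((α : ℤ) + (M0 : ℤ) * (k : ℤ)) * qv R (n + 1) + ((β : ℤ) + (M0 : ℤ) * (l : ℤ)))) ≤
        ∑ n ∈ range N, Ly y1 (sf (fab q R ((α + M0 * k : ℕ) : ℤ) ((β + M0 * l : ℕ) : ℤ)) n) := by
      refine le_trans (sum_le_sum (g := fun n =>
        Ly y1 (sf (fab q R ((α + M0 * k : ℕ) : ℤ) ((β + M0 * l : ℕ) : ℤ)) n)) ?_)
        (sum_le_sum_of_subset_of_nonneg hSsub fun n _ _ => Ly_nonneg _ _)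
      intro n hn
      rw [hsf, hcast, hcast']
      apply Lw_le_Ly hy1
      intro p hp hdvd
      apply hS n hn p hp
      rw [hsf]
      have h4 : ((np n : ℤ) + 2 * q (n + 1)) + 2 * ((α : ℤ) * qv R (n + 1) + (β : ℤ)) =
          (((np n : ℤ) + 2 * q (n + 1)) + 2 * (((α : ℤ) + (M0 : ℤ) * (k : ℤ)) * qv R (n + 1) +
            ((β : ℤ) + (M0 : ℤ) * (l : ℤ)))) - (M0 : ℤ) * (2 * (k * qv R (n + 1) + l)) := by ring
      rw [h4]
      exact dvd_sub hdvd ((hM0dvd p hp).mul_right _)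
    show ∑ n ∈ S, Lw y y1 (((np n : ℤ) + 2 * q (n + 1)) +
      2 * (((α : ℤ) + (M0 : ℤ) * (k : ℤ)) * qv R (n + 1) + ((β : ℤ) + (M0 : ℤ) * (l : ℤ)))) <
      (S.card : ℝ) / 2
    refine lt_of_le_of_lt hle (lt_of_lt_of_le hk2 ?_)
    have h1 : Real.exp (-(2 * y)) / 2 * N ≤
        Real.exp (-(2 * y)) / 2 * (Real.exp (2 * y) * S.card) :=
      mul_le_mul_of_nonneg_left hexp (by positivity)
    refine h1.trans (le_of_eq ?_)
    have h2 : Real.exp (-(2 * y : ℝ)) * Real.exp (2 * y) = 1 := by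
      rw [← Real.exp_add, neg_add_cancel, Real.exp_zero]
    calc Real.exp (-(2 * y)) / 2 * (Real.exp (2 * y) * S.card) =
          (Real.exp (-(2 * y)) * Real.exp (2 * y)) * S.card / 2 := by ring
      _ = S.card / 2 := by rw [h2, one_mul]
  · refine ⟨∅, by rw [card_empty, Nat.cast_zero]; positivity, ?_⟩
    rintro ⟨k, l⟩ hk
    exfalso
    obtain ⟨-, h2, -⟩ := mem_filter.mp hk
    apply hadm
    have hcast : ((α + M0 * k : ℕ) : ℤ) = (α : ℤ) + (M0 : ℤ) * (k : ℤ) := by push_cast; ring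
    have hcast' : ((β + M0 * l : ℕ) : ℤ) = (β : ℤ) + (M0 : ℤ) * (l : ℤ) := by push_cast; ring
    have h3 : Densef (fab q R ((α + M0 * k : ℕ) : ℤ) ((β + M0 * l : ℕ) : ℤ)) y N := h2
    unfold Densef at h3 ⊢
    rw [hcast, hcast', hcop] at h3
    exact h3

end Pool.Agent.PnU
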