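import Pool.Agent.PnU.Defs
import Pool.Agent.PnT.Base
import Pool.Agent.PnT.Pairs

/-!
# U6: exponential moment of `∑ 1/p`, `p ∣ R(n) - R(m)`, over dense sets
-/

open Finset Filter

namespace Pool.Agent.PnU

open Pool.Agent.PnLG Pool.Agent.PnT
open Pool.Agent.PnT.SZ (mem_diff)

namespace Hold

/-- `exp(t X) = ∏ (1 + 1_{p ∣ h} (exp(t/p) - 1))`, expanded -/
lemma exp_Xs (t : ℝ) (y y1 : ℕ) (h : ℤ) :
    Real.exp (t * Xs y y1 h) = ∑ T ∈ (Py y1 \ Py y).powerset,
      (if ∀ p ∈ T, (p : ℤ) ∣ h then ∏ p ∈ T, (Real.exp (t / (p : ℝ)) - 1) else 0) := by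
  classical
  have e1 : Real.exp (t * Xs y y1 h) = ∏ p ∈ Py y1 \ Py y,
      (1 + (if (p : ℤ) ∣ h then (Real.exp (t / (p : ℝ)) - 1) else 0)) := by
    unfold Xs
    rw [mul_sum, Real.exp_sum, prod_filter]
    refine prod_congr rfl fun p _ => ?_
    split_ifs
    · rw [mul_one_div]; ring
    · ring
  rw [e1, prod_one_add]
  refine sum_congr rfl fun T _ => ?_
  split_ifs with hT
  · exact prod_congr rfl fun p hp => if_pos (hT p hp)
  · push Not at hT
    obtain ⟨p, hp, hpd⟩ := hT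
    exact prod_eq_zero hp (if_neg hpd)

/-- the sum over one variable -/
lemma one_sum (t : ℝ) (ht : 0 ≤ t) (y y1 N d : ℕ) (f : ℕ → ℤ) (c : ℤ)
    (h : ∀ T ⊆ Py y1 \ Py y, (((range N).filter (fun n => ∀ p ∈ T, (p : ℤ) ∣ f n - c)).card : ℝ) ≤
      (d : ℝ) ^ T.card * ((N : ℝ) / (∏ p ∈ T, (p : ℝ)) + 1)) :
    ∑ n ∈ range N, Real.exp (t * Xs y y1 (f n - c)) ≤
      N * ∏ p ∈ Py y1 \ Py y, (1 + d * (Real.exp (t / (p : ℝ)) - 1) / p) +
        ∏ p ∈ Py y1 \ Py y, (1 + d * (Real.exp (t / (p : ℝ)) - 1)) := by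
  classical
  have he : ∀ p : ℕ, 0 ≤ Real.exp (t / (p : ℝ)) - 1 := by
    intro p
    have : (0 : ℝ) ≤ t / (p : ℝ) := by positivity
    have := Real.one_le_exp this
    linarith
  rw [sum_congr rfl fun n _ => exp_Xs t y y1 (f n - c), sum_comm, prod_one_add, prod_one_add,
    mul_sum, ← sum_add_distrib]
  refine sum_le_sum fun T hT => ?_
  rw [mem_powerset] at hT
  have hnn : (0 : ℝ) ≤ ∏ p ∈ T, (Real.exp (t / (p : ℝ)) - 1) := prod_nonneg fun p _ => he p
  rw [← sum_filter, sum_const, nsmul_eq_mul]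
  refine (mul_le_mul_of_nonneg_right (h T hT) hnn).trans (le_of_eq ?_)
  have e1 : ∏ p ∈ T, ((d : ℝ) * (Real.exp (t / (p : ℝ)) - 1) / p) =
      (d : ℝ) ^ T.card * (∏ p ∈ T, (Real.exp (t / (p : ℝ)) - 1)) / ∏ p ∈ T, (p : ℝ) := by
    rw [prod_div_distrib, prod_mul_distrib, prod_const]
  have e2 : ∏ p ∈ T, ((d : ℝ) * (Real.exp (t / (p : ℝ)) - 1)) =
      (d : ℝ) ^ T.card * (∏ p ∈ T, (Real.exp (t / (p : ℝ)) - 1)) := by
    rw [prod_mul_distrib, prod_const]
  rw [e1, e2]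
  ring

/-- `exp x - 1 ≤ x exp x` -/
lemma exp_sub_one_le (x : ℝ) : Real.exp x - 1 ≤ x * Real.exp x := by
  have h1 : 1 - x ≤ Real.exp (-x) := by
    have := Real.add_one_le_exp (-x); linarith
  have h2 : (1 - x) * Real.exp x ≤ Real.exp (-x) * Real.exp x :=
    mul_le_mul_of_nonneg_right h1 (Real.exp_pos x).le
  rw [← Real.exp_add, neg_add_cancel, Real.exp_zero] at h2
  linarith

/-- the product over the primes `> y` -/
lemma prod_le (M d y y1 : ℕ) (hy : 1 ≤ y) :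
    ∏ p ∈ Py y1 \ Py y, (1 + (d : ℝ) * (Real.exp (2 * M * y / (p : ℝ)) - 1) / p) ≤
      Real.exp (d * Real.exp (2 * M) * (2 * M)) := by
  have hy' : (1 : ℝ) ≤ y := by exact_mod_cast hy
  have h0 : ∀ p ∈ Py y1 \ Py y, (y : ℝ) ≤ p := by
    intro p hp
    have := (mem_diff.mp hp).2.1
    exact_mod_cast this.le
  have h1 : ∀ p ∈ Py y1 \ Py y, (d : ℝ) * (Real.exp (2 * M * y / (p : ℝ)) - 1) / p ≤
      d * Real.exp (2 * M) * (2 * M * y) * (1 / ((p : ℝ) * (p - 1))) := by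
    intro p hp
    have hp1 := h0 p hp
    have hp2 : (2 : ℝ) ≤ p := by exact_mod_cast (mem_diff.mp hp).1.two_le
    have hp0 : (0 : ℝ) < p := by linarith
    have g1 : 2 * M * y / (p : ℝ) ≤ 2 * M := by
      rw [div_le_iff₀ hp0]
      exact mul_le_mul_of_nonneg_left hp1 (by positivity)
    have g2 : Real.exp (2 * M * y / (p : ℝ)) - 1 ≤ 2 * M * y / (p : ℝ) * Real.exp (2 * M) :=
      (exp_sub_one_le _).trans (mul_le_mul_of_nonneg_left (Real.exp_le_exp.mpr g1) (by positivity))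
    have g3 : 1 / ((p : ℝ) * p) ≤ 1 / ((p : ℝ) * (p - 1)) := by
      apply one_div_le_one_div_of_le
      · exact mul_pos hp0 (by linarith)
      · exact mul_le_mul_of_nonneg_left (by linarith) hp0.le
    calc (d : ℝ) * (Real.exp (2 * M * y / (p : ℝ)) - 1) / p
        ≤ (d : ℝ) * (2 * M * y / (p : ℝ) * Real.exp (2 * M)) / p := by gcongr
      _ = d * Real.exp (2 * M) * (2 * M * y) * (1 / ((p : ℝ) * p)) := by
          field_simp
      _ ≤ _ := mul_le_mul_of_nonneg_left g3 (by positivity)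
  have h2 : ∏ p ∈ Py y1 \ Py y, (1 + (d : ℝ) * (Real.exp (2 * M * y / (p : ℝ)) - 1) / p) ≤
      Real.exp (∑ p ∈ Py y1 \ Py y, (d : ℝ) * (Real.exp (2 * M * y / (p : ℝ)) - 1) / p) := by
    rw [Real.exp_sum]
    refine prod_le_prod (fun p hp => ?_) (fun p hp => ?_)
    · have : (0 : ℝ) ≤ 2 * M * y / (p : ℝ) := by positivity
      have := Real.one_le_exp this
      have h3 : (0 : ℝ) ≤ (d : ℝ) * (Real.exp (2 * M * y / (p : ℝ)) - 1) / p := by
        apply div_nonneg (mul_nonneg (Nat.cast_nonneg _) (by linarith)) (Nat.cast_nonneg _)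
      linarith
    · rw [add_comm]
      exact Real.add_one_le_exp _
  refine h2.trans (Real.exp_le_exp.mpr ?_)
  refine (sum_le_sum h1).trans ?_
  rw [← mul_sum]
  have h3 : ∑ p ∈ Py y1 \ Py y, 1 / ((p : ℝ) * (p - 1)) ≤ 1 / y := by
    refine le_trans ?_ (Prs.sum_inv y y1 hy)
    refine sum_le_sum_of_subset_of_nonneg ?_ ?_
    · intro p hp
      rw [mem_diff] at hp
      rw [mem_Ioc]
      exact hp.2
    · intro n hn _
      rw [mem_Ioc] at hn
      have : (2 : ℝ) ≤ n := by exact_mod_cast (by omega : 2 ≤ n)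
      exact div_nonneg zero_le_one (mul_nonneg (by linarith) (by linarith))
  refine (mul_le_mul_of_nonneg_left h3 (by positivity)).trans (le_of_eq ?_)
  field_simp

/-- power mean -/
lemma power_mean {ι : Type*} (A : Finset ι) (hA : A.Nonempty) (g : ι → ℝ) (hg : ∀ i ∈ A, 0 ≤ g i)
    (k : ℕ) : ((∑ i ∈ A, g i) / A.card) ^ k ≤ (∑ i ∈ A, g i ^ k) / A.card := by
  have hc : (0 : ℝ) < A.card := by exact_mod_cast hA.card_pos
  have h := Real.pow_arith_mean_le_arith_mean_pow A (fun _ => 1 / (A.card : ℝ)) g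
    (fun _ _ => by positivity) (by rw [sum_const, nsmul_eq_mul]; field_simp) hg k
  rw [← mul_sum, ← mul_sum] at h
  calc ((∑ i ∈ A, g i) / A.card) ^ k = (1 / (A.card : ℝ) * ∑ i ∈ A, g i) ^ k := by
        congr 1; ring
    _ ≤ 1 / (A.card : ℝ) * ∑ i ∈ A, g i ^ k := h
    _ = _ := by ring

end Hold

open Hold

/-- **U6** -/
theorem hold_u (R : Polynomial ℚ) (hR : RootsP R) : HoldU R := by
  classical
  obtain ⟨d, z1, hd1, hroots⟩ := hR
  intro η hη
  obtain ⟨M, hM⟩ := pow_unbounded_of_one_lt (Real.exp 5) (by linarith : 1 < 1 + η)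
  have hM1 : 1 ≤ M := by
    by_contra h0
    have h1 : M = 0 := by omega
    rw [h1, pow_zero] at hM
    have h2 : (1 : ℝ) < Real.exp 5 := Real.one_lt_exp_iff.mpr (by norm_num)
    linarith
  obtain ⟨B, hB⟩ : ∃ B, B = Real.exp (d * Real.exp (2 * M) * (2 * M)) := ⟨_, rfl⟩
  have hB0 : 0 < B := hB ▸ Real.exp_pos _
  obtain ⟨y00, hy00⟩ := exists_nat_ge (2 * B)
  refine ⟨max (max z1 1) y00, fun y hy y1 => ?_⟩
  have hyz : z1 ≤ y := ((le_max_left _ _).trans (le_max_left _ _)).trans hy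
  have hy1 : 1 ≤ y := ((le_max_right _ _).trans (le_max_left _ _)).trans hy
  have hyy : y00 ≤ y := (le_max_right _ _).trans hy
  have h2B : 2 * B ≤ Real.exp y := by
    have g1 : (y00 : ℝ) ≤ y := by exact_mod_cast hyy
    have g2 := Real.add_one_le_exp (y : ℝ)
    linarith
  obtain ⟨C, hC⟩ : ∃ C, C = ∏ p ∈ Py y1 \ Py y,
    (1 + (d : ℝ) * (Real.exp (2 * M * y / (p : ℝ)) - 1)) := ⟨_, rfl⟩
  obtain ⟨N0, hN0⟩ := exists_nat_ge C
  filter_upwards [eventually_ge_atTop N0] with N hN S hS hSN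
  rcases S.eq_empty_or_nonempty with rfl | hSne
  · simp
  have hs : (0 : ℝ) < S.card := by exact_mod_cast hSne.card_pos
  have hCN : C ≤ N := hN0.trans (by exact_mod_cast hN)
  -- the moment over the whole square
  have hfull : ∑ n ∈ range N, ∑ m ∈ range N,
      Real.exp (2 * M * y * Xs y y1 (qv R (n + 1) - qv R (m + 1))) ≤ 2 * B * (N : ℝ) ^ 2 := by
    rw [sum_comm]
    have h1 : ∀ m ∈ range N, ∑ n ∈ range N,
        Real.exp (2 * M * y * Xs y y1 (qv R (n + 1) - qv R (m + 1))) ≤ N * B + N := by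
      intro m _
      refine (one_sum (2 * M * y) (by positivity) y y1 N d (fun n => qv R (n + 1))
        (qv R (m + 1)) ?_).trans ?_
      · intro T hT
        have h2 := hroots T (fun p hp => ⟨(mem_diff.mp (hT hp)).1,
          lt_of_le_of_lt hyz (mem_diff.mp (hT hp)).2.1⟩) (qv R (m + 1)) 1 N
        have e1 : ∀ i : ℕ, qi R ((1 : ℤ) + i) = qv R (i + 1) := by
          intro i
          rw [SZ.qv_qi]
          congr 1
          push_cast
          ring
        simp only [e1] at h2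
        push_cast at h2 ⊢
        exact h2
      · rw [← hC]
        have h3 := prod_le M d y y1 hy1
        rw [← hB] at h3
        have h4 := mul_le_mul_of_nonneg_left h3 (Nat.cast_nonneg (α := ℝ) N)
        linarith
    refine (sum_le_sum h1).trans ?_
    rw [sum_const, card_range, nsmul_eq_mul]
    have hB1 : 1 ≤ B := by
      rw [hB]; exact Real.one_le_exp (by positivity)
    nlinarith [sq_nonneg (N : ℝ)]
  -- power mean over `S × S`
  have hk0 : M * y ≠ 0 := by positivity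
  have hpm := power_mean (S ×ˢ S) (hSne.product hSne)
    (fun z : ℕ × ℕ => Real.exp (2 * Xs y y1 (qv R (z.1 + 1) - qv R (z.2 + 1))))
    (fun _ _ => (Real.exp_pos _).le) (M * y)
  rw [card_product, sum_product, sum_product] at hpm
  push_cast at hpm
  have hpow : ∀ n m : ℕ, Real.exp (2 * Xs y y1 (qv R (n + 1) - qv R (m + 1))) ^ (M * y) =
      Real.exp (2 * M * y * Xs y y1 (qv R (n + 1) - qv R (m + 1))) := by
    intro n m
    rw [← Real.exp_nat_mul]
    congr 1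
    push_cast
    ring
  simp only [hpow] at hpm
  have hsub : ∑ n ∈ S, ∑ m ∈ S, Real.exp (2 * M * y * Xs y y1 (qv R (n + 1) - qv R (m + 1))) ≤
      2 * B * (N : ℝ) ^ 2 := by
    refine le_trans ?_ hfull
    refine (sum_le_sum fun n _ => sum_le_sum_of_subset_of_nonneg hS
      fun m _ _ => (Real.exp_pos _).le).trans ?_
    exact sum_le_sum_of_subset_of_nonneg hS fun n _ _ => sum_nonneg fun m _ => (Real.exp_pos _).le
  have hNs : (N : ℝ) ^ 2 ≤ Real.exp (4 * y) * (S.card : ℝ) ^ 2 := by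
    calc (N : ℝ) ^ 2 ≤ (Real.exp (2 * y) * S.card) ^ 2 :=
          pow_le_pow_left₀ (Nat.cast_nonneg _) hSN 2
      _ = Real.exp (2 * y) ^ 2 * (S.card : ℝ) ^ 2 := by ring
      _ = Real.exp (4 * y) * (S.card : ℝ) ^ 2 := by
          rw [← Real.exp_nat_mul]; congr 2; push_cast; ring
  have hav : (∑ n ∈ S, ∑ m ∈ S, Real.exp (2 * M * y *
      Xs y y1 (qv R (n + 1) - qv R (m + 1)))) / ((S.card : ℝ) * S.card) ≤ Real.exp (5 * y) := by
    rw [div_le_iff₀ (by positivity)]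
    refine hsub.trans ?_
    calc 2 * B * (N : ℝ) ^ 2 ≤ Real.exp y * (Real.exp (4 * y) * (S.card : ℝ) ^ 2) :=
          mul_le_mul h2B hNs (by positivity) (Real.exp_pos _).le
      _ = (Real.exp y * Real.exp (4 * y)) * (S.card : ℝ) ^ 2 := by ring
      _ = Real.exp (5 * y) * ((S.card : ℝ) * S.card) := by
          rw [← Real.exp_add]; ring_nf
  have h5 : Real.exp (5 * y) ≤ (1 + η) ^ (M * y) := by
    rw [pow_mul]
    calc Real.exp (5 * y) = Real.exp 5 ^ y := by rw [← Real.exp_nat_mul]; congr 1; ring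
      _ ≤ ((1 + η) ^ M) ^ y := pow_le_pow_left₀ (Real.exp_pos _).le hM.le y
  have h6 := (hpm.trans hav).trans h5
  have h7 : (∑ n ∈ S, ∑ m ∈ S, Real.exp (2 * Xs y y1 (qv R (n + 1) - qv R (m + 1)))) /
      ((S.card : ℝ) * S.card) ≤ 1 + η :=
    le_of_pow_le_pow_left₀ hk0 (by linarith) h6
  rw [div_le_iff₀ (by positivity)] at h7
  calc _ ≤ (1 + η) * ((S.card : ℝ) * S.card) := h7
    _ = _ := by ring

end Pool.Agent.PnU
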