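import Pool.Agent.PnU.Stage

/-!
# Two-parameter families: iteration over the scales
-/

open Finset Filter

namespace Pool.Agent.PnU

open Pool.Agent.PnLG Pool.Agent.PnT Pool.Agent.PnT.StageAux StageAux
open Pool.Agent.PnT.LevelsAux (mod_sub_dvd)

namespace LevelsAux

open Classical in
/-- number of pairs below `n` with `P` -/
noncomputable def cf2 (n : ℕ) (P : ℕ × ℕ → Prop) : ℝ :=
  (((range n ×ˢ range n).filter P).card : ℝ)

lemma cf2_eq (n : ℕ) (P : ℕ × ℕ → Prop) [DecidablePred P] :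
    (((range n ×ˢ range n).filter P).card : ℝ) = cf2 n P := by
  unfold cf2
  congr!

lemma cf2_mono {n : ℕ} {P P' : ℕ × ℕ → Prop} (h : ∀ t, P t → P' t) : cf2 n P ≤ cf2 n P' := by
  classical
  unfold cf2
  norm_cast
  apply Finset.card_le_card
  intro b hb
  have hb' := Finset.mem_filter.mp hb
  exact Finset.mem_filter.mpr ⟨hb'.1, h b hb'.2⟩

/-- a pair of classes -/
lemma card_class2 {m M α β : ℕ} (hα : α < m) (hβ : β < m) (h : m ∣ M) :
    (((range M ×ˢ range M).filter (fun t : ℕ × ℕ => t.1 % m = α ∧ t.2 % m = β)).card : ℝ) =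
      ((M : ℝ) / m) ^ 2 := by
  have e : (range M ×ˢ range M).filter (fun t : ℕ × ℕ => t.1 % m = α ∧ t.2 % m = β) =
      ((range M).filter (fun x => x % m = α)) ×ˢ ((range M).filter (fun x => x % m = β)) := by
    ext t
    simp only [Finset.mem_filter, Finset.mem_product]
    tauto
  rw [e, Finset.card_product]
  push_cast
  rw [card_class_dvd hα h, card_class_dvd hβ h]
  ring

lemma step2 {m M : ℕ} (hm : 0 < m) (hd : m ∣ M) (P D : ℕ × ℕ → Prop) (κ : ℝ)
    (h : ∀ α < m, ∀ β < m, κ * ((M : ℝ) / m) ^ 2 ≤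
      cf2 M (fun t : ℕ × ℕ => t.1 % m = α ∧ t.2 % m = β ∧ D t)) :
    cf2 M (fun t : ℕ × ℕ => P (t.1 % m, t.2 % m) ∧ ¬ D t) ≤
      (1 - κ) * ((M : ℝ) / m) ^ 2 * cf2 m P := by
  classical
  rw [← cf2_eq, ← cf2_eq]
  set S := (range M ×ˢ range M).filter (fun t : ℕ × ℕ => P (t.1 % m, t.2 % m) ∧ ¬ D t) with hS
  have h1 : S.card = ∑ y ∈ (range m ×ˢ range m).filter P,
      (S.filter (fun t => (t.1 % m, t.2 % m) = y)).card := by
    apply Finset.card_eq_sum_card_fiberwise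
    intro b hb
    have hb' := Finset.mem_filter.mp (Finset.mem_coe.mp hb)
    apply Finset.mem_coe.mpr
    apply Finset.mem_filter.mpr
    exact ⟨Finset.mem_product.mpr ⟨Finset.mem_range.mpr (Nat.mod_lt _ hm),
      Finset.mem_range.mpr (Nat.mod_lt _ hm)⟩, hb'.2.1⟩
  rw [h1, Nat.cast_sum]
  have h2 : ∀ y ∈ (range m ×ˢ range m).filter P,
      ((S.filter (fun t => (t.1 % m, t.2 % m) = y)).card : ℝ) ≤ (1 - κ) * ((M : ℝ) / m) ^ 2 := by
    rintro ⟨α, β⟩ hy
    have hy1 := Finset.mem_product.mp (Finset.mem_filter.mp hy).1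
    have hα' : α < m := Finset.mem_range.mp hy1.1
    have hβ' : β < m := Finset.mem_range.mp hy1.2
    have h3 := card_class2 hα' hβ' hd
    have h4 := h α hα' β hβ'
    rw [← cf2_eq] at h4
    have h5 : (((range M ×ˢ range M).filter
        (fun t : ℕ × ℕ => t.1 % m = α ∧ t.2 % m = β ∧ D t)).card : ℝ) +
        ((S.filter (fun t => (t.1 % m, t.2 % m) = (α, β))).card : ℝ) ≤
        (((range M ×ˢ range M).filter (fun t : ℕ × ℕ => t.1 % m = α ∧ t.2 % m = β)).card : ℝ) := by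
      rw [← Nat.cast_add, ← Finset.card_union_of_disjoint]
      · norm_cast
        apply Finset.card_le_card
        intro b hb
        rcases Finset.mem_union.mp hb with hb | hb
        · have h6 := Finset.mem_filter.mp hb
          exact Finset.mem_filter.mpr ⟨h6.1, h6.2.1, h6.2.2.1⟩
        · have h6 := Finset.mem_filter.mp hb
          have h7 := (Prod.mk.injEq _ _ _ _).mp h6.2
          exact Finset.mem_filter.mpr ⟨(Finset.mem_filter.mp h6.1).1, h7.1, h7.2⟩
      · rw [Finset.disjoint_left]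
        intro b hb hb2
        have h6 := Finset.mem_filter.mp hb
        have h7 := Finset.mem_filter.mp (Finset.mem_filter.mp hb2).1
        exact h7.2.2 h6.2.2.2
    rw [h3] at h5
    linarith
  have h3 := Finset.sum_le_card_nsmul _ _ _ h2
  rw [nsmul_eq_mul] at h3
  linarith

lemma pull2 {m M : ℕ} (hm : 0 < m) (hd : m ∣ M) (P : ℕ × ℕ → Prop) :
    cf2 M (fun t : ℕ × ℕ => P (t.1 % m, t.2 % m)) ≤ ((M : ℝ) / m) ^ 2 * cf2 m P := by
  have h := step2 hm hd P (fun _ => False) 0 (fun α _ β _ => by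
    rw [zero_mul]; unfold cf2; exact Nat.cast_nonneg _)
  refine (cf2_mono (fun t ht => ⟨ht, not_false⟩)).trans (h.trans (le_of_eq ?_))
  ring

end LevelsAux

open LevelsAux

/-- U5b -/
theorem levels_u (R : Polynomial ℚ) (D : ℕ) (hS : StageU R D) : LevelsU R D := by
  classical
  intro ε hε
  obtain ⟨κ, hκ, hκ1, z3, hS⟩ := hS
  obtain ⟨K0, hK0⟩ := exists_pow_lt_of_lt_one hε (show 1 - κ < 1 by linarith)
  have hK1 : (1 - κ) ^ (K0 + 1) ≤ ε := by
    refine le_trans ?_ hK0.le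
    rw [pow_succ]
    exact mul_le_of_le_one_right (pow_nonneg (by linarith) _) (by linarith)
  choose! Y hY1 hY2 using hS
  refine ⟨K0 + 1, fun y0 => ?_⟩
  -- the scales
  obtain ⟨zs, hzs0, hzss⟩ : ∃ zs : ℕ → ℕ, zs 0 = max y0 z3 ∧ ∀ j, zs (j + 1) = Y (zs j) :=
    ⟨fun j => Nat.rec (max y0 z3) (fun _ t => Y t) j, rfl, fun j => rfl⟩
  have hz3 : ∀ j, z3 ≤ zs j := by
    intro j
    induction j with
    | zero => rw [hzs0]; exact le_max_right _ _
    | succ j ih => rw [hzss]; exact ih.trans (hY1 _ ih)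
  have hmono1 : ∀ j, zs j ≤ zs (j + 1) := fun j => by
    rw [hzss]; exact hY1 _ (hz3 j)
  have hmono : Monotone zs := monotone_nat_of_le_succ hmono1
  have hy0 : ∀ j, y0 ≤ zs j := fun j => by
    have h1 := hmono (Nat.zero_le j)
    rw [hzs0] at h1
    exact (le_max_left y0 z3).trans h1
  -- the bad classes
  have main : ∀ j, ∀ᶠ N : ℕ in atTop, ∀ q : ℕ → ℤ, Per D q →
      cf2 (PP (zs j)) (fun t : ℕ × ℕ => ∀ i < j, ¬ Densef (fab q R t.1 t.2) (zs (i + 1)) N) ≤
        (1 - κ) ^ j * (PP (zs j) : ℝ) ^ 2 := by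
    intro j
    induction j with
    | zero =>
      apply Filter.Eventually.of_forall
      intro N q _
      rw [pow_zero, one_mul]
      unfold cf2
      have := Finset.card_filter_le (range (PP (zs 0)) ×ˢ range (PP (zs 0)))
        (fun t : ℕ × ℕ => ∀ i < 0, ¬ Densef (fab q R t.1 t.2) (zs (i + 1)) N)
      rw [Finset.card_product, Finset.card_range] at this
      have h2 : (((range (PP (zs 0)) ×ˢ range (PP (zs 0))).filter
        (fun t : ℕ × ℕ => ∀ i < 0, ¬ Densef (fab q R t.1 t.2) (zs (i + 1)) N)).card : ℝ) ≤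
          (PP (zs 0) : ℝ) ^ 2 := by
        rw [sq]; exact_mod_cast this
      refine le_trans (le_of_eq ?_) h2
      congr!
    | succ j ih =>
      filter_upwards [ih, hY2 (zs j) (hz3 j)] with N h1 h2
      intro q hq
      have h1 := h1 q hq
      have h2 := h2 q hq
      rw [← hzss] at h2
      have hd : PP (zs j) ∣ PP (zs (j + 1)) := PP_dvd (hmono1 j)
      have h3 := step2 (PP_pos (zs j)) hd
        (fun t : ℕ × ℕ => ∀ i < j, ¬ Densef (fab q R t.1 t.2) (zs (i + 1)) N)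
        (fun t : ℕ × ℕ => Densef (fab q R t.1 t.2) (zs (j + 1)) N) κ (fun α hα β hβ => by
          rw [← cf2_eq]
          exact h2 α hα β hβ)
      have h4 : cf2 (PP (zs (j + 1))) (fun t : ℕ × ℕ =>
            ∀ i < j + 1, ¬ Densef (fab q R t.1 t.2) (zs (i + 1)) N) ≤
          cf2 (PP (zs (j + 1))) (fun t : ℕ × ℕ =>
            (∀ i < j, ¬ Densef (fab q R ((t.1 % PP (zs j) : ℕ) : ℤ)
              ((t.2 % PP (zs j) : ℕ) : ℤ)) (zs (i + 1)) N) ∧
              ¬ Densef (fab q R t.1 t.2) (zs (j + 1)) N) := by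
        apply cf2_mono
        intro t ht
        refine ⟨?_, ht j (Nat.lt_succ_self j)⟩
        intro i hi
        rw [densef_congr q R _ N (mod_sub_dvd (PP_dvd (hmono (Nat.succ_le_of_lt hi))))
          (mod_sub_dvd (PP_dvd (hmono (Nat.succ_le_of_lt hi))))]
        exact ht i (by omega)
      refine h4.trans (h3.trans ?_)
      have hP : (0:ℝ) < PP (zs j) := by exact_mod_cast PP_pos (zs j)
      calc (1 - κ) * ((PP (zs (j + 1)) : ℝ) / PP (zs j)) ^ 2 *
            cf2 (PP (zs j)) (fun t : ℕ × ℕ =>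
              ∀ i < j, ¬ Densef (fab q R t.1 t.2) (zs (i + 1)) N)
          ≤ (1 - κ) * ((PP (zs (j + 1)) : ℝ) / PP (zs j)) ^ 2 *
              ((1 - κ) ^ j * (PP (zs j) : ℝ) ^ 2) :=
            mul_le_mul_of_nonneg_left h1
              (mul_nonneg (by linarith) (by positivity))
        _ = (1 - κ) ^ (j + 1) * (PP (zs (j + 1)) : ℝ) ^ 2 := by
            rw [pow_succ (1 - κ) j]
            field_simp
  refine ⟨(range (K0 + 1)).image (fun j => zs (j + 1)), ?_, ?_, ?_, ?_⟩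
  · exact ⟨zs 1, Finset.mem_image.mpr ⟨0, Finset.mem_range.mpr (Nat.succ_pos _), rfl⟩⟩
  · calc _ ≤ (range (K0 + 1)).card := Finset.card_image_le
      _ = K0 + 1 := Finset.card_range _
  · intro y hy
    obtain ⟨j, _, rfl⟩ := Finset.mem_image.mp hy
    exact hy0 (j + 1)
  · intro y1 hy1
    have hle : zs (K0 + 1) ≤ y1 :=
      hy1 _ (Finset.mem_image.mpr ⟨K0, Finset.mem_range.mpr (Nat.lt_succ_self _), rfl⟩)
    filter_upwards [main (K0 + 1)] with N h1
    intro q hq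
    have h1 := h1 q hq
    have hd : PP (zs (K0 + 1)) ∣ PP y1 := PP_dvd hle
    have h3 := pull2 (PP_pos (zs (K0 + 1))) hd
      (fun t : ℕ × ℕ => ∀ i < K0 + 1, ¬ Densef (fab q R t.1 t.2) (zs (i + 1)) N)
    have h4 : cf2 (PP y1) (fun t : ℕ × ℕ =>
        ∀ y ∈ (range (K0 + 1)).image (fun j => zs (j + 1)), ¬ Densef (fab q R t.1 t.2) y N) ≤
        cf2 (PP y1) (fun t : ℕ × ℕ =>
          ∀ i < K0 + 1, ¬ Densef (fab q R ((t.1 % PP (zs (K0 + 1)) : ℕ) : ℤ)
            ((t.2 % PP (zs (K0 + 1)) : ℕ) : ℤ)) (zs (i + 1)) N) := by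
      apply cf2_mono
      intro t ht i hi
      rw [densef_congr q R _ N (mod_sub_dvd (PP_dvd (hmono (Nat.succ_le_of_lt hi))))
          (mod_sub_dvd (PP_dvd (hmono (Nat.succ_le_of_lt hi))))]
      exact ht (zs (i + 1)) (Finset.mem_image.mpr ⟨i, Finset.mem_range.mpr hi, rfl⟩)
    have h5 : cf2 (PP y1) (fun t : ℕ × ℕ =>
        ∀ y ∈ (range (K0 + 1)).image (fun j => zs (j + 1)), ¬ Densef (fab q R t.1 t.2) y N) ≤
        ε * (PP y1 : ℝ) ^ 2 := by
      refine h4.trans (h3.trans ?_)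
      have hP : (0:ℝ) < PP (zs (K0 + 1)) := by exact_mod_cast PP_pos (zs (K0 + 1))
      calc ((PP y1 : ℝ) / PP (zs (K0 + 1))) ^ 2 *
            cf2 (PP (zs (K0 + 1))) (fun t : ℕ × ℕ =>
              ∀ i < K0 + 1, ¬ Densef (fab q R t.1 t.2) (zs (i + 1)) N)
          ≤ ((PP y1 : ℝ) / PP (zs (K0 + 1))) ^ 2 *
              ((1 - κ) ^ (K0 + 1) * (PP (zs (K0 + 1)) : ℝ) ^ 2) :=
            mul_le_mul_of_nonneg_left h1 (by positivity)
        _ = (1 - κ) ^ (K0 + 1) * (PP y1 : ℝ) ^ 2 := by field_simp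
        _ ≤ ε * (PP y1 : ℝ) ^ 2 := mul_le_mul_of_nonneg_right hK1 (by positivity)
    exact (@cf2_eq (PP y1) _ _).le.trans h5

end Pool.Agent.PnU
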