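import Pool.Agent.PnU.Defs
import Pool.Agent.PnT.Lift

/-!
# U4: from the scale `z` to the scale `y`, two parameters

First moment over `k₂` for every fixed `k₁`, and a reverse Markov inequality.
-/

open Finset Filter

namespace Pool.Agent.PnU

open Pool.Agent.PnLG Pool.Agent.PnT Pool.Agent.PnT.SZ Pool.Agent.PnT.Lift
open Pool.Agent.PnPoly.NC (np)

namespace LiftU

/-- the indices which are free of the primes `≤ z` -/
noncomputable def SF (f : ℕ → ℤ) (z N : ℕ) : Finset ℕ := by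
  classical
  exact (range N).filter (fun n => ∀ p ∈ Py z, ¬ (p : ℤ) ∣ sf f n)

lemma card_SF (f : ℕ → ℤ) (z N : ℕ) : (SF f z N).card = copf f z N := by
  classical
  unfold SF copf
  congr

lemma sf_add (f : ℕ → ℤ) (c : ℤ) (n : ℕ) : sf (fun m => f m + c) n = sf f n + 2 * (0 + c) := by
  unfold sf
  ring

lemma copf_eq (f : ℕ → ℤ) {z y : ℕ} (hzy : z ≤ y) (N : ℕ) (k : ℤ) :
    (copf (fun m => f m + (PP z : ℤ) * k) y N : ℝ) =
      ∑ n ∈ SF f z N, ind z y (sf f n + 2 * (0 + (PP z : ℤ) * k)) := by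
  classical
  rw [← card_SF]
  unfold SF
  rw [sum_filter, card_eq_sum_ones, sum_filter]
  push_cast
  refine sum_congr rfl fun n _ => ?_
  rw [sf_add]
  have hz : ∀ p ∈ Py z, ((p : ℤ) ∣ sf f n + 2 * (0 + (PP z : ℤ) * k) ↔ (p : ℤ) ∣ sf f n) := by
    intro p hp
    have h1 : (p : ℤ) ∣ (PP z : ℤ) * (2 * k) :=
      (Int.natCast_dvd_natCast.mpr (dvd_PP hp)).mul_right _
    have h2 : sf f n + 2 * (0 + (PP z : ℤ) * k) = sf f n + (PP z : ℤ) * (2 * k) := by ring
    rw [h2]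
    exact Int.dvd_add_left h1
  by_cases h1 : ∀ p ∈ Py z, ¬ (p : ℤ) ∣ sf f n
  · rw [if_pos h1]
    unfold ind
    by_cases h2 : ∀ p ∈ Py y \ Py z, ¬ (p : ℤ) ∣ sf f n + 2 * (0 + (PP z : ℤ) * k)
    · rw [if_pos h2, if_pos]
      intro p hp
      by_cases hpz : p ∈ Py z
      · rw [hz p hpz]; exact h1 p hpz
      · exact h2 p (mem_sdiff.mpr ⟨hp, hpz⟩)
    · rw [if_neg h2, if_neg]
      intro h3
      exact h2 fun p hp => h3 p (mem_sdiff.mp hp).1
  · rw [if_neg h1, if_neg]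
    intro h3
    apply h1
    intro p hp
    rw [← hz p hp]
    exact h3 p (Py_sub hzy hp)

/-- first moment -/
lemma sum_copf (f : ℕ → ℤ) {z y : ℕ} (hz : 2 ≤ z) (hzy : z ≤ y) (N : ℕ) :
    ∑ k ∈ range (∏ p ∈ Py y \ Py z, p), (copf (fun m => f m + (PP z : ℤ) * (k : ℤ)) y N : ℝ) =
      tw z y * (((∏ p ∈ Py y \ Py z, p : ℕ) : ℝ) * (copf f z N : ℝ)) := by
  have h1 := W_mean z y hz 0 (SF f z N) (fun n => sf f n)
  rw [card_SF] at h1
  rw [← h1, mul_sum]
  refine sum_congr rfl fun k _ => ?_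
  rw [copf_eq f hzy, mul_sum]
  refine sum_congr rfl fun n _ => ?_
  rw [ind_eq]
  rfl

lemma copf_le (f : ℕ → ℤ) {z y : ℕ} (hzy : z ≤ y) (N : ℕ) (k : ℤ) :
    (copf (fun m => f m + (PP z : ℤ) * k) y N : ℝ) ≤ (copf f z N : ℝ) := by
  rw [copf_eq f hzy, ← card_SF f z]
  refine (sum_le_sum fun n _ => ind_le z y _).trans (le_of_eq ?_)
  rw [sum_const, nsmul_eq_mul, mul_one]

/-- the scale `z` does not see multiples of `P(z)` -/
lemma copf_congr (f g : ℕ → ℤ) (z N : ℕ) (h : ∀ m, (PP z : ℤ) ∣ f m - g m) :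
    copf f z N = copf g z N := by
  classical
  unfold copf
  congr 1
  refine filter_congr fun n _ => ?_
  refine forall_congr' fun p => forall_congr' fun hp => ?_
  have h1 : (p : ℤ) ∣ sf f n - sf g n := by
    have h2 : sf f n - sf g n = (f (n + 1) - g (n + 1)) * 2 := by
      unfold sf
      ring
    rw [h2]
    exact ((Int.natCast_dvd_natCast.mpr (dvd_PP hp)).trans (h (n + 1))).mul_right _
  rw [not_iff_not]
  constructor
  · intro h3
    have := dvd_sub h3 h1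
    rwa [sub_sub_cancel] at this
  · intro h3
    have := dvd_add h1 h3
    rwa [sub_add_cancel] at this

/-- one parameter -/
lemma lift_one (f : ℕ → ℤ) {z y : ℕ} (hz : 2 ≤ z) (hzy : z ≤ y) (N : ℕ) :
    1 / 2 * tw z y * ((∏ p ∈ Py y \ Py z, p : ℕ) : ℝ) ≤
      (((range (∏ p ∈ Py y \ Py z, p)).filter (fun k : ℕ =>
        1 / 2 * tw z y * (copf f z N : ℝ) ≤
          (copf (fun m => f m + (PP z : ℤ) * (k : ℤ)) y N : ℝ))).card : ℝ) :=
  rev_markov _ (fun k => (copf (fun m => f m + (PP z : ℤ) * (k : ℤ)) y N : ℝ)) (tw z y)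
    (copf f z N : ℝ) (tw_pos z y).le (tw_le_one z y) (Nat.cast_nonneg _)
    (fun k => Nat.cast_nonneg _) (fun k => copf_le f hzy N k) (sum_copf f hz hzy N)

end LiftU

open LiftU

/-- U4 -/
theorem lift_u (R : Polynomial ℚ) : Pool.Agent.PnU.LiftU R := by
  classical
  intro q z y N a b hz hzy ha hb
  obtain ⟨P, hP⟩ : ∃ P, P = ∏ p ∈ Py y \ Py z, p := ⟨_, rfl⟩
  have hsplit : PP y = PP z * P := by rw [hP]; exact PP_split hzy
  have hz0 : (0 : ℝ) < PP z := by exact_mod_cast PP_pos z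
  obtain ⟨c, hc⟩ : ∃ c, c = (copf (fab q R a b) z N : ℝ) := ⟨_, rfl⟩
  have h1 : ∀ k₁ : ℕ, 1 / 2 * tw z y * (P : ℝ) ≤
      (((range P).filter (fun k₂ : ℕ => 1 / 2 * tw z y * c ≤
        (copf (fab q R ((a + PP z * k₁ : ℕ) : ℤ) ((b + PP z * k₂ : ℕ) : ℤ)) y N : ℝ))).card : ℝ) := by
    intro k₁
    have h2 := lift_one (fab q R ((a + PP z * k₁ : ℕ) : ℤ) (b : ℤ)) hz hzy N
    rw [← hP] at h2
    have h3 : copf (fab q R ((a + PP z * k₁ : ℕ) : ℤ) (b : ℤ)) z N = copf (fab q R a b) z N := by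
      refine copf_congr _ _ z N fun m => ?_
      refine ⟨(k₁ : ℤ) * qv R m, ?_⟩
      unfold fab
      push_cast
      ring
    rw [h3, ← hc] at h2
    refine h2.trans (le_of_eq ?_)
    congr 2
    refine filter_congr fun k₂ _ => ?_
    have h4 : (fun m => fab q R ((a + PP z * k₁ : ℕ) : ℤ) (b : ℤ) m + (PP z : ℤ) * (k₂ : ℤ)) =
        fab q R ((a + PP z * k₁ : ℕ) : ℤ) ((b + PP z * k₂ : ℕ) : ℤ) := by
      funext m
      unfold fab
      push_cast
      ring
    rw [h4]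
  have h2 : ((PP y : ℕ) : ℝ) / PP z = P := by
    rw [hsplit]
    push_cast
    field_simp
  rw [h2, ← hc]
  have h5 : 1 / 2 * tw z y * (P : ℝ) ^ 2 ≤ (((range P ×ˢ range P).filter (fun k : ℕ × ℕ =>
      1 / 2 * tw z y * c ≤
        (copf (fab q R ((a + PP z * k.1 : ℕ) : ℤ) ((b + PP z * k.2 : ℕ) : ℤ)) y N : ℝ))).card : ℝ) := by
    have h6 : ((range P ×ˢ range P).filter (fun k : ℕ × ℕ =>
        1 / 2 * tw z y * c ≤
          (copf (fab q R ((a + PP z * k.1 : ℕ) : ℤ) ((b + PP z * k.2 : ℕ) : ℤ)) y N : ℝ))).card =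
        ∑ k₁ ∈ range P, ((range P).filter (fun k₂ : ℕ => 1 / 2 * tw z y * c ≤
          (copf (fab q R ((a + PP z * k₁ : ℕ) : ℤ) ((b + PP z * k₂ : ℕ) : ℤ)) y N : ℝ))).card := by
      simp only [card_filter]
      rw [sum_product]
    rw [h6]
    push_cast
    have h7 : ∑ k₁ ∈ range P, (1 / 2 * tw z y * (P : ℝ)) = 1 / 2 * tw z y * (P : ℝ) ^ 2 := by
      rw [sum_const, card_range, nsmul_eq_mul]
      ring
    rw [← h7]
    refine sum_le_sum fun k₁ _ => ?_
    have := h1 k₁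
    push_cast at this
    exact this
  refine h5.trans ?_
  rw [Nat.cast_le]
  refine card_le_card_of_injOn (fun k => (a + PP z * k.1, b + PP z * k.2)) ?_ ?_
  · intro k hk
    rw [mem_coe, mem_filter, mem_product, mem_range, mem_range] at hk
    obtain ⟨⟨hk1, hk2⟩, hk3⟩ := hk
    have hlt : ∀ c k : ℕ, c < PP z → k < P → c + PP z * k < PP y := by
      intro c k hc hk
      rw [hsplit]
      calc c + PP z * k < PP z + PP z * k := by omega
        _ = PP z * (k + 1) := by ring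
        _ ≤ PP z * P := Nat.mul_le_mul_left _ hk
    rw [mem_coe, mem_filter, mem_product, mem_range, mem_range]
    refine ⟨⟨hlt a _ ha hk1, hlt b _ hb hk2⟩, ?_, ?_, ?_⟩
    · show (a + PP z * k.1) % PP z = a
      rw [Nat.add_mul_mod_self_left, Nat.mod_eq_of_lt ha]
    · show (b + PP z * k.2) % PP z = b
      rw [Nat.add_mul_mod_self_left, Nat.mod_eq_of_lt hb]
    · exact hk3
  · intro k _ k' _ h
    have h' : (a + PP z * k.1, b + PP z * k.2) = (a + PP z * k'.1, b + PP z * k'.2) := h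
    obtain ⟨h3, h4⟩ := Prod.mk.inj h'
    refine Prod.ext ?_ ?_
    · have h5 : PP z * k.1 = PP z * k'.1 := by omega
      exact Nat.eq_of_mul_eq_mul_left (PP_pos z) h5
    · have h5 : PP z * k.2 = PP z * k'.2 := by omega
      exact Nat.eq_of_mul_eq_mul_left (PP_pos z) h5

end Pool.Agent.PnU
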