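import Pool.Agent.PnU.Defs
import Pool.Agent.PnT.Levels

/-!
# Two-parameter families: one stage

`StageZU` at the scale `z`, then the lift from `z` to `y = ⌈z^C⌉`.
-/

open Finset Filter

namespace Pool.Agent.PnU

open Pool.Agent.PnLG Pool.Agent.PnT Pool.Agent.PnT.StageAux

namespace StageAux

/-- the number of good indices depends on `(a, b)` modulo `PP y` only -/
lemma copf_congr (q : ℕ → ℤ) (R : Polynomial ℚ) (y N : ℕ) {a a' b b' : ℤ}
    (ha : (PP y : ℤ) ∣ a - a') (hb : (PP y : ℤ) ∣ b - b') :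
    copf (fab q R a b) y N = copf (fab q R a' b') y N := by
  unfold copf
  congr 1
  apply Finset.filter_congr
  intro n _
  have key : ∀ p ∈ Py y, ((p : ℤ) ∣ sf (fab q R a b) n ↔ (p : ℤ) ∣ sf (fab q R a' b') n) := by
    intro p hp
    have h0 : (p : ℤ) ∣ (PP y : ℤ) := Int.natCast_dvd_natCast.mpr (dvd_PP hp)
    have h1 : (p : ℤ) ∣ a - a' := h0.trans ha
    have h1' : (p : ℤ) ∣ b - b' := h0.trans hb
    have h2 : (p : ℤ) ∣ sf (fab q R a b) n - sf (fab q R a' b') n := by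
      have : sf (fab q R a b) n - sf (fab q R a' b') n =
          (a - a') * (2 * qv R (n + 1)) + (b - b') * 2 := by
        unfold sf fab
        ring
      rw [this]
      exact dvd_add (h1.mul_right _) (h1'.mul_right _)
    exact (dvd_iff_dvd_of_dvd_sub h2)
  constructor
  · intro h1 p hp; rw [← key p hp]; exact h1 p hp
  · intro h1 p hp; rw [key p hp]; exact h1 p hp

lemma densef_congr (q : ℕ → ℤ) (R : Polynomial ℚ) (y N : ℕ) {a a' b b' : ℤ}
    (ha : (PP y : ℤ) ∣ a - a') (hb : (PP y : ℤ) ∣ b - b') :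
    Densef (fab q R a b) y N ↔ Densef (fab q R a' b') y N := by
  unfold Densef
  rw [copf_congr q R y N ha hb]

end StageAux

open StageAux

/-- U5a -/
theorem stage_u (R : Polynomial ℚ) (D : ℕ) (hZ : StageZU R D) (hL : LiftU R) : StageU R D := by
  classical
  obtain ⟨κ, C, hκ, hC, z3, hZ⟩ := hZ
  obtain ⟨C1, hC1, hth⟩ := Pool.Agent.HLT.th_ratio
  have hCC : 0 < 4 * C1 * C := by positivity
  have hCC1 : 1 ≤ 4 * C1 * C := by nlinarith
  refine ⟨min 1 (κ / (4 * C1 * C)), lt_min one_pos (by positivity), min_le_left _ _, z3, ?_⟩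
  intro z0 hz0
  obtain ⟨z, ⟨hz2, hzz0, hzC⟩, hz⟩ := ((eventually_ge_atTop 2).and
    ((eventually_ge_atTop z0).and (eventually_ge_atTop ⌈4 * C1 * C⌉₊)) |>.and (hZ z0 hz0)).exists
  have hz1r : (1:ℝ) ≤ z := by exact_mod_cast (by omega : 1 ≤ z)
  have hz2r : (2:ℝ) ≤ z := by exact_mod_cast hz2
  have hzCr : 4 * C1 * C ≤ z := (Nat.le_ceil _).trans (by exact_mod_cast hzC)
  have hzp : (z:ℝ) ≤ (z:ℝ) ^ C := by
    calc (z:ℝ) = (z:ℝ) ^ (1:ℝ) := (Real.rpow_one _).symm
      _ ≤ (z:ℝ) ^ C := Real.rpow_le_rpow_of_exponent_le hz1r hC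
  set y := ⌈(z:ℝ) ^ C⌉₊ with hy
  have hyr : (z:ℝ) ^ C ≤ y := Nat.le_ceil _
  have hzy : z ≤ y := by
    have : (z:ℝ) ≤ y := hzp.trans hyr
    exact_mod_cast this
  refine ⟨y, hzz0.trans hzy, ?_⟩
  -- the loss of the lift
  have htw : 1 / (4 * C1 * C) ≤ 1 / 2 * tw z y := by
    have hlz : 0 < Real.log z := Real.log_pos (by linarith)
    have hyle : (y:ℝ) ≤ 2 * (z:ℝ) ^ C := by
      have := (Nat.ceil_lt_add_one (by positivity : (0:ℝ) ≤ (z:ℝ) ^ C)).le
      linarith
    have hlogy : Real.log y ≤ 2 * C * Real.log z := by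
      have h1 : Real.log y ≤ Real.log (2 * (z:ℝ) ^ C) :=
        Real.log_le_log (by exact_mod_cast (by omega : 0 < y)) hyle
      rw [Real.log_mul (by norm_num) (by positivity), Real.log_rpow (by linarith)] at h1
      have h2 : Real.log 2 ≤ Real.log z := Real.log_le_log (by norm_num) hz2r
      have h3 : Real.log z ≤ C * Real.log z := by nlinarith
      linarith
    have h1 := hth z y hz2 hzy
    rw [← tw_eq_th] at h1
    have htp : 0 < tw z y := by rw [tw_eq_th]; exact Pool.Agent.HLT.th_pos z y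
    have h2 : (tw z y)⁻¹ ≤ 2 * C1 * C := by
      refine h1.trans ?_
      have : Real.log y / Real.log z ≤ 2 * C := by
        rw [div_le_iff₀ hlz]; exact hlogy
      calc C1 * (Real.log y / Real.log z) ≤ C1 * (2 * C) :=
            mul_le_mul_of_nonneg_left this (by linarith)
        _ = 2 * C1 * C := by ring
    have h3 : 1 / (2 * C1 * C) ≤ tw z y := by
      rw [one_div]
      have := inv_anti₀ (inv_pos.mpr htp) h2
      rwa [inv_inv] at this
    calc 1 / (4 * C1 * C) = 1 / 2 * (1 / (2 * C1 * C)) := by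
          field_simp
          norm_num
      _ ≤ 1 / 2 * tw z y := by linarith
  have hexp : 1 ≤ Real.exp ((z:ℝ) ^ C) * (1 / (4 * C1 * C)) := by
    rw [mul_one_div, le_div_iff₀ hCC, one_mul]
    have := Real.add_one_le_exp ((z:ℝ) ^ C)
    linarith
  filter_upwards [hz] with N hN
  intro q hq α hα β hβ
  have hgood := hN q hq α hα β hβ
  set G := (range (PP z) ×ˢ range (PP z)).filter (fun t : ℕ × ℕ =>
    t.1 % PP z0 = α ∧ t.2 % PP z0 = β ∧
    (N : ℝ) ≤ Real.exp ((z : ℝ) ^ C) * (copf (fab q R t.1 t.2) z N : ℝ)) with hG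
  set E := (range (PP y) ×ˢ range (PP y)).filter (fun t : ℕ × ℕ =>
    t.1 % PP z0 = α ∧ t.2 % PP z0 = β ∧ Densef (fab q R t.1 t.2) y N) with hE
  have hPz : (0:ℝ) < PP z := by exact_mod_cast PP_pos z
  have hPz0 : (0:ℝ) < PP z0 := by exact_mod_cast PP_pos z0
  have hPy : (0:ℝ) < PP y := by exact_mod_cast PP_pos y
  -- the sub-classes of a good class
  have hfib : ∀ t ∈ G, 1 / (4 * C1 * C) * ((PP y : ℝ) / PP z) ^ 2 ≤
      ((E.filter (fun t' => (t'.1 % PP z, t'.2 % PP z) = t)).card : ℝ) := by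
    rintro ⟨a, b⟩ hb
    rw [hG, Finset.mem_filter, Finset.mem_product, Finset.mem_range, Finset.mem_range] at hb
    obtain ⟨⟨ha1, hb1⟩, ha2, hb2, hb3⟩ := hb
    simp only at ha1 hb1 ha2 hb2 hb3
    have h1 := hL q z y N a b hz2 hzy ha1 hb1
    have h2 : 1 / (4 * C1 * C) * ((PP y : ℝ) / PP z) ^ 2 ≤
        1 / 2 * tw z y * ((PP y : ℝ) / PP z) ^ 2 :=
      mul_le_mul_of_nonneg_right htw (by positivity)
    refine h2.trans (h1.trans ?_)
    norm_cast
    apply Finset.card_le_card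
    intro t' ht'
    rw [Finset.mem_filter, Finset.mem_product, Finset.mem_range, Finset.mem_range] at ht'
    obtain ⟨⟨h3, h3'⟩, h4, h4', h5⟩ := ht'
    rw [Finset.mem_filter, hE, Finset.mem_filter, Finset.mem_product, Finset.mem_range,
      Finset.mem_range]
    refine ⟨⟨⟨h3, h3'⟩, ?_, ?_, ?_⟩, Prod.ext h4 h4'⟩
    · rw [← ha2, ← h4]
      exact (Nat.mod_mod_of_dvd t'.1 (PP_dvd hzz0)).symm
    · rw [← hb2, ← h4']
      exact (Nat.mod_mod_of_dvd t'.2 (PP_dvd hzz0)).symm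
    · unfold Densef
      have hcz : 0 ≤ (copf (fab q R a b) z N : ℝ) := Nat.cast_nonneg _
      have h6 : 1 / (4 * C1 * C) * (copf (fab q R a b) z N : ℝ) ≤
          (copf (fab q R t'.1 t'.2) y N : ℝ) :=
        (mul_le_mul_of_nonneg_right htw hcz).trans h5
      have h7 : Real.exp ((z:ℝ) ^ C) * Real.exp ((z:ℝ) ^ C) ≤ Real.exp (2 * y) := by
        rw [← Real.exp_add]
        apply Real.exp_le_exp.mpr
        linarith
      calc (N:ℝ) ≤ Real.exp ((z:ℝ) ^ C) * (copf (fab q R a b) z N : ℝ) := hb3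
        _ ≤ Real.exp ((z:ℝ) ^ C) * ((Real.exp ((z:ℝ) ^ C) * (1 / (4 * C1 * C))) *
              (copf (fab q R a b) z N : ℝ)) := by
            refine mul_le_mul_of_nonneg_left ?_ (Real.exp_pos _).le
            exact le_mul_of_one_le_left hcz hexp
        _ = (Real.exp ((z:ℝ) ^ C) * Real.exp ((z:ℝ) ^ C)) *
              (1 / (4 * C1 * C) * (copf (fab q R a b) z N : ℝ)) := by ring
        _ ≤ Real.exp (2 * y) * (copf (fab q R t'.1 t'.2) y N : ℝ) :=
            mul_le_mul h7 h6 (by positivity) (Real.exp_pos _).le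
  -- sum over the good classes
  have hsum : ∑ t ∈ G, ((E.filter (fun t' => (t'.1 % PP z, t'.2 % PP z) = t)).card : ℝ) ≤
      (E.card : ℝ) := by
    have h1 : ∑ t ∈ G, (E.filter (fun t' => (t'.1 % PP z, t'.2 % PP z) = t)).card =
        (E.filter (fun t' => (t'.1 % PP z, t'.2 % PP z) ∈ G)).card := by
      rw [Finset.card_eq_sum_card_fiberwise (f := fun t' : ℕ × ℕ => (t'.1 % PP z, t'.2 % PP z))
        (t := G)]
      · apply Finset.sum_congr rfl
        intro b hb
        congr 1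
        ext b'
        constructor
        · intro h
          obtain ⟨h1, h2⟩ := Finset.mem_filter.mp h
          exact Finset.mem_filter.mpr ⟨Finset.mem_filter.mpr ⟨h1, by rw [h2]; exact hb⟩, h2⟩
        · intro h
          obtain ⟨h1, h2⟩ := Finset.mem_filter.mp h
          exact Finset.mem_filter.mpr ⟨(Finset.mem_filter.mp h1).1, h2⟩
      · intro b' hb'
        exact (Finset.mem_filter.mp (Finset.mem_coe.mp hb')).2
    have h2 : (E.filter (fun t' => (t'.1 % PP z, t'.2 % PP z) ∈ G)).card ≤ E.card :=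
      Finset.card_le_card (Finset.filter_subset _ _)
    rw [← Nat.cast_sum, h1]
    exact_mod_cast h2
  have hlow : (G.card : ℝ) * (1 / (4 * C1 * C) * ((PP y : ℝ) / PP z) ^ 2) ≤
      ∑ t ∈ G, ((E.filter (fun t' => (t'.1 % PP z, t'.2 % PP z) = t)).card : ℝ) := by
    rw [← nsmul_eq_mul]
    exact Finset.card_nsmul_le_sum _ _ _ hfib
  calc min 1 (κ / (4 * C1 * C)) * ((PP y : ℝ) / PP z0) ^ 2
      ≤ (κ / (4 * C1 * C)) * ((PP y : ℝ) / PP z0) ^ 2 :=
        mul_le_mul_of_nonneg_right (min_le_right _ _) (by positivity)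
    _ = (κ * ((PP z : ℝ) / PP z0) ^ 2) * (1 / (4 * C1 * C) * ((PP y : ℝ) / PP z) ^ 2) := by
        field_simp
    _ ≤ (G.card : ℝ) * (1 / (4 * C1 * C) * ((PP y : ℝ) / PP z) ^ 2) :=
        mul_le_mul_of_nonneg_right hgood (by positivity)
    _ ≤ (E.card : ℝ) := hlow.trans hsum

end Pool.Agent.PnU
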