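import Pool.Agent.PnU.Defs
import Pool.Agent.PnT.Window

/-!
# Second moment over a residue class of `(a, b)`

For numbers `v_i + 2 (a w_i + b)`, `i ∈ I`: for many `(a, b)` in a residue class modulo the primes
`≤ z0` one of these numbers is coprime to all primes in `(z0, z]`.
-/

open Finset Filter

namespace Pool.Agent.PnU

open Pool.Agent.PnLG Pool.Agent.PnT
open Pool.Agent.PnT.WindowAux

namespace WindowAux

/-- the Chinese remainder theorem in two variables, for sums of products of local functions -/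
lemma sum_prod_crt2 (S : Finset ℕ) (hS : ∀ p ∈ S, p.Prime) (f : ℕ → ℕ → ℕ → ℝ)
    (h1 : ∀ p ∈ S, ∀ k l, f p (k + p) l = f p k l) (h2 : ∀ p ∈ S, ∀ k l, f p k (l + p) = f p k l) :
    ∑ k ∈ range (∏ p ∈ S, p), ∑ l ∈ range (∏ p ∈ S, p), ∏ p ∈ S, f p k l =
      ∏ p ∈ S, ∑ k ∈ range p, ∑ l ∈ range p, f p k l := by
  have e1 : ∀ k ∈ range (∏ p ∈ S, p), ∑ l ∈ range (∏ p ∈ S, p), ∏ p ∈ S, f p k l =
      ∏ p ∈ S, ∑ l ∈ range p, f p k l := fun k _ =>
    sum_prod_crt S hS (fun p l => f p k l) (fun p hp l => h2 p hp k l)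
  rw [Finset.sum_congr rfl e1]
  exact sum_prod_crt S hS (fun p k => ∑ l ∈ range p, f p k l) (fun p hp k =>
    Finset.sum_congr rfl fun l _ => h1 p hp k l)

/-- exact count for a pair, one variable -/
lemma local_pair (p : ℕ) (hp : p.Prime) (hp2 : p ≠ 2) (a c s s' : ℤ) (hc : ¬ (p : ℤ) ∣ c) :
    ∑ k ∈ range p, nd p (s + 2 * (a + c * (k : ℤ))) * nd p (s' + 2 * (a + c * (k : ℤ))) =
      if (p : ℤ) ∣ s - s' then (p : ℝ) - 1 else (p : ℝ) - 2 := by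
  obtain ⟨k₀, hk₀, h⟩ := local_exists p hp hp2 a c s hc
  obtain ⟨k₁, hk₁, h'⟩ := local_exists p hp hp2 a c s' hc
  have h1 : ∑ k ∈ range p, nd p (s + 2 * (a + c * (k : ℤ))) * nd p (s' + 2 * (a + c * (k : ℤ)))
      = (((range p).filter (fun k => k ≠ k₀ ∧ k ≠ k₁)).card : ℝ) := by
    rw [Finset.card_filter, Nat.cast_sum]
    refine Finset.sum_congr rfl (fun k hk => ?_)
    unfold nd
    rw [if_congr (h k hk) rfl rfl, if_congr (h' k hk) rfl rfl]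
    by_cases h2 : k = k₀
    · rw [if_pos h2, zero_mul, if_neg (fun hh => hh.1 h2)]; simp
    · by_cases h3 : k = k₁
      · rw [if_pos h3, mul_zero, if_neg (fun hh => hh.2 h3)]; simp
      · rw [if_neg h2, if_neg h3, if_pos ⟨h2, h3⟩]; simp
  rw [h1]
  have hcard : (range p).filter (fun k => k ≠ k₀ ∧ k ≠ k₁) = ((range p).erase k₀).erase k₁ := by
    ext k
    simp only [mem_filter, mem_erase, mem_range]
    tauto
  rw [hcard]
  by_cases hd : (p : ℤ) ∣ s - s'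
  · rw [if_pos hd]
    have hkk : k₁ = k₀ := by
      rw [← h k₁ hk₁]
      have h3 := (h' k₁ hk₁).mpr rfl
      have h4 := dvd_add hd h3
      have h5 : s - s' + (s' + 2 * (a + c * (k₁ : ℤ))) = s + 2 * (a + c * (k₁ : ℤ)) := by ring
      rwa [h5] at h4
    rw [hkk, erase_idem, card_erase_of_mem hk₀, card_range, Nat.cast_sub hp.one_lt.le,
      Nat.cast_one]
  · rw [if_neg hd]
    have hkk : k₁ ≠ k₀ := by
      intro hkk
      apply hd
      have h3 := (h' k₁ hk₁).mpr rfl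
      have h4 := (h k₁ hk₁).mpr hkk
      have h5 := dvd_sub h4 h3
      have h6 : s + 2 * (a + c * (k₁ : ℤ)) - (s' + 2 * (a + c * (k₁ : ℤ))) = s - s' := by ring
      rwa [h6] at h5
    have hp2' : 2 ≤ p := hp.two_le
    rw [card_erase_of_mem (mem_erase.mpr ⟨hkk, hk₁⟩), card_erase_of_mem hk₀, card_range,
      Nat.sub_sub, Nat.cast_sub hp2']
    push_cast
    ring

/-- the pair factor in two variables -/
lemma local_pair2 (p : ℕ) (hp : p.Prime) (hp2 : p ≠ 2) (α β M s s' w w' : ℤ)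
    (hM : ¬ (p : ℤ) ∣ M) :
    ∑ k ∈ range p, ∑ l ∈ range p,
      nd p (s + 2 * ((α + M * (k : ℤ)) * w + (β + M * (l : ℤ)))) *
      nd p (s' + 2 * ((α + M * (k : ℤ)) * w' + (β + M * (l : ℤ)))) ≤
      (p : ℝ) ^ 2 * (1 - 1 / (p : ℝ)) ^ 2 * pf p (w - w') := by
  have hp1 : (1 : ℝ) < p := by exact_mod_cast hp.one_lt
  have hp0 : (p : ℝ) ≠ 0 := by linarith
  have hpp : (p : ℝ) - 1 ≠ 0 := by linarith
  have e1 : ∀ k : ℕ, ∑ l ∈ range p,
      nd p (s + 2 * ((α + M * (k : ℤ)) * w + (β + M * (l : ℤ)))) *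
      nd p (s' + 2 * ((α + M * (k : ℤ)) * w' + (β + M * (l : ℤ)))) =
      if (p : ℤ) ∣ (s - s') + 2 * (α * (w - w') + (M * (w - w')) * (k : ℤ))
        then (p : ℝ) - 1 else (p : ℝ) - 2 := by
    intro k
    have h1 := local_pair p hp hp2 β M (s + 2 * ((α + M * (k : ℤ)) * w))
      (s' + 2 * ((α + M * (k : ℤ)) * w')) hM
    have e3 : s + 2 * ((α + M * (k : ℤ)) * w) - (s' + 2 * ((α + M * (k : ℤ)) * w')) =
        (s - s') + 2 * (α * (w - w') + (M * (w - w')) * (k : ℤ)) := by ring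
    rw [e3] at h1
    rw [← h1]
    refine Finset.sum_congr rfl fun l _ => ?_
    congr 2 <;> ring
  rw [Finset.sum_congr rfl fun k _ => e1 k]
  unfold pf
  by_cases hd : (p : ℤ) ∣ w - w'
  · rw [if_pos hd]
    have h2 : ∑ k ∈ range p, (if (p : ℤ) ∣ (s - s') + 2 * (α * (w - w') + (M * (w - w')) * (k : ℤ))
        then (p : ℝ) - 1 else (p : ℝ) - 2) ≤ ∑ k ∈ range p, ((p : ℝ) - 1) := by
      refine Finset.sum_le_sum fun k _ => ?_
      split_ifs <;> linarith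
    refine h2.trans (le_of_eq ?_)
    rw [sum_const, card_range, nsmul_eq_mul]
    field_simp
  · rw [if_neg hd, mul_one]
    have hc : ¬ (p : ℤ) ∣ M * (w - w') := by
      intro h
      rcases (Nat.prime_iff_prime_int.mp hp).dvd_or_dvd h with h | h
      · exact hM h
      · exact hd h
    obtain ⟨k₀, hk₀, h⟩ := local_exists p hp hp2 (α * (w - w')) (M * (w - w')) (s - s') hc
    have h2 : ∑ k ∈ range p, (if (p : ℤ) ∣ (s - s') + 2 * (α * (w - w') + (M * (w - w')) * (k : ℤ))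
        then (p : ℝ) - 1 else (p : ℝ) - 2) =
        ((p : ℝ) - 1) + ∑ k ∈ (range p).erase k₀, ((p : ℝ) - 2) := by
      rw [← Finset.add_sum_erase _ _ hk₀, if_pos ((h k₀ hk₀).mpr rfl)]
      congr 1
      refine Finset.sum_congr rfl fun k hk => ?_
      rw [mem_erase] at hk
      rw [if_neg (fun hd => hk.1 ((h k hk.2).mp hd))]
    rw [h2, sum_const, card_erase_of_mem hk₀, card_range, nsmul_eq_mul,
      Nat.cast_sub hp.one_lt.le, Nat.cast_one]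
    refine le_of_eq ?_
    field_simp
    ring

lemma per1 (p : ℕ) (s w α β M : ℤ) (k : ℕ) :
    nd p (s + 2 * ((α + M * ((k + p : ℕ) : ℤ)) * w + β)) =
      nd p (s + 2 * ((α + M * (k : ℤ)) * w + β)) := by
  unfold nd
  have h1 : s + 2 * ((α + M * ((k + p : ℕ) : ℤ)) * w + β) =
      s + 2 * ((α + M * (k : ℤ)) * w + β) + (p : ℤ) * (2 * M * w) := by push_cast; ring
  rw [h1]
  simp only [Int.dvd_add_left (Dvd.intro _ rfl)]

lemma per2 (p : ℕ) (s γ β M : ℤ) (l : ℕ) :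
    nd p (s + 2 * (γ + (β + M * ((l + p : ℕ) : ℤ)))) =
      nd p (s + 2 * (γ + (β + M * (l : ℤ)))) := by
  unfold nd
  have h1 : s + 2 * (γ + (β + M * ((l + p : ℕ) : ℤ))) =
      s + 2 * (γ + (β + M * (l : ℤ))) + (p : ℤ) * (2 * M) := by push_cast; ring
  rw [h1]
  simp only [Int.dvd_add_left (Dvd.intro _ rfl)]

lemma mean1 {z0 z : ℕ} (hz0 : 2 ≤ z0) (α β s w : ℤ) :
    ∑ k ∈ range (∏ p ∈ Py z \ Py z0, p), ∑ l ∈ range (∏ p ∈ Py z \ Py z0, p),
      ∏ p ∈ Py z \ Py z0, nd p (s + 2 * ((α + (PP z0 : ℤ) * (k : ℤ)) * w +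
        (β + (PP z0 : ℤ) * (l : ℤ)))) = ((∏ p ∈ Py z \ Py z0, p : ℕ) : ℝ) ^ 2 * tw z0 z := by
  have h1 : ∀ k ∈ range (∏ p ∈ Py z \ Py z0, p), ∑ l ∈ range (∏ p ∈ Py z \ Py z0, p),
      ∏ p ∈ Py z \ Py z0, nd p (s + 2 * ((α + (PP z0 : ℤ) * (k : ℤ)) * w +
        (β + (PP z0 : ℤ) * (l : ℤ)))) = ((∏ p ∈ Py z \ Py z0, p : ℕ) : ℝ) * tw z0 z := by
    intro k _
    rw [← PnT.WindowAux.mean1 (z := z) hz0 β (s + 2 * ((α + (PP z0 : ℤ) * (k : ℤ)) * w))]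
    refine Finset.sum_congr rfl fun l _ => Finset.prod_congr rfl fun p _ => ?_
    congr 1
    ring
  rw [Finset.sum_congr rfl h1, sum_const, card_range, nsmul_eq_mul]
  ring

lemma mean2 {z0 z : ℕ} (hz0 : 2 ≤ z0) (α β s s' w w' : ℤ) :
    ∑ k ∈ range (∏ p ∈ Py z \ Py z0, p), ∑ l ∈ range (∏ p ∈ Py z \ Py z0, p),
      (∏ p ∈ Py z \ Py z0, nd p (s + 2 * ((α + (PP z0 : ℤ) * (k : ℤ)) * w +
        (β + (PP z0 : ℤ) * (l : ℤ))))) *
      (∏ p ∈ Py z \ Py z0, nd p (s' + 2 * ((α + (PP z0 : ℤ) * (k : ℤ)) * w' +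
        (β + (PP z0 : ℤ) * (l : ℤ))))) ≤
      ((∏ p ∈ Py z \ Py z0, p : ℕ) : ℝ) ^ 2 * tw z0 z ^ 2 * ∏ p ∈ Py z \ Py z0, pf p (w - w') := by
  simp_rw [← Finset.prod_mul_distrib]
  rw [sum_prod_crt2 (Py z \ Py z0) (fun p hp => (WMom_mem hp).1)
    (fun p k l => nd p (s + 2 * ((α + (PP z0 : ℤ) * (k : ℤ)) * w + (β + (PP z0 : ℤ) * (l : ℤ)))) *
      nd p (s' + 2 * ((α + (PP z0 : ℤ) * (k : ℤ)) * w' + (β + (PP z0 : ℤ) * (l : ℤ)))))
    (fun p _ k l => by simp only [per1]) (fun p _ k l => by simp only [per2])]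
  unfold tw
  rw [Nat.cast_prod, ← Finset.prod_pow, ← Finset.prod_pow, ← Finset.prod_mul_distrib,
    ← Finset.prod_mul_distrib]
  refine Finset.prod_le_prod (fun p hp => Finset.sum_nonneg fun k _ => Finset.sum_nonneg fun l _ =>
    mul_nonneg (nd_nonneg _ _) (nd_nonneg _ _)) fun p hp => ?_
  have h := WMom_mem hp
  exact local_pair2 p h.1 (by omega) α β _ s s' w w' (WMom_ndvd hp)

end WindowAux

/-- second moment over `(a, b)` in a residue class -/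
theorem window_u : WindowU := by
  classical
  intro d z0 r z I v w α β hz0 h0 h1 hI hL hS
  set S := Py z \ Py z0 with hSdef
  set P : ℕ := ∏ p ∈ S, p with hP
  set θ : ℝ := tw z0 z with hθ
  have hPpos : 0 < P := Finset.prod_pos fun p hp => (WMom_mem hp).1.pos
  have hPR : (0 : ℝ) < P := by exact_mod_cast hPpos
  have hθ0 : 0 < θ := Finset.prod_pos fun p hp => one_sub_pos (WMom_mem hp).1
  have hIc : (0 : ℝ) < I.card := by exact_mod_cast hI.card_pos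
  set A : ℕ → ℕ × ℕ → ℝ := fun i k => ∏ p ∈ S, nd p (v i + 2 * ((α + (PP z0 : ℤ) * (k.1 : ℤ)) * w i +
    (β + (PP z0 : ℤ) * (k.2 : ℤ)))) with hA
  set T : ℕ × ℕ → ℝ := fun k => ∑ i ∈ I, A i k with hT
  set X := range P ×ˢ range P with hX
  have hm : ∑ k ∈ X, T k = (P : ℝ) ^ 2 * θ * I.card := by
    rw [hT, Finset.sum_comm]
    have h2 : ∀ i ∈ I, ∑ k ∈ X, A i k = (P : ℝ) ^ 2 * θ := by
      intro i _
      rw [hX, Finset.sum_product]
      exact WindowAux.mean1 hz0 α β (v i) (w i)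
    rw [Finset.sum_congr rfl h2, Finset.sum_const, nsmul_eq_mul]
    ring
  have hsq : ∑ k ∈ X, T k ^ 2 ≤ (P : ℝ) ^ 2 * θ * (3 * (I.card : ℝ) ^ 2 * θ + d * I.card) := by
    have h2 : ∑ k ∈ X, T k ^ 2 = ∑ i ∈ I, ∑ j ∈ I, ∑ k ∈ X, A i k * A j k := by
      rw [Finset.sum_congr rfl (fun k _ => by rw [hT, sq, Finset.sum_mul_sum])]
      rw [Finset.sum_comm]
      refine Finset.sum_congr rfl fun i _ => ?_
      rw [Finset.sum_comm]
    rw [h2]
    calc ∑ i ∈ I, ∑ j ∈ I, ∑ k ∈ X, A i k * A j k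
        ≤ ∑ i ∈ I, ∑ j ∈ I, (P : ℝ) ^ 2 * θ ^ 2 * ∏ p ∈ S, pf p (w i - w j) := by
          refine Finset.sum_le_sum fun i _ => Finset.sum_le_sum fun j _ => ?_
          rw [hX, Finset.sum_product]
          exact WindowAux.mean2 hz0 α β (v i) (v j) (w i) (w j)
      _ = (P : ℝ) ^ 2 * θ * (θ * ∑ i ∈ I, ∑ j ∈ I, ∏ p ∈ S, pf p (w i - w j)) := by
          rw [Finset.mul_sum, Finset.mul_sum]
          refine Finset.sum_congr rfl fun i _ => ?_
          rw [Finset.mul_sum, Finset.mul_sum]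
          refine Finset.sum_congr rfl fun j _ => ?_
          ring
      _ ≤ (P : ℝ) ^ 2 * θ * (3 * (I.card : ℝ) ^ 2 * θ + d * I.card) :=
          mul_le_mul_of_nonneg_left (pairs_sum h0 h1 hL hS) (by positivity)
  set G := X.filter (fun k : ℕ × ℕ => ∃ i ∈ I, ∀ p ∈ S,
      ¬ (p : ℤ) ∣ v i + 2 * ((α + (PP z0 : ℤ) * (k.1 : ℤ)) * w i + (β + (PP z0 : ℤ) * (k.2 : ℤ))))
    with hG
  have hTG : ∀ k ∈ X, k ∉ G → T k = 0 := by
    intro k hk hkG
    refine Finset.sum_eq_zero fun i hi => ?_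
    by_contra hne
    apply hkG
    refine mem_filter.mpr ⟨hk, i, hi, fun p hp hdvd => hne ?_⟩
    exact Finset.prod_eq_zero hp (if_pos hdvd)
  have hsumG : ∑ k ∈ G, T k = (P : ℝ) ^ 2 * θ * I.card := by
    rw [← hm]
    exact Finset.sum_subset (filter_subset _ _) fun k hk hkG => hTG k hk hkG
  have hsqG : ∑ k ∈ G, T k ^ 2 ≤ (P : ℝ) ^ 2 * θ * (3 * (I.card : ℝ) ^ 2 * θ + d * I.card) :=
    (Finset.sum_le_sum_of_subset_of_nonneg (filter_subset _ _) fun k _ _ => sq_nonneg _).trans hsq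
  have hcs : (∑ k ∈ G, T k) ^ 2 ≤ (G.card : ℝ) * ∑ k ∈ G, T k ^ 2 := sq_sum_le_card_mul_sum_sq
  have h5 : ((P : ℝ) ^ 2 * θ * I.card) ^ 2 ≤
      (G.card : ℝ) * ((P : ℝ) ^ 2 * θ * (3 * (I.card : ℝ) ^ 2 * θ + d * I.card)) := by
    rw [← hsumG]
    exact hcs.trans (mul_le_mul_of_nonneg_left hsqG (Nat.cast_nonneg _))
  have hden : 0 < 3 * ((I.card : ℝ) * θ) + d := by positivity
  rw [div_mul_eq_mul_div, div_le_iff₀ hden]
  have hpos : 0 < (P : ℝ) ^ 2 * θ * I.card := by positivity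
  have h6 : ((P : ℝ) ^ 2 * θ * I.card) * ((I.card : ℝ) * θ * (P : ℝ) ^ 2) ≤
      ((P : ℝ) ^ 2 * θ * I.card) * ((G.card : ℝ) * (3 * ((I.card : ℝ) * θ) + d)) := by
    calc ((P : ℝ) ^ 2 * θ * I.card) * ((I.card : ℝ) * θ * (P : ℝ) ^ 2) =
        ((P : ℝ) ^ 2 * θ * I.card) ^ 2 := by ring
      _ ≤ (G.card : ℝ) * ((P : ℝ) ^ 2 * θ * (3 * (I.card : ℝ) ^ 2 * θ + d * I.card)) := h5
      _ = ((P : ℝ) ^ 2 * θ * I.card) * ((G.card : ℝ) * (3 * ((I.card : ℝ) * θ) + d)) := by ring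
  exact le_of_mul_le_mul_left h6 hpos

end Pool.Agent.PnU
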