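import Pool.Agent.PnU.StageZ
import Pool.Agent.PnU.AllMod
import Pool.Agent.PnU.Choose
import Pool.Agent.PnU.Hold
import Pool.Agent.PnU.Levels
import Pool.Agent.PnU.Lift
import Pool.Agent.PnU.Stage
import Pool.Agent.PnU.Window
import Pool.Agent.PnT.All
import Pool.Agent.PosProp.MainC

/-!
# Assembly of the local part, two parameters
-/

open Finset Filter

namespace Pool.Agent.PnU

open Pool.Agent.PnLG Pool.Agent.PnT

theorem local_u (hDM : ∀ R : Polynomial ℚ, HoldU R → DenseModU R) (R : Polynomial ℚ) (D : ℕ)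
    (hR : IntVal R) (hdeg : 1 ≤ R.natDegree) (hD : 1 ≤ D) (hDR : Per D (qv R)) : AllModU R D := by
  have hroots : RootsP R := roots R hR hdeg
  have hPP : PosProp := posProp_of (Pool.Agent.PosProp.posprop_of_main Pool.Agent.PosProp.Main.pp7)
  exact all_mod_u (levels_u R D (stage_u R D (stageZ_u R D hD hDR hPP hroots window_u
    (choose_u D hD) (pairs R hroots)) (lift_u R))) (hDM R (hold_u R hroots))

end Pool.Agent.PnU
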