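import Pool.Agent.PnU.Defs
import Pool.Agent.PnT.StageZ

/-!
# U3: the scale `z`, density `exp(-z^C)`, for a positive proportion of the `(a, b)` in every class
-/

open Finset Filter

namespace Pool.Agent.PnU

open Pool.Agent.PnLG Pool.Agent.PnT
open Pool.Agent.PnPoly.NC (np)

lemma per_fab {D : ℕ} {q : ℕ → ℤ} {R : Polynomial ℚ} (hq : Per D q) (hR : Per D (qv R)) (a b : ℤ) :
    Per D (fab q R a b) := by
  intro p hp m m' h
  have e : fab q R a b m - fab q R a b m' = (q m - q m') + a * (qv R m - qv R m') := by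
    unfold fab; ring
  rw [e]
  exact dvd_add (hq p hp m m' h) (Dvd.dvd.mul_left (hR p hp m m' h) a)

namespace SZU

lemma per_Py {D : ℕ} {f : ℕ → ℤ} (hf : Per D f) {z p : ℕ} (hp : p ∈ Py z) (m m' : ℕ)
    (h : m ≡ m' [MOD (∏ p ∈ Py z, p ^ (D.factorization p + 1))]) :
    (p : ℤ) ∣ f m - f m' :=
  hf p (SZ.mem_Py.mp hp).1 m m' (h.of_dvd
    (dvd_prod_of_mem (fun p => p ^ (D.factorization p + 1)) hp))

/-- strings in the class `c` modulo `PP z` and in the class `ν0` modulo `G` -/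
lemma cop_ge {D : ℕ} {f : ℕ → ℤ} (hf : Per D f) (z N r ν0 c i : ℕ) (S : Finset ℕ)
    (hS : ∀ j ∈ S, j + r ≤ N ∧ j % (∏ p ∈ Py z, p ^ (D.factorization p + 1)) = ν0 ∧
      ∀ i < r, np (j + i) % PP z = c % PP z) (hi : i < r)
    (hb : ∀ p ∈ Py z, ¬ (p : ℤ) ∣ c + 2 * f (ν0 + 1 + i)) :
    S.card ≤ copf f z N := by
  unfold copf
  refine card_le_card_of_injOn (fun j => j + i) ?_ (fun a _ b _ h => by simpa using h)
  intro j hj
  obtain ⟨h1, h2, h3⟩ := hS j (mem_coe.mp hj)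
  rw [mem_coe, mem_filter, mem_range]
  refine ⟨by show j + i < N; omega, fun p hp hd => hb p hp ?_⟩
  have e1 : (p : ℤ) ∣ (np (j + i) : ℤ) - c := by
    have h4 : (np (j + i) : ℤ) ≡ c [ZMOD PP z] := by
      have := h3 i hi
      exact (Int.natCast_modEq_iff).mpr this
    have h5 : ((PP z : ℕ) : ℤ) ∣ (np (j + i) : ℤ) - c := (Int.modEq_iff_dvd.mp h4.symm)
    exact dvd_trans (Int.natCast_dvd_natCast.mpr (SZ.dvd_PP hp)) h5
  have e2 : (p : ℤ) ∣ f (j + i + 1) - f (ν0 + 1 + i) := by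
    refine per_Py hf hp _ _ ?_
    have h4 : j ≡ ν0 [MOD (∏ p ∈ Py z, p ^ (D.factorization p + 1))] := by
      have h5 := Nat.mod_modEq j (∏ p ∈ Py z, p ^ (D.factorization p + 1))
      rw [h2] at h5
      exact h5.symm
    have h5 := h4.add_right (i + 1)
    have e : ν0 + 1 + i = ν0 + (i + 1) := by ring
    rw [e]
    exact h5
  have e3 : (c : ℤ) + 2 * f (ν0 + 1 + i) = sf f (j + i) -
      ((np (j + i) : ℤ) - c) - 2 * (f (j + i + 1) - f (ν0 + 1 + i)) := by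
    unfold sf; ring
  rw [e3]
  exact dvd_sub (dvd_sub hd e1) (Dvd.dvd.mul_left e2 2)

open Classical in
/-- the second moment over `(a, b)` -/
lemma window_b (q : ℕ → ℤ) (R : Polynomial ℚ) (hW : WindowU) (d z0 r z c c0 α β ν : ℕ) (e0 : ℝ)
    (he0 : 0 < e0) (hz0 : 2 ≤ z0) (h1 : z0 ≤ r) (h2 : r ≤ z) (hc : c ≡ c0 [MOD PP z0])
    (hα : α < PP z0) (hβ : β < PP z0) (I : Finset ℕ) (hne : I.Nonempty)
    (hI : ∀ i ∈ I, ∀ p ∈ Py z0, ¬ (p : ℤ) ∣ c0 + 2 * fab q R α β (ν + i))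
    (hd : ∀ p ∈ Py z \ Py r, ∀ j ∈ I,
      (I.filter (fun i : ℕ => (p : ℤ) ∣ qv R (ν + i) - qv R (ν + j))).card ≤ d)
    (hp : ∑ i ∈ I, ∑ j ∈ I, ∏ p ∈ (Py r \ Py z0).filter
      (fun p : ℕ => (p : ℤ) ∣ qv R (ν + i) - qv R (ν + j)), (1 - 1 / (p : ℝ))⁻¹ ≤
        3 * (I.card : ℝ) ^ 2)
    (he : e0 ≤ I.card * tw z0 z) :
    e0 / (3 * e0 + d) * ((PP z : ℝ) / PP z0) ^ 2 ≤
      (((range (PP z) ×ˢ range (PP z)).filter (fun t : ℕ × ℕ =>
      t.1 % PP z0 = α ∧ t.2 % PP z0 = β ∧ ∃ i ∈ I, ∀ p ∈ Py z,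
        ¬ (p : ℤ) ∣ c + 2 * fab q R t.1 t.2 (ν + i))).card : ℝ) := by
  have key := hW d z0 r z I (fun i => (c : ℤ) + 2 * q (ν + i)) (fun i => qv R (ν + i))
    (α : ℤ) (β : ℤ) hz0 h1 h2 hne hd hp
  have hz : z0 ≤ z := h1.trans h2
  have hsplit := SZ.PP_split hz
  set M := ∏ p ∈ Py z \ Py z0, p with hM
  have hP0 : (0 : ℝ) < (PP z0 : ℝ) := by exact_mod_cast SZ.PP_pos z0
  have hMr : (PP z : ℝ) / PP z0 = (M : ℝ) := by
    rw [hsplit]
    push_cast
    field_simp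
  rw [hMr]
  have hmono : e0 / (3 * e0 + d) ≤ (I.card * tw z0 z) / (3 * (I.card * tw z0 z) + d) := by
    have hd0 : (0 : ℝ) ≤ (d : ℝ) := Nat.cast_nonneg d
    rw [div_le_div_iff₀ (by positivity) (by nlinarith)]
    nlinarith
  refine le_trans (mul_le_mul_of_nonneg_right hmono (by positivity)) (le_trans key ?_)
  have hcard : ((range M ×ˢ range M).filter (fun k : ℕ × ℕ => ∃ i ∈ I, ∀ p ∈ Py z \ Py z0,
      ¬ (p : ℤ) ∣ (c : ℤ) + 2 * q (ν + i) + 2 * (((α : ℤ) + (PP z0 : ℤ) * (k.1 : ℤ)) * qv R (ν + i) +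
        ((β : ℤ) + (PP z0 : ℤ) * (k.2 : ℤ))))).card ≤
      ((range (PP z) ×ˢ range (PP z)).filter (fun t : ℕ × ℕ =>
      t.1 % PP z0 = α ∧ t.2 % PP z0 = β ∧ ∃ i ∈ I, ∀ p ∈ Py z,
        ¬ (p : ℤ) ∣ c + 2 * fab q R t.1 t.2 (ν + i))).card := by
    have hlt : ∀ γ k : ℕ, γ < PP z0 → k < M → γ + PP z0 * k < PP z := by
      intro γ k hγ hk
      rw [hsplit]
      calc γ + PP z0 * k < PP z0 + PP z0 * k := by omega
        _ = PP z0 * (k + 1) := by ring
        _ ≤ PP z0 * M := Nat.mul_le_mul_left _ hk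
    refine card_le_card_of_injOn (fun k => (α + PP z0 * k.1, β + PP z0 * k.2)) ?_ ?_
    · intro k hk
      rw [mem_coe, mem_filter, mem_product, mem_range, mem_range] at hk
      obtain ⟨⟨hk1, hk1'⟩, i, hi, hk2⟩ := hk
      rw [mem_coe, mem_filter, mem_product, mem_range, mem_range]
      refine ⟨⟨hlt α k.1 hα hk1, hlt β k.2 hβ hk1'⟩, ?_, ?_, i, hi, ?_⟩
      · show (α + PP z0 * k.1) % PP z0 = α
        rw [Nat.add_mul_mod_self_left, Nat.mod_eq_of_lt hα]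
      · show (β + PP z0 * k.2) % PP z0 = β
        rw [Nat.add_mul_mod_self_left, Nat.mod_eq_of_lt hβ]
      · intro p hpz hdv
        have e0 : (c : ℤ) + 2 * fab q R (((α + PP z0 * k.1 : ℕ)) : ℤ) (((β + PP z0 * k.2 : ℕ)) : ℤ)
            (ν + i) = (c : ℤ) + 2 * q (ν + i) +
              2 * (((α : ℤ) + (PP z0 : ℤ) * (k.1 : ℤ)) * qv R (ν + i) +
                ((β : ℤ) + (PP z0 : ℤ) * (k.2 : ℤ))) := by
          unfold fab
          push_cast
          ring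
        by_cases hp0 : p ∈ Py z0
        · refine hI i hi p hp0 ?_
          have hpd : (p : ℤ) ∣ (PP z0 : ℤ) := Int.natCast_dvd_natCast.mpr (SZ.dvd_PP hp0)
          have hcc : (p : ℤ) ∣ (c : ℤ) - c0 := by
            have h4 : (c : ℤ) ≡ c0 [ZMOD PP z0] := (Int.natCast_modEq_iff).mpr hc
            exact dvd_trans hpd (Int.modEq_iff_dvd.mp h4.symm)
          have e1 : (c0 : ℤ) + 2 * fab q R α β (ν + i) =
              ((c : ℤ) + 2 * fab q R (((α + PP z0 * k.1 : ℕ)) : ℤ) (((β + PP z0 * k.2 : ℕ)) : ℤ)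
                (ν + i)) - ((c : ℤ) - c0) -
              (PP z0 : ℤ) * (2 * (k.1 * qv R (ν + i) + k.2)) := by
            unfold fab
            push_cast; ring
          rw [e1]
          exact dvd_sub (dvd_sub hdv hcc) (Dvd.dvd.mul_right hpd _)
        · refine hk2 p ?_ ?_
          · rw [Finset.mem_sdiff]; exact ⟨hpz, hp0⟩
          · have hdv' : (p : ℤ) ∣ (c : ℤ) + 2 * fab q R (((α + PP z0 * k.1 : ℕ)) : ℤ)
              (((β + PP z0 * k.2 : ℕ)) : ℤ) (ν + i) := hdv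
            rw [e0] at hdv'
            exact hdv'
    · intro a _ b _ h
      have h' : (α + PP z0 * a.1, β + PP z0 * a.2) = (α + PP z0 * b.1, β + PP z0 * b.2) := h
      rw [Prod.mk.injEq] at h'
      have h3 : PP z0 * a.1 = PP z0 * b.1 := by omega
      have h4 : PP z0 * a.2 = PP z0 * b.2 := by omega
      exact Prod.ext (Nat.eq_of_mul_eq_mul_left (SZ.PP_pos z0) h3)
        (Nat.eq_of_mul_eq_mul_left (SZ.PP_pos z0) h4)
  exact_mod_cast hcard

end SZU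

open SZU

theorem stageZ_u (R : Polynomial ℚ) (D : ℕ) (hD : 1 ≤ D) (hDR : Per D (qv R)) (hPP : PosProp)
    (hR : RootsP R) (hW : WindowU) (hC : ChooseU D) (hP : PairsP R) : StageZU R D := by
  obtain ⟨C1, hC1, hpp⟩ := hPP
  obtain ⟨d, z1, hd1, hR⟩ := hR
  obtain ⟨z2, hP⟩ := hP
  obtain ⟨CM, hCM, hM⟩ := Pool.Agent.HLT.th_lower
  obtain ⟨e0, he0⟩ : ∃ e0 : ℝ, e0 = 1 / (4 * CM) := ⟨_, rfl⟩
  have he0p : 0 < e0 := by rw [he0]; positivity
  refine ⟨e0 / (3 * e0 + (2 * d : ℕ)), C1 + 3, by positivity, by linarith, max z2 2,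
    fun z0 hz0 => ?_⟩
  have hz02 : z2 ≤ z0 := le_trans (le_max_left _ _) hz0
  have hz0' : 2 ≤ z0 := le_trans (le_max_right _ _) hz0
  obtain ⟨G0, hG0⟩ := hC z0
  have hrt : Tendsto (fun z : ℕ => ⌊Real.log z⌋₊) atTop atTop :=
    tendsto_nat_floor_atTop.comp (Real.tendsto_log_atTop.comp tendsto_natCast_atTop_atTop)
  filter_upwards [hrt.eventually (hP z0 hz02),
    hrt.eventually_ge_atTop (max (max G0 z0) (max z1 2)), eventually_ge_atTop 3,
    eventually_ge_atTop ⌈Real.log (2 * D)⌉₊] with z hz1 hz2 hz3 hz4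
  have hz4' : Real.log (2 * D) ≤ z := (Nat.le_ceil _).trans (by exact_mod_cast hz4)
  have hsize := SZ.size_le D hD C1 hC1 z hz3 hz4'
  obtain ⟨r, hr⟩ : ∃ r : ℕ, r = ⌊Real.log z⌋₊ := ⟨_, rfl⟩
  rw [← hr] at hz1 hz2 hsize
  have hrG : G0 ≤ r := le_trans (le_trans (le_max_left _ _) (le_max_left _ _)) hz2
  have hrz0 : z0 ≤ r := le_trans (le_trans (le_max_right _ _) (le_max_left _ _)) hz2
  have hrz1 : z1 ≤ r := le_trans (le_trans (le_max_left _ _) (le_max_right _ _)) hz2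
  have hr2 : 2 ≤ r := le_trans (le_trans (le_max_right _ _) (le_max_right _ _)) hz2
  have hz0r : (0 : ℝ) < z := by exact_mod_cast (by omega : 0 < z)
  have hlz : 0 ≤ Real.log z := Real.log_natCast_nonneg _
  have hrlog : (r : ℝ) ≤ Real.log z := by rw [hr]; exact Nat.floor_le hlz
  have hlogr : Real.log z < r + 1 := by rw [hr]; exact Nat.lt_floor_add_one _
  have hrz : r ≤ z := by
    have h5 : Real.log z ≤ z := (Real.log_le_sub_one_of_pos hz0r).trans (by linarith)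
    exact_mod_cast hrlog.trans h5
  have hzz : z0 ≤ z := hrz0.trans hrz
  have hN : ∀ᶠ N : ℕ in atTop, ∀ c ∈ range (PP z), Nat.Coprime c (PP z) →
      (N : ℝ) ≤ Real.exp (Real.exp (C1 * r) * (1 + Real.log (PP z))) *
        (((range N).filter (fun j => ∀ i < r, np (j + i) % PP z = c % PP z)).card : ℝ) := by
    rw [Filter.eventually_all_finset]
    intro c _
    by_cases hcc : Nat.Coprime c (PP z)
    · filter_upwards [hpp r (PP z) c (by omega) (SZ.PP_pos z) hcc] with N hN _ using hN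
    · exact Eventually.of_forall fun N h => absurd h hcc
  have hN' := (tendsto_sub_atTop_nat r).eventually hN
  filter_upwards [hN', eventually_ge_atTop (2 * r)] with N hN1 hN2 q hq α hα β hβ
  have hfper := per_fab hq hDR (α : ℤ) (β : ℤ)
  obtain ⟨c0, hc0, hG0⟩ := hG0 (fab q R α β) hfper
  obtain ⟨c1, hcc1, hcm1⟩ := SZ.exists_c z0 z c0 hzz hc0
  obtain ⟨c, hcdef⟩ : ∃ c : ℕ, c = c1 % PP z := ⟨_, rfl⟩
  have hcmod : c ≡ c1 [MOD PP z] := by rw [hcdef]; exact Nat.mod_modEq _ _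
  have hcc : Nat.Coprime c (PP z) := by
    have h := hcmod.gcd_eq
    unfold Nat.Coprime at hcc1 ⊢
    rw [h, hcc1]
  have hcm : c ≡ c0 [MOD PP z0] := by
    have hdvd : PP z0 ∣ PP z := ⟨_, SZ.PP_split hzz⟩
    exact (hcmod.of_dvd hdvd).trans hcm1
  have hcr : c ∈ range (PP z) := by
    rw [mem_range, hcdef]; exact Nat.mod_lt _ (SZ.PP_pos z)
  have hN1 := hN1 c hcr hcc
  set G := ∏ p ∈ Py z, p ^ (D.factorization p + 1) with hG
  have hGpos : 0 < G := prod_pos fun p hp => pow_pos (SZ.mem_Py.mp hp).1.pos _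
  have hGle : G ≤ D * 4 ^ z := RootAux.prod_bound D z hD
  obtain ⟨S, hS⟩ : ∃ S : Finset ℕ, S = (range (N - r)).filter
    (fun j => ∀ i < r, np (j + i) % PP z = c % PP z) := ⟨_, rfl⟩
  rw [← hS] at hN1
  obtain ⟨ν0, hν0, hpig⟩ := SZ.pigeon S G hGpos
  set I := (range r).filter (fun i : ℕ => ∀ p ∈ Py z0,
    ¬ (p : ℤ) ∣ c0 + 2 * fab q R α β (ν0 + 1 + i)) with hI
  have hIc : 1 / 2 * (r * tw 0 z0) ≤ (I.card : ℝ) := by
    have h := hG0 r hrG (ν0 + 1)
    rw [hI]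
    convert h
  have hIr : I ⊆ range r := filter_subset _ _
  have hr0 : (0 : ℝ) < r := by exact_mod_cast (by omega : 0 < r)
  have hIpos : (0 : ℝ) < I.card := lt_of_lt_of_le (by have := SZ.tw_pos 0 z0; positivity) hIc
  have hne : I.Nonempty := by
    rw [← card_pos]; exact_mod_cast hIpos
  have hqiv : ∀ i : ℕ, qi R (((ν0 + 1 : ℕ) : ℤ) + i) = qv R (ν0 + 1 + i) := by
    intro i
    rw [SZ.qv_qi]
    push_cast
    rfl
  have he : e0 ≤ I.card * tw z0 z := by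
    have h1 : 1 / 2 * (r * tw 0 z0) * tw z0 z ≤ I.card * tw z0 z :=
      mul_le_mul_of_nonneg_right hIc (SZ.tw_pos z0 z).le
    have h2 : 1 / 2 * (r * tw 0 z0) * tw z0 z = 1 / 2 * (r * tw 0 z) := by
      rw [← SZ.tw_mul (Nat.zero_le z0) hzz]; ring
    have h3 := hM 0 z (by omega)
    rw [← SZ.tw_eq_th] at h3
    have h4 := SZ.tw_pos 0 z
    have h5 : 1 ≤ CM * Real.log z * tw 0 z := by
      calc (1 : ℝ) = (tw 0 z)⁻¹ * tw 0 z := by rw [inv_mul_cancel₀ h4.ne']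
        _ ≤ CM * Real.log z * tw 0 z := mul_le_mul_of_nonneg_right h3 h4.le
    have h6 : Real.log z ≤ 2 * r := by
      have : (2 : ℝ) ≤ r := by exact_mod_cast hr2
      linarith
    have h7 : CM * Real.log z * tw 0 z ≤ CM * (2 * r) * tw 0 z :=
      mul_le_mul_of_nonneg_right (mul_le_mul_of_nonneg_left h6 (by linarith)) h4.le
    rw [he0, div_le_iff₀ (by positivity)]
    calc (1 : ℝ) ≤ CM * (2 * r) * tw 0 z := h5.trans h7
      _ = (1 / 2 * (r * tw 0 z)) * (4 * CM) := by ring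
      _ ≤ I.card * tw z0 z * (4 * CM) := by
        refine mul_le_mul_of_nonneg_right ?_ (by positivity)
        rw [← h2]; exact h1
  have hpairs := hz1 ((ν0 + 1 : ℕ) : ℤ) I hIr hIc
  simp only [hqiv] at hpairs
  have key := window_b q R hW (2 * d) z0 r z c c0 α β (ν0 + 1) e0 he0p hz0' hrz0 hrz hcm hα hβ I hne
    (fun i hi => (mem_filter.mp hi).2) (by
      intro p hp j hj
      have hm := SZ.mem_diff.mp hp
      have h1 := hR {p} (by
        intro q hq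
        rw [mem_singleton] at hq
        subst hq
        exact ⟨hm.1, by omega⟩) (qv R (ν0 + 1 + j)) ((ν0 + 1 : ℕ) : ℤ) r
      rw [card_singleton, pow_one, prod_singleton] at h1
      have hp0 : (0 : ℝ) < p := by exact_mod_cast hm.1.pos
      have h2 : (r : ℝ) / p ≤ 1 := by
        rw [div_le_one hp0]; exact_mod_cast hm.2.1.le
      have h3 : (d : ℝ) * ((r : ℝ) / p + 1) ≤ ((2 * d : ℕ) : ℝ) := by
        push_cast
        have : (0 : ℝ) ≤ d := Nat.cast_nonneg d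
        nlinarith
      have h4 := h1.trans h3
      have h5 : (I.filter (fun i : ℕ => (p : ℤ) ∣ qv R (ν0 + 1 + i) -
          qv R (ν0 + 1 + j))).card ≤ ((range r).filter (fun i : ℕ => ∀ p' ∈ ({p} : Finset ℕ),
          (p' : ℤ) ∣ qi R (((ν0 + 1 : ℕ) : ℤ) + i) - qv R (ν0 + 1 + j))).card := by
        refine card_le_card fun i hi => ?_
        rw [mem_filter] at hi ⊢
        refine ⟨hIr hi.1, fun p' hp' => ?_⟩
        rw [mem_singleton] at hp'
        subst hp'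
        rw [hqiv]
        exact hi.2
      exact_mod_cast (Nat.cast_le.mpr h5).trans h4) hpairs he
  refine key.trans ?_
  refine Nat.cast_le.mpr (card_le_card fun t ht => ?_)
  rw [mem_filter] at ht ⊢
  obtain ⟨hb1, hb2, hb2', i, hi, hb3⟩ := ht
  refine ⟨hb1, hb2, hb2', ?_⟩
  have hir : i < r := mem_range.mp (hIr hi)
  have h1 := cop_ge (per_fab hq hDR (t.1 : ℤ) (t.2 : ℤ)) z N r ν0 c i
    (S.filter (fun j => j % G = ν0)) (by
    intro j hj
    rw [mem_filter, hS, mem_filter, mem_range] at hj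
    exact ⟨by omega, hj.2, hj.1.2⟩) hir hb3
  have h2 : (((S.filter (fun j => j % G = ν0)).card : ℕ) : ℝ) ≤
      (copf (fab q R t.1 t.2) z N : ℝ) := by
    exact_mod_cast h1
  have h3 : (N : ℝ) ≤ 2 * ((N - r : ℕ) : ℝ) := by
    have : N ≤ 2 * (N - r) := by omega
    exact_mod_cast this
  set E := Real.exp (Real.exp (C1 * r) * (1 + Real.log (PP z))) with hE
  have hE0 : 0 < E := Real.exp_pos _
  have hGR : ((G : ℕ) : ℝ) ≤ ((D * 4 ^ z : ℕ) : ℝ) := by exact_mod_cast hGle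
  calc (N : ℝ) ≤ 2 * ((N - r : ℕ) : ℝ) := h3
    _ ≤ 2 * (E * (S.card : ℝ)) := by
      refine mul_le_mul_of_nonneg_left ?_ (by norm_num)
      exact hN1
    _ ≤ 2 * (E * (G * ((S.filter (fun j => j % G = ν0)).card : ℝ))) := by
      refine mul_le_mul_of_nonneg_left (mul_le_mul_of_nonneg_left hpig hE0.le) (by norm_num)
    _ ≤ 2 * (E * (((D * 4 ^ z : ℕ) : ℝ) * (copf (fab q R t.1 t.2) z N : ℝ))) := by
      refine mul_le_mul_of_nonneg_left (mul_le_mul_of_nonneg_left ?_ hE0.le) (by norm_num)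
      exact mul_le_mul hGR h2 (Nat.cast_nonneg _) (Nat.cast_nonneg _)
    _ = (2 * ((D * 4 ^ z : ℕ) : ℝ) * E) * (copf (fab q R t.1 t.2) z N : ℝ) := by ring
    _ ≤ Real.exp ((z : ℝ) ^ (C1 + 3)) * (copf (fab q R t.1 t.2) z N : ℝ) :=
      mul_le_mul_of_nonneg_right hsize (Nat.cast_nonneg _)

end Pool.Agent.PnU
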